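import Pool.Agent.H70G.Ser

/-!
# Abelian groups with Sylow subgroups of bounded rank
-/

set_option autoImplicit false

namespace Pool.Agent.H70G

variable {G : Type} [Group G]

/-- A finite abelian group in which all `l`-subgroups are products of `κ` cyclic subgroups has `κ`
generators. -/
theorem LC.abGen [Finite G] (hab : ∀ x y : G, x * y = y * x) {κ : ℕ} (h : LC κ G) :
    AbGen κ G := by
  classical
  have hn : ∀ {p : ℕ} [Fact p.Prime] (P : Sylow p G), (P : Subgroup G).Normal := fun P =>
    ⟨fun n hn g => by rw [hab g n, mul_inv_cancel_right]; exact hn⟩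
  have hF : ∀ p : (Nat.card G).primeFactors, Fact (p : ℕ).Prime := fun p =>
    ⟨Nat.prime_of_mem_primeFactors p.2⟩
  let e : (∀ p : (Nat.card G).primeFactors, ∀ P : Sylow p G, P) ≃* G :=
    Sylow.directProductOfNormal hn
  have hg : ∀ (p : (Nat.card G).primeFactors) (P : Sylow p G), ∃ g : Fin κ → P,
      ∀ x : P, PC g x := fun p P => by
    have := hF p
    obtain ⟨g, hg⟩ := (h p P P.isPGroup').pc
    exact ⟨g, fun x => (hg x).1 trivial⟩
  choose g hg using hg
  choose f hf using hg
  refine ⟨hab, fun i => e fun p P => g p P i, fun x => ?_⟩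
  obtain ⟨y, rfl⟩ := e.surjective x
  have hcard : ∀ (p : (Nat.card G).primeFactors) (P : Sylow p G),
      Nat.card P = (p : ℕ) ^ (Nat.card G).factorization p := fun p P => by
    have := hF p
    exact P.card_eq_multiplicity
  have hk : ∀ i, ∃ k : ℕ, ∀ (p : (Nat.card G).primeFactors) (P : Sylow p G),
      g p P i ^ k = g p P i ^ f p P (y p P) i := by
    intro i
    obtain ⟨k, hk⟩ := Nat.chineseRemainderOfFinset
      (fun p : (Nat.card G).primeFactors => f p default (y p default) i)
      (fun p => (p : ℕ) ^ (Nat.card G).factorization p) Finset.univ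
      (fun p _ => (pow_pos (hF p).out.pos _).ne')
      (fun p _ q _ hpq => Nat.coprime_pow_primes _ _ (hF p).out (hF q).out
        fun h => hpq (Subtype.ext h))
    refine ⟨k, fun p P => ?_⟩
    have := hF p
    let _ := Sylow.unique_of_normal (default : Sylow p G) (hn _)
    have hP : P = default := Subsingleton.elim _ _
    subst hP
    rw [pow_eq_pow_iff_modEq]
    refine (hk p (Finset.mem_univ p)).of_dvd ?_
    show orderOf (g p default i) ∣ (p : ℕ) ^ (Nat.card G).factorization p
    rw [← hcard p default]
    exact orderOf_dvd_natCard _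
  choose F hF' using hk
  refine ⟨F, ?_⟩
  have e1 : (List.ofFn fun i => (e fun p P => g p P i) ^ F i).prod =
      e (List.ofFn fun i => (fun p P => g p P i) ^ F i).prod := by
    rw [map_list_prod, List.map_ofFn]
    congr 1
    refine congrArg List.ofFn (funext fun i => ?_)
    rw [Function.comp_apply, map_pow]
  rw [e1]
  refine congrArg e (funext fun p => funext fun P => ?_)
  let ev : (∀ p : (Nat.card G).primeFactors, ∀ P : Sylow p G, P) →* P :=
    (Pi.evalMonoidHom (fun P : Sylow p G => P) P).comp
      (Pi.evalMonoidHom (fun p : (Nat.card G).primeFactors => ∀ P : Sylow p G, P) p)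
  have h2 := map_list_prod ev (List.ofFn fun i => (fun p P => g p P i) ^ F i)
  rw [List.map_ofFn] at h2
  refine h2.trans ?_
  refine Eq.trans ?_ (hf p P (y p P))
  congr 1
  refine congrArg List.ofFn (funext fun i => ?_)
  exact hF' i p P

/-- **Sections of groups with a bounded series.** -/
theorem main_ser (r s : ℕ) : ∃ κ : ℕ, ∀ (p : ℕ) (K : Type) [Field K], p.Prime →
    Nat.card K = p ^ s → ∀ (G' G : Type) [Group G'] [Group G] [Finite G'], Ser K r r G' →
    Sec G' G → Tame κ G ∧ ((∀ x y : G, x * y = y * x) → AbGen κ G) := by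
  refine ⟨r * (s * (r * r) + (r + r ^ r)), fun p K _ hp hK G' G _ _ _ h hS => ?_⟩
  have hKf : Finite K := Nat.finite_of_card_ne_zero (by rw [hK]; exact (pow_pos hp.pos s).ne')
  have hGf : Finite G := by
    obtain ⟨H, φ, hφ⟩ := hS
    exact Finite.of_surjective φ hφ
  have h1 := (lc_ser hp hK r G' h).sec hS
  exact ⟨h1.tame, fun hab => h1.abGen hab⟩

end Pool.Agent.H70G
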