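import Mathlib

/-!
# Iterates of affine maps of finitely generated abelian groups

`h (x y) h (1) = h (x) h (y)`: `h` is the product of an endomorphism and a constant.
-/

set_option autoImplicit false

namespace Pool.Agent.H70G

open Finset

variable {G : Type} [CommGroup G] {κ E : ℕ} [NeZero E]

omit [NeZero E] in
private theorem pmod (hE : ∀ x : G, x ^ E = 1) (x : G) (n : ℕ) : x ^ (n % E) = x ^ n := by
  conv_rhs => rw [← Nat.mod_add_div n E, pow_add, pow_mul, hE, one_pow, mul_one]

private theorem pcast (hE : ∀ x : G, x ^ E = 1) (x : G) (n : ℕ) :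
    x ^ ((n : ZMod E).val) = x ^ n := by
  rw [ZMod.val_natCast, pmod hE]

private theorem psum (hE : ∀ x : G, x ^ E = 1) {ι : Type} (s : Finset ι) (x : G)
    (a b : ι → ZMod E) :
    x ^ (∑ j ∈ s, a j * b j).val = ∏ j ∈ s, (x ^ (a j).val) ^ (b j).val := by
  have e : (∑ j ∈ s, a j * b j) = ((∑ j ∈ s, (a j).val * (b j).val : ℕ) : ZMod E) := by
    push_cast
    refine Finset.sum_congr rfl fun j _ => ?_
    rw [ZMod.natCast_zmod_val, ZMod.natCast_zmod_val]
  rw [e, pcast hE, ← Finset.prod_pow_eq_pow_sum]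
  refine Finset.prod_congr rfl fun j _ => ?_
  rw [pow_mul]

/-- the element with the coordinates `v` -/
def evg (g : Fin κ → G) (v : Fin (κ + 1) → ZMod E) : G := ∏ i : Fin κ, g i ^ (v i.castSucc).val

theorem affine_iter (hE : ∀ x : G, x ^ E = 1) (h : G → G)
    (hh : ∀ x y, h (x * y) * h 1 = h x * h y) (g : Fin κ → G)
    (B : Matrix (Fin (κ + 1)) (Fin (κ + 1)) (ZMod E))
    (hrow : ∀ v : Fin (κ + 1) → ZMod E, B.mulVec v (Fin.last κ) = v (Fin.last κ))
    (hcol : ∀ j : Fin κ, evg g (fun i => B i j.castSucc) = h (g j) * (h 1)⁻¹)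
    (hlast : evg g (fun i => B i (Fin.last κ)) = h 1) (v : Fin (κ + 1) → ZMod E)
    (hv : v (Fin.last κ) = 1) (t : ℕ) :
    h^[t] (evg g v) = evg g ((B ^ t).mulVec v) := by
  let φ : G →* G := MonoidHom.mk' (fun x => h x * (h 1)⁻¹) (fun x y => by
    have h1 := hh x y
    have h2 : h (x * y) = h x * h y * (h 1)⁻¹ := by rw [← h1, mul_inv_cancel_right]
    rw [h2, mul_mul_mul_comm, mul_assoc (h x * h y)])
  have hφ : ∀ x, φ x = h x * (h 1)⁻¹ := fun x => rfl
  have step : ∀ w : Fin (κ + 1) → ZMod E, w (Fin.last κ) = 1 →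
      evg g (B.mulVec w) = h (evg g w) := by
    intro w hw
    have h1 : evg g (B.mulVec w) = ∏ j : Fin (κ + 1), (evg g fun i => B i j) ^ (w j).val := by
      unfold evg
      have h2 : ∀ i : Fin κ, g i ^ (B.mulVec w i.castSucc).val =
          ∏ j : Fin (κ + 1), (g i ^ (B i.castSucc j).val) ^ (w j).val := fun i =>
        psum hE univ (g i) (fun j => B i.castSucc j) w
      rw [Finset.prod_congr rfl fun i _ => h2 i, Finset.prod_comm]
      refine Finset.prod_congr rfl fun j _ => ?_
      rw [Finset.prod_pow]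
    rw [h1, Fin.prod_univ_castSucc, hw, hlast]
    have h3 : (h 1) ^ (1 : ZMod E).val = h 1 := by
      have := pcast hE (h 1) 1
      rwa [Nat.cast_one, pow_one] at this
    rw [h3]
    have h4 : ∏ j : Fin κ, (evg g fun i => B i j.castSucc) ^ (w j.castSucc).val =
        φ (evg g w) := by
      unfold evg
      rw [map_prod]
      refine Finset.prod_congr rfl fun j _ => ?_
      rw [map_pow, hφ]
      congr 1
      exact hcol j
    rw [h4, hφ, inv_mul_cancel_right]
  have hl : ∀ t : ℕ, ((B ^ t).mulVec v) (Fin.last κ) = 1 := by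
    intro t
    induction t with
    | zero => rw [pow_zero, Matrix.one_mulVec, hv]
    | succ t ih => rw [pow_succ', ← Matrix.mulVec_mulVec, hrow, ih]
  induction t with
  | zero => rw [pow_zero, Matrix.one_mulVec]; rfl
  | succ t ih =>
    rw [Function.iterate_succ_apply', ih, ← step _ (hl t), pow_succ', ← Matrix.mulVec_mulVec]

end Pool.Agent.H70G
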