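import Mathlib

/-!
# The Fitting decomposition of a square matrix over `ℤ/m`
-/

set_option autoImplicit false

namespace Pool.Agent.H70G

open Polynomial

theorem exists_idem {S : Type*} [Monoid S] [Finite S] (x : S) :
    ∃ N, 0 < N ∧ x ^ N * x ^ N = x ^ N := by
  obtain ⟨i, j, hij, h⟩ := Finite.exists_ne_map_eq_of_infinite (fun n : ℕ => x ^ n)
  have key : ∀ i j : ℕ, i < j → x ^ i = x ^ j → ∃ N, 0 < N ∧ x ^ N * x ^ N = x ^ N := by
    intro i j hij h
    obtain ⟨p, hp, rfl⟩ : ∃ p, 0 < p ∧ j = i + p := ⟨j - i, by omega, by omega⟩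
    have h1 : ∀ c s, i ≤ s → x ^ (s + c * p) = x ^ s := by
      intro c
      induction c with
      | zero => intro s _; rw [Nat.zero_mul, Nat.add_zero]
      | succ c ih =>
        intro s hs
        have e1 : s + (c + 1) * p = (s - i) + (i + p) + c * p := by
          rw [add_mul, one_mul]
          omega
        rw [e1, ih _ (by omega), pow_add, ← h, ← pow_add, Nat.sub_add_cancel hs]
    refine ⟨(i + 1) * p, by positivity, ?_⟩
    rw [← pow_add]
    refine h1 _ _ ?_
    calc i ≤ (i + 1) * 1 := by omega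
      _ ≤ (i + 1) * p := Nat.mul_le_mul_left _ hp
  rcases Nat.lt_or_gt_of_ne hij with h1 | h1
  · exact key i j h1 h
  · exact key j i h1 h.symm

private theorem rad_dvd {m : ℕ} [NeZero m] {c : ZMod m} (hc : IsNilpotent c) :
    ((∏ p ∈ m.primeFactors, p : ℕ) : ZMod m) ∣ c := by
  obtain ⟨K, hK⟩ := hc
  have h1 : m ∣ c.val ^ K := by
    rw [← ZMod.natCast_eq_zero_iff]
    push_cast
    rw [ZMod.natCast_zmod_val]
    exact hK
  have h2 : (∏ p ∈ m.primeFactors, p) ∣ c.val := by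
    refine Finset.prod_primes_dvd _ (fun p hp => (Nat.prime_of_mem_primeFactors hp).prime)
      fun p hp => ?_
    exact (Nat.prime_of_mem_primeFactors hp).dvd_of_dvd_pow
      ((Nat.dvd_of_mem_primeFactors hp).trans h1)
  obtain ⟨q, hq⟩ := h2
  refine ⟨(q : ZMod m), ?_⟩
  rw [← Nat.cast_mul, ← hq, ZMod.natCast_zmod_val]

private theorem rad_pow {m : ℕ} [NeZero m] :
    ((∏ p ∈ m.primeFactors, p : ℕ) : ZMod m) ^ (Nat.log 2 m + 1) = 0 := by
  rw [← Nat.cast_pow, ZMod.natCast_eq_zero_iff]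
  have h0 : m ≠ 0 := NeZero.ne m
  conv_lhs => rw [← Nat.prod_factorization_pow_eq_self h0]
  rw [Finsupp.prod, Nat.support_factorization, ← Finset.prod_pow]
  refine Finset.prod_dvd_prod_of_dvd _ _ fun p hp => pow_dvd_pow p ?_
  have hp' := Nat.prime_of_mem_primeFactors hp
  have h1 : 2 ^ m.factorization p ≤ m :=
    (Nat.pow_le_pow_left hp'.two_le _).trans (Nat.ordProj_le p h0)
  exact (Nat.le_log_of_pow_le (by norm_num) h1).trans (Nat.le_succ _)

theorem nilp_bound {n m : ℕ} [NeZero m] {B : Matrix (Fin n) (Fin n) (ZMod m)}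
    (hB : IsNilpotent B) : B ^ (n * (Nat.log 2 m + 1)) = 0 := by
  have h1 := Matrix.isNilpotent_charpoly_sub_pow_of_isNilpotent hB
  rw [Fintype.card_fin] at h1
  have h2 : C ((∏ p ∈ m.primeFactors, p : ℕ) : ZMod m) ∣ B.charpoly - X ^ n :=
    C_dvd_iff_dvd_coeff _ _ |>.2 fun i => rad_dvd (Polynomial.isNilpotent_iff.1 h1 i)
  obtain ⟨q, hq⟩ := h2
  have h3 : B ^ n = aeval B (-(C ((∏ p ∈ m.primeFactors, p : ℕ) : ZMod m) * q)) := by
    rw [← hq, neg_sub, map_sub, Matrix.aeval_self_charpoly, sub_zero, map_pow, aeval_X]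
  rw [pow_mul, h3, ← map_pow, neg_pow, mul_pow, ← C_pow, rad_pow, C_0, zero_mul, mul_zero,
    map_zero]

/-- **Fitting decomposition.** -/
theorem fit {n m : ℕ} [NeZero m] (A : Matrix (Fin n) (Fin n) (ZMod m)) :
    ∃ e B : Matrix (Fin n) (Fin n) (ZMod m), e * e = e ∧ e * A = A * e ∧
      (A * e + (1 - e)) * B = 1 ∧ (A * (1 - e)) ^ (n * (Nat.log 2 m + 1)) = 0 := by
  obtain ⟨N, hN, h⟩ := exists_idem A
  obtain ⟨N', rfl⟩ : ∃ N', N = N' + 1 := ⟨N - 1, by omega⟩
  let E : (ZMod m)[X] := X ^ (N' + 1)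
  have hE : aeval A E = A ^ (N' + 1) := by rw [map_pow, aeval_X]
  have h0 : aeval A (E ^ 2 - E) = 0 := by
    rw [map_sub, map_pow, hE, pow_two, h, sub_self]
  have hX : aeval A (X : (ZMod m)[X]) = A := aeval_X A
  refine ⟨A ^ (N' + 1), aeval A (X ^ N' * E + (1 - E)), h, ?_, ?_, ?_⟩
  · rw [← pow_succ, ← pow_succ']
  · have h1 : A * A ^ (N' + 1) + (1 - A ^ (N' + 1)) = aeval A (X * E + (1 - E)) := by
      rw [map_add, map_mul, map_sub, map_one, hE, hX]
    rw [h1, ← map_mul]
    have h2 : (X * E + (1 - E)) * (X ^ N' * E + (1 - E)) =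
        (E ^ 2 - E) * (E + 2 - X - X ^ N') + 1 := by
      have h3 : X * X ^ N' = E := by rw [← pow_succ']
      linear_combination (E ^ 2) * h3
    rw [h2, map_add, map_mul, h0, zero_mul, zero_add, map_one]
  · refine nilp_bound ⟨N' + 1, ?_⟩
    have h1 : A * (1 - A ^ (N' + 1)) = aeval A (X * (1 - E)) := by
      rw [map_mul, map_sub, map_one, hE, hX]
    rw [h1, ← map_pow]
    have h2 : (X * (1 - E)) ^ (N' + 1) = (E ^ 2 - E) * (-(1 - E) ^ N') := by
      rw [mul_pow, pow_succ (1 - E)]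
      show E * ((1 - E) ^ N' * (1 - E)) = _
      ring
    rw [h2, map_mul, h0, zero_mul]

/-- powers by means of the decomposition -/
theorem fit_pow {n m : ℕ} {A e : Matrix (Fin n) (Fin n) (ZMod m)} {L : ℕ}
    (he : e * e = e) (hA : e * A = A * e) (hL : (A * (1 - e)) ^ L = 0) {t : ℕ} (ht : L ≤ t)
    (ht0 : 0 < t) : A ^ t = (A * e + (1 - e)) ^ t * e := by
  have hc : Commute e A := hA
  have hc1 : Commute (1 - e) A := (Commute.one_left A).sub_left hc
  have he1 : (1 - e) * (1 - e) = 1 - e := by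
    rw [mul_sub, mul_one, sub_mul, one_mul, he, sub_self, sub_zero]
  have h1 : ∀ s, 0 < s → (A * e) ^ s = A ^ s * e := by
    intro s hs
    rw [hc.symm.mul_pow]
    congr 1
    induction s with
    | zero => omega
    | succ s ih =>
      rcases Nat.eq_zero_or_pos s with h0 | h0
      · rw [h0]; simp
      · rw [pow_succ, ih h0, he]
  have h2 : ∀ s, 0 < s → (A * (1 - e)) ^ s = A ^ s * (1 - e) := by
    intro s hs
    rw [hc1.symm.mul_pow]
    congr 1
    induction s with
    | zero => omega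
    | succ s ih =>
      rcases Nat.eq_zero_or_pos s with h0 | h0
      · rw [h0]; simp
      · rw [pow_succ, ih h0, he1]
  have h3 : A ^ t * (1 - e) = 0 := by
    rw [← h2 t ht0, ← Nat.sub_add_cancel ht, pow_add, hL, mul_zero]
  have h4 : A ^ t = A ^ t * e := by
    rw [mul_sub, mul_one, sub_eq_zero] at h3
    exact h3
  have h5 : ∀ s, (A * e + (1 - e)) ^ s * e = A ^ s * e := by
    intro s
    induction s with
    | zero => simp
    | succ s ih =>
      have h6 : (A * e + (1 - e)) * e = A * e := by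
        rw [add_mul, sub_mul, one_mul, he, sub_self, add_zero, mul_assoc, he]
      have h7 : (A * e + (1 - e)) ^ s * (A * e) = ((A * e + (1 - e)) ^ s * e) * A := by
        rw [mul_assoc ((A * e + (1 - e)) ^ s) e A, hA]
      rw [pow_succ, mul_assoc, h6, h7, ih, mul_assoc, hA, ← mul_assoc, ← pow_succ]
  rw [h5]
  exact h4

end Pool.Agent.H70G
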