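import Pool.Agent.H70G.MMat
import Pool.Agent.H70G.Fit

/-!
# Powers of arbitrary square matrices over `ℤ/m`
-/

set_option autoImplicit false

namespace Pool.Agent.H70G

open Finset Pool.Agent.Grz Pool.Agent.GAvg Pool.Agent.PTr Pool.Agent.MTr Pool.Agent.LPC
  Pool.Agent.ECD Pool.Agent.Cov

/-- definable choice -/
theorem sel {n : ℕ} {b : (Fin n → ℕ) → ℕ} (hb : DFun n b) {Q : ℕ → (Fin n → ℕ) → Prop}
    (hQ : Delta0 (n + 1) (fun w => Q (w 0) (fun i => w i.succ))) :
    ∃ S : (Fin n → ℕ) → ℕ, DFun n S ∧ ∀ u, (∃ z, z ≤ b u ∧ Q z u) → S u ≤ b u ∧ Q (S u) u := by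
  classical
  have hex : ∀ u, (∃ z, z ≤ b u ∧ Q z u) → ∃ z, Q z u := fun u ⟨z, _, h⟩ => ⟨z, h⟩
  let S : (Fin n → ℕ) → ℕ := fun u => if h : ∃ z, z ≤ b u ∧ Q z u then Nat.find (hex u h) else 0
  have hS1 : ∀ u, (∃ z, z ≤ b u ∧ Q z u) → S u ≤ b u ∧ Q (S u) u ∧ ∀ z, Q z u → S u ≤ z := by
    intro u h
    obtain ⟨z, hz, hq⟩ := id h
    have e : S u = Nat.find (hex u h) := dif_pos h
    rw [e]
    exact ⟨(Nat.find_min' _ hq).trans hz, Nat.find_spec (hex u h), fun z hz => Nat.find_min' _ hz⟩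
  have hS0 : ∀ u, ¬ (∃ z, z ≤ b u ∧ Q z u) → S u = 0 := fun u h => dif_neg h
  have hQ2 : Delta0 (n + 1 + 1) (fun w => Q (w 0) (fun i => w i.succ.succ)) :=
    hQ.rename (n := n + 1 + 1) (Fin.cons 0 (fun i => i.succ.succ))
  have h1 : Delta0 (n + 1) (fun w => ∀ z, z ≤ w 0 → (Q z (fun i => w i.succ) → w 0 ≤ z)) :=
    Delta0.ballFun (DFun.proj 0) (P := fun z w => Q z (fun i => w i.succ) → w 0 ≤ z)
      (hQ2.imp (Delta0.leFun (DFun.proj (Fin.succ 0)) (DFun.proj 0)))
  have h2 : Delta0 (n + 1) (fun w => ∃ z, z ≤ b (fun i => w i.succ) ∧ Q z (fun i => w i.succ)) :=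
    (Delta0.bexFun hb hQ).rename (n := n + 1) (fun i => i.succ)
  have h3 : Delta0 (n + 1) (fun w => w 0 ≤ b (fun i => w i.succ)) :=
    Delta0.leFun (DFun.proj 0) hb.weak
  refine ⟨S, DFun.ofGraph hb (fun u => ?_) (((h2.and (h3.and (hQ.and h1))).or (h2.not.and
    (Delta0.eqFun (DFun.proj 0) (DFun.const 0)))).of_iff fun w => ?_),
    fun u h => ⟨(hS1 u h).1, (hS1 u h).2.1⟩⟩
  · by_cases h : ∃ z, z ≤ b u ∧ Q z u
    · exact (hS1 u h).1
    · rw [hS0 u h]
      exact Nat.zero_le _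
  · by_cases h : ∃ z, z ≤ b (fun i => w i.succ) ∧ Q z (fun i => w i.succ)
    · obtain ⟨k1, k2, k3⟩ := hS1 _ h
      constructor
      · intro hw
        left
        rw [hw]
        exact ⟨h, k1, k2, fun z _ hz => k3 z hz⟩
      · rintro (⟨_, _, h5, h6⟩ | ⟨h5, _⟩)
        · have h7 := k3 _ h5
          exact le_antisymm (h6 _ h7 k2) h7
        · exact absurd h h5
    · constructor
      · intro hw
        exact Or.inr ⟨h, hw.trans (hS0 _ h)⟩
      · rintro (⟨h5, _⟩ | ⟨_, h5⟩)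
        · exact absurd h5 h
        · exact h5.trans (hS0 _ h).symm

variable {n k : ℕ} {M : (Fin k → ℕ) → ℕ}

/-- the matrix with the code `z` -/
def dm (n M z : ℕ) : Matrix (Fin n) (Fin n) (ZMod (M + 1)) := mx (vc (M + 1) (n * n) z)

theorem dm_def (hM : DFun k M) {z : (Fin k → ℕ) → ℕ} (hz : DFun k z) (i j : Fin n) :
    DFun k (fun u => (dm n (M u) (z u) i j).val) := vcd hM hz _

theorem dm_surj (M : ℕ) (A : Matrix (Fin n) (Fin n) (ZMod (M + 1))) :
    ∃ z, z ≤ (M + 1) ^ (n * n) ∧ dm n M z = A :=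
  ⟨(matMon n).enc (fun _ => M) A, ((matMon n).enc_lt (fun _ => M) A).le,
    ((matMon n).enc_spec (fun _ => M) A).2⟩

theorem mat_add (hM : DFun k M) {A B : ∀ u : Fin k → ℕ, Matrix (Fin n) (Fin n) (ZMod (M u + 1))}
    (hA : ∀ i j, DFun k (fun u => (A u i j).val)) (hB : ∀ i j, DFun k (fun u => (B u i j).val))
    (i j : Fin n) : DFun k (fun u => ((A u + B u) i j).val) := by
  have h1 : DFun k (fun u => ((A u i j).val + (B u i j).val) % (M u + 1)) :=
    DFun.modPos ((hA i j).add (hB i j)) (hM.add (DFun.const 1)) fun u => Nat.succ_pos _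
  have e : (fun u => ((A u + B u) i j).val) = fun u =>
      ((A u i j).val + (B u i j).val) % (M u + 1) := by
    funext u
    rw [Matrix.add_apply, ZMod.val_add]
  rw [e]
  exact h1

theorem mat_one (hM : DFun k M) (i j : Fin n) :
    DFun k (fun u => ((1 : Matrix (Fin n) (Fin n) (ZMod (M u + 1))) i j).val) := by
  by_cases hij : i = j
  · have e : (fun u => ((1 : Matrix (Fin n) (Fin n) (ZMod (M u + 1))) i j).val) = fun u =>
        1 % (M u + 1) := by
      funext u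
      rw [hij, Matrix.one_apply_eq, ZMod.val_one_eq_one_mod]
    rw [e]
    exact (DFun.const 1).mod hM
  · have e : (fun u => ((1 : Matrix (Fin n) (Fin n) (ZMod (M u + 1))) i j).val) = fun _ => 0 := by
      funext u
      rw [Matrix.one_apply_ne hij, ZMod.val_zero]
    rw [e]
    exact DFun.const 0

theorem mat_oneSub (hM : DFun k M) {A : ∀ u : Fin k → ℕ, Matrix (Fin n) (Fin n) (ZMod (M u + 1))}
    (hA : ∀ i j, DFun k (fun u => (A u i j).val)) (i j : Fin n) :
    DFun k (fun u => ((1 - A u) i j).val) := by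
  have h1 : DFun k (fun u => (((1 : Matrix (Fin n) (Fin n) (ZMod (M u + 1))) i j).val +
      (M u + 1 - (A u i j).val)) % (M u + 1)) :=
    DFun.modPos ((mat_one hM i j).add ((hM.add (DFun.const 1)).sub (hA i j)))
      (hM.add (DFun.const 1)) fun u => Nat.succ_pos _
  have e : (fun u => ((1 - A u) i j).val) = fun u =>
      (((1 : Matrix (Fin n) (Fin n) (ZMod (M u + 1))) i j).val +
      (M u + 1 - (A u i j).val)) % (M u + 1) := by
    funext u
    rw [← ZMod.val_natCast]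
    congr 1
    rw [Matrix.sub_apply, Nat.cast_add, Nat.cast_sub (ZMod.val_lt _).le, ZMod.natCast_zmod_val,
      ZMod.natCast_zmod_val, ZMod.natCast_self]
    ring
  rw [e]
  exact h1

theorem mat_eq {A B : ∀ u : Fin k → ℕ, Matrix (Fin n) (Fin n) (ZMod (M u + 1))}
    (hA : ∀ i j, DFun k (fun u => (A u i j).val)) (hB : ∀ i j, DFun k (fun u => (B u i j).val)) :
    Delta0 k (fun u => A u = B u) := by
  refine (veq (D := n * n) (M := M)
    (x := fun u i => A u (finProdFinEquiv.symm i).1 (finProdFinEquiv.symm i).2)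
    (y := fun u i => B u (finProdFinEquiv.symm i).1 (finProdFinEquiv.symm i).2)
    (fun i => hA _ _) (fun i => hB _ _)).of_iff fun u => ?_
  constructor
  · intro h
    rw [h]
  · intro h
    rw [← mx_surj (A u), ← mx_surj (B u)]
    exact congrArg mx h

/-- **Powers of arbitrary square matrices over `ℤ/(M + 1)` are definable.** -/
theorem mat_pow (hM : DFun k M) {A : ∀ u : Fin k → ℕ, Matrix (Fin n) (Fin n) (ZMod (M u + 1))}
    (hA : ∀ i j, DFun k (fun u => (A u i j).val)) {t : (Fin k → ℕ) → ℕ} (ht : DFun k t)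
    (i j : Fin n) : DFun k (fun u => ((A u ^ t u) i j).val) := by
  classical
  -- the bound for the exponents
  have hL : DFun k (fun u => n * (lg (M u + 1) + 1)) :=
    (DFun.const n).mul ((DFun.lg (hM.add (DFun.const 1))).add (DFun.const 1))
  have hL' : DFun k (fun u => (2 * (M u + 1)) ^ n) :=
    DFun.powConst ((DFun.const 2).mul (hM.add (DFun.const 1))) n
  have hLL : ∀ u, n * (lg (M u + 1) + 1) ≤ lg ((2 * (M u + 1)) ^ n) + 1 := by
    intro u
    refine le_trans ?_ (Nat.le_succ _)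
    have h1 : 2 ^ (lg (M u + 1) + 1) ≤ 2 * (M u + 1) := by
      rw [pow_succ, mul_comm]
      exact Nat.mul_le_mul_left 2 (Nat.pow_log_le_self 2 (Nat.succ_ne_zero _))
    have h2 : 2 ^ (n * (lg (M u + 1) + 1)) ≤ (2 * (M u + 1)) ^ n := by
      rw [mul_comm, pow_mul]
      exact Nat.pow_le_pow_left h1 n
    exact Nat.le_log_of_pow_le (by norm_num) h2
  -- the choice of the idempotent
  let Q : ℕ → ℕ → (Fin k → ℕ) → Prop := fun y z u =>
    dm n (M u) z * dm n (M u) z = dm n (M u) z ∧ dm n (M u) z * A u = A u * dm n (M u) z ∧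
    (A u * dm n (M u) z + (1 - dm n (M u) z)) * dm n (M u) y = 1 ∧
    (A u * (1 - dm n (M u) z)) ^ (n * (lg (M u + 1) + 1)) = 0
  have hQ : Delta0 (k + 1 + 1) (fun w => Q (w 0) (w (Fin.succ 0)) (fun i => w i.succ.succ)) := by
    have hM2 : DFun (k + 1 + 1) (fun w : Fin (k + 1 + 1) → ℕ => M fun i => w i.succ.succ) :=
      hM.weak.weak
    have hA2 : ∀ i j, DFun (k + 1 + 1) (fun w : Fin (k + 1 + 1) → ℕ =>
        (A (fun i => w i.succ.succ) i j).val) := fun i j => (hA i j).weak.weak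
    have hz := dm_def (n := n) hM2 (z := fun w => w (Fin.succ 0)) (DFun.proj _)
    have hy := dm_def (n := n) hM2 (z := fun w => w 0) (DFun.proj _)
    have hz1 := mat_oneSub hM2 hz
    refine (mat_eq (mat_mul hM2 hz hz) hz).and ((mat_eq (mat_mul hM2 hz hA2)
      (mat_mul hM2 hA2 hz)).and ((mat_eq (mat_mul hM2 (mat_add hM2 (mat_mul hM2 hA2 hz) hz1) hy)
      (mat_one hM2)).and (mat_eq (pow_small hM2 (mat_mul hM2 hA2 hz1) hL.weak.weak hL'.weak.weak
        fun w => hLL _) fun i j => ?_)))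
    have e : (fun w : Fin (k + 1 + 1) → ℕ =>
        ((0 : Matrix (Fin n) (Fin n) (ZMod ((M fun i => w i.succ.succ) + 1))) i j).val) =
        fun _ => 0 := by
      funext w
      rw [Matrix.zero_apply, ZMod.val_zero]
    rw [e]
    exact DFun.const 0
  have hb : DFun k (fun u => (M u + 1) ^ (n * n)) :=
    DFun.powConst (hM.add (DFun.const 1)) _
  have hQ1 : Delta0 (k + 1) (fun w => ∃ y, y ≤ (M (fun i => w i.succ) + 1) ^ (n * n) ∧
      Q y (w 0) (fun i => w i.succ)) :=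
    Delta0.bexFun hb.weak (P := fun y w => Q y (w 0) (fun i => w i.succ)) hQ
  obtain ⟨S, hS, hSs⟩ := sel hb (Q := fun z u => ∃ y, y ≤ (M u + 1) ^ (n * n) ∧ Q y z u) hQ1
  have hex : ∀ u, ∃ z, z ≤ (M u + 1) ^ (n * n) ∧ ∃ y, y ≤ (M u + 1) ^ (n * n) ∧ Q y z u := by
    intro u
    obtain ⟨e, B, h1, h2, h3, h4⟩ := fit (A u)
    obtain ⟨z, hz, rfl⟩ := dm_surj (M u) e
    obtain ⟨y, hy, rfl⟩ := dm_surj (M u) B
    exact ⟨z, hz, y, hy, h1, h2, h3, h4⟩
  have hP : ∀ u, ∃ y, Q y (S u) u := fun u => by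
    obtain ⟨_, y, _, h⟩ := hSs u (hex u)
    exact ⟨y, h⟩
  have hU : ∀ u, IsUnit (A u * dm n (M u) (S u) + (1 - dm n (M u) (S u))) := fun u => by
    obtain ⟨y, h1, h2, h3, h4⟩ := hP u
    rw [Matrix.isUnit_iff_isUnit_det]
    exact Matrix.isUnit_det_of_right_inverse h3
  have hS1 := dm_def (n := n) hM hS
  have hC := mat_add hM (mat_mul hM hA hS1) (mat_oneSub hM hS1)
  have hCt := gl_npow hM ht (A := fun u => (hU u).unit) hC
  have hbig := mat_mul hM (A := fun u => (((hU u).unit ^ t u : GL (Fin n) (ZMod (M u + 1))) :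
    Matrix (Fin n) (Fin n) (ZMod (M u + 1)))) hCt hS1
  have hsm := pow_small hM hA (t := fun u => min (t u) (n * (lg (M u + 1) + 1)))
    (DFun.min ht hL) hL' (fun u => (min_le_right _ _).trans (hLL u))
  have hc : Delta0 k (fun u => t u = 0 ∨ t u < n * (lg (M u + 1) + 1)) :=
    (Delta0.eqFun ht (DFun.const 0)).or (Delta0.ltFun ht hL)
  refine (show (fun u => ((A u ^ t u) i j).val) = _ from ?_) ▸ DFun.ite hc (hsm i j) (hbig i j)
  funext u
  split_ifs with h
  · have e : min (t u) (n * (lg (M u + 1) + 1)) = t u := by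
      rcases h with h | h
      · rw [h, Nat.zero_min]
      · exact min_eq_left h.le
    rw [e]
  · push Not at h
    obtain ⟨y, h1, h2, h3, h4⟩ := hP u
    have h5 := fit_pow h1 h2 h4 h.2 (Nat.pos_of_ne_zero h.1)
    rw [h5]
    rfl

end Pool.Agent.H70G
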