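import Pool.Agent.H70G.TameDef

/-!
# Orders of groups whose Sylow subgroups are normal or products of few cyclic subgroups: proof
-/

set_option autoImplicit false

noncomputable section

namespace Pool.Agent.H70G

open Finset Pool.Agent.Grz Pool.Agent.GAvg Pool.Agent.PTr Pool.Agent.MTr Pool.Agent.LPC
  Pool.Agent.ECD
open scoped Classical

theorem lam_eq {l B : ℕ} (hl : l.Prime) (hB : 1 ≤ B) : lam l B = l ^ Nat.log l B :=
  if_pos ⟨hl, hB⟩

theorem lam_pos (l B : ℕ) : 0 < lam l B := by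
  unfold lam
  split_ifs with h
  · exact Nat.pow_pos h.1.pos
  · exact one_pos

variable {r : ℕ} (Γ : GFam r) (k : ℕ)

/-- the number `w` gives a Sylow subgroup -/
def CC (v : Fin r → ℕ) (l w : ℕ) : Prop :=
  l.Prime ∧ Cert l (lam l (Γ.N v + 1)) (SS Γ k v l w)

/-- the Sylow subgroup given by `w`, or the trivial subgroup -/
def HH (v : Fin r → ℕ) (l w : ℕ) : Subgroup (Γ.G v) :=
  if h : CC Γ k v l w then certSub (n := lam l (Γ.N v + 1) - 1) h.2.1 h.2.2.1
    (by
      rw [Nat.sub_add_cancel (lam_pos _ _)]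
      exact h.2.2.2.1) else ⊥

theorem mem_HH (v : Fin r → ℕ) (l w : ℕ) (x : Γ.G v) : x ∈ HH Γ k v l w ↔
    (CC Γ k v l w ∧ SS Γ k v l w x) ∨ (¬ CC Γ k v l w ∧ x = 1) := by
  unfold HH
  by_cases h : CC Γ k v l w
  · rw [dif_pos h]
    exact ⟨fun h1 => Or.inl ⟨h, h1⟩, fun h1 => h1.elim (fun h2 => h2.2) fun h2 => absurd h h2.1⟩
  · rw [dif_neg h, Subgroup.mem_bot]
    exact ⟨fun h1 => Or.inr ⟨h, h1⟩, fun h1 => h1.elim (fun h2 => absurd h2.1 h) fun h2 => h2.2⟩

theorem HH_nil (v : Fin r → ℕ) (l w : ℕ) : Group.IsNilpotent (HH Γ k v l w) := by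
  by_cases h : CC Γ k v l w
  · have hF : Fact l.Prime := ⟨h.1⟩
    have h1 : IsPGroup l (HH Γ k v l w) := by
      rintro ⟨x, hx⟩
      have h2 := ((mem_HH Γ k v l w x).1 hx).elim (fun h3 => h3.2) fun h3 => absurd h h3.1
      have h3 := h.2.2.2.1 x h2
      rw [lam_eq h.1 (Nat.succ_pos _)] at h3
      exact ⟨_, Subtype.ext h3⟩
    exact h1.isNilpotent
  · have e : HH Γ k v l w = ⊥ := dif_neg h
    rw [e]
    infer_instance

/-- the order is the `l`-part -/
theorem HH_card (v : Fin r → ℕ) {l w : ℕ} (h : CC Γ k v l w) :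
    Nat.card (HH Γ k v l w) = l ^ (Nat.card (Γ.G v)).factorization l := by
  have hF : Fact l.Prime := ⟨h.1⟩
  have h1 := h.2
  rw [lam_eq h.1 (Nat.succ_pos _)] at h1
  obtain ⟨P, hP⟩ := (cert_iff (Γ.card_le v) h.1 _).1 h1
  rw [← P.card_eq_multiplicity]
  refine Nat.card_congr (Equiv.subtypeEquivRight fun x => ?_)
  refine Iff.trans ?_ (hP x).symm
  rw [mem_HH]
  exact ⟨fun h2 => h2.elim (fun h3 => h3.2) fun h3 => absurd h h3.1, fun h2 => Or.inl ⟨h, h2⟩⟩

section

variable {n : ℕ} {σ : Fin r → (Fin n → ℕ) → ℕ} {l w : (Fin n → ℕ) → ℕ}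

theorem cc_def (hσ : ∀ i, DFun n (σ i)) (hl : DFun n l) (hw : DFun n w) :
    Delta0 n (fun u => CC Γ k (fun i => σ i u) (l u) (w u)) :=
  (delta_prime hl).and (cert_def Γ k hσ hl hw)

theorem hh_def (hσ : ∀ i, DFun n (σ i)) (hl : DFun n l) (hw : DFun n w) :
    DFun n (fun u => Nat.card (HH Γ k (fun i => σ i u) (l u) (w u))) := by
  have hσ1 : ∀ i, DFun (n + 1) (fun w : Fin (n + 1) → ℕ => σ i (fun j => w j.succ)) :=
    fun i => (hσ i).weak
  have x1 := Γ.gdec (σ := fun i w => σ i (fun j => w j.succ)) hσ1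
    (z := fun w : Fin (n + 1) → ℕ => w 0) (DFun.proj 0)
  refine ApC.card_sub_nil Γ hσ (H := fun u => HH Γ k (fun i => σ i u) (l u) (w u)) ?_
    fun u => HH_nil Γ k _ _ _
  have c1 := cc_def Γ k hσ1 hl.weak hw.weak
  refine ((c1.and (ss_def Γ k hσ1 hl.weak hw.weak x1)).or (c1.not.and
    (Γ.geq x1 (Γ.gone hσ1)))).of_iff fun t => ?_
  exact mem_HH Γ k _ _ _ _

end

/-- the condition -/
def TC (v : Fin r → ℕ) : Prop :=
  ∀ l, l ≤ Γ.N v + 1 → (l.Prime → ∃ w, w ≤ (Γ.N v + 1) ^ k ∧ CC Γ k v l w)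

theorem tc_def : Delta0 r (TC Γ k) := by
  have h2 : Delta0 (r + 1 + 1) (fun t => CC Γ k (fun i => t i.succ.succ) (t (Fin.succ 0)) (t 0)) :=
    cc_def Γ k (σ := fun i t => t i.succ.succ) (fun i => DFun.proj _) (DFun.proj _)
      (DFun.proj _)
  have hσ : ∀ i : Fin r, DFun (r + 1) (fun t : Fin (r + 1) → ℕ => t i.succ) :=
    fun i => DFun.proj _
  have h1 : Delta0 (r + 1) (fun t => ∃ w, w ≤ (Γ.N (fun i => t i.succ) + 1) ^ k ∧
      CC Γ k (fun i => t i.succ) (t 0) w) :=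
    Delta0.bexFun (PTr.DFun.powConst ((Γ.hN.comp hσ).add (DFun.const 1)) k)
      (P := fun w t => CC Γ k (fun i => t i.succ) (t 0) w) h2
  exact Delta0.ballFun (Γ.hN.add (DFun.const 1))
    (P := fun l v => l.Prime → ∃ w, w ≤ (Γ.N v + 1) ^ k ∧ CC Γ k v l w)
    ((delta_prime (DFun.proj 0)).imp h1)

/-- a number with given digits -/
theorem exists_dig {b : ℕ} (hb : 0 < b) (a : Fin k → ℕ) (ha : ∀ i, a i < b) :
    ∃ w, w < b ^ k ∧ ∀ i : Fin k, w / b ^ (i : ℕ) % b = a i := by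
  refine ⟨∑ i ∈ range k, (if h : i < k then a ⟨i, h⟩ else 0) * b ^ i, ?_, fun i => ?_⟩
  · refine GAvg.sum_lt hb (fun i => if h : i < k then a ⟨i, h⟩ else 0) ?_
    intro j hj
    rw [dif_pos hj]
    exact ha _
  · have h1 := dig_sum (q := b) (m := k) hb (fun i => if h : i < k then a ⟨i, h⟩ else 0) (by
      intro j hj
      rw [dif_pos hj]
      exact ha _) i.isLt
    rw [dif_pos i.isLt, Fin.eta] at h1
    exact h1

theorem tc_iff (v : Fin r → ℕ) : TC Γ k v ↔ Tame k (Γ.G v) := by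
  constructor
  · intro h l hl
    have hF : Fact l.Prime := ⟨hl⟩
    rcases Nat.lt_or_ge (Γ.N v + 1) l with h0 | h0
    · let P : Sylow l (Γ.G v) := default
      refine ⟨P, Or.inl ?_⟩
      have h1 : Nat.card P = 1 := by
        rw [P.card_eq_multiplicity, Nat.factorization_eq_zero_of_lt
          ((Γ.card_le v).trans_lt h0), pow_zero]
      have h2 : (P : Subgroup (Γ.G v)) = ⊥ := Subgroup.card_eq_one.1 h1
      rw [h2]
      infer_instance
    · obtain ⟨w, -, hw⟩ := h l h0 hl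
      have h1 := hw.2
      rw [lam_eq hl (Nat.succ_pos _)] at h1
      obtain ⟨P, hP⟩ := (cert_iff (Γ.card_le v) hl _).1 h1
      refine ⟨P, ?_⟩
      by_cases h2 : w = 0
      · left
        refine ⟨fun x hx c => ?_⟩
        have h3 := ((hP x).1 hx).elim (fun h4 => h4.2) fun h4 => absurd h2 h4.1
        refine (hP _).2 (Or.inl ⟨h2, ?_⟩)
        rw [conj_pow, h3, mul_one, mul_inv_cancel]
      · right
        refine ⟨gs Γ k v (w - 1), fun x => (hP x).trans ?_⟩
        exact ⟨fun h3 => h3.elim (fun h4 => absurd h4.1 h2) fun h4 => h4.2,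
          fun h3 => Or.inr ⟨h2, h3⟩⟩
  · intro h l h0 hl
    have hF : Fact l.Prime := ⟨hl⟩
    have hlt : Nat.card (Γ.G v) < l ^ (Nat.log l (Γ.N v + 1) + 1) :=
      (Γ.card_le v).trans_lt (Nat.lt_pow_succ_log_self hl.one_lt _)
    obtain ⟨P, hP | ⟨g, hg⟩⟩ := h l hl
    · refine ⟨0, Nat.zero_le _, hl, ?_⟩
      rw [lam_eq hl (Nat.succ_pos _)]
      refine (cert_iff (Γ.card_le v) hl _).2 ⟨P, fun x => ?_⟩
      unfold SS
      rw [lam_eq hl (Nat.succ_pos _)]
      constructor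
      · intro hx
        exact Or.inl ⟨rfl, pow_of_mem' hl hlt P.isPGroup' hx⟩
      · rintro (⟨_, hx⟩ | ⟨h1, _⟩)
        · obtain ⟨Q, hQ⟩ := (zpow_pgroup hl hx).exists_le_sylow
          have hQP : Q = P := by
            have := P.unique_of_normal hP
            exact Subsingleton.elim _ _
          rw [← hQP]
          exact hQ (Subgroup.mem_zpowers x)
        · exact absurd rfl h1
    · obtain ⟨w, hw, hd⟩ := exists_dig k (b := Γ.N v + 1) (Nat.succ_pos _)
        (fun i => Γ.enc v (g i)) fun i => Nat.lt_succ_of_le (Γ.bd v _)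
      refine ⟨w + 1, hw, hl, ?_⟩
      rw [lam_eq hl (Nat.succ_pos _)]
      refine (cert_iff (Γ.card_le v) hl _).2 ⟨P, fun x => ?_⟩
      have e : gs Γ k v (w + 1 - 1) = g := by
        funext i
        unfold gs
        rw [Nat.add_sub_cancel, hd, Γ.dec_enc]
      unfold SS
      rw [e, hg]
      exact ⟨fun h1 => Or.inr ⟨Nat.succ_ne_zero w, h1⟩,
        fun h1 => h1.elim (fun h2 => absurd h2.1 (Nat.succ_ne_zero w)) fun h2 => h2.2⟩

theorem tame_def : Delta0 r (fun v => Tame k (Γ.G v)) :=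
  (tc_def Γ k).of_iff fun v => (tc_iff Γ k v).symm

/-- **The function that is the order of the group if each Sylow subgroup is normal or a product of
`k` cyclic subgroups, and `0` if not.** -/
theorem card_tame : DFun r (fun v => if Tame k (Γ.G v) then Nat.card (Γ.G v) else 0) := by
  have hσ1 : ∀ i : Fin r, DFun (r + 1) (fun t : Fin (r + 1) → ℕ => t i.succ) :=
    fun i => DFun.proj _
  have hσ2 : ∀ i : Fin r, DFun (r + 1 + 1) (fun t : Fin (r + 1 + 1) → ℕ => t i.succ.succ) :=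
    fun i => DFun.proj _
  have hσ3 : ∀ i : Fin r, DFun (r + 1 + 1 + 1)
      (fun t : Fin (r + 1 + 1 + 1) → ℕ => t i.succ.succ.succ) := fun i => DFun.proj _
  have hN1 : DFun (r + 1) (fun t : Fin (r + 1) → ℕ => Γ.N (fun i => t i.succ) + 1) :=
    (Γ.hN.comp hσ1).add (DFun.const 1)
  have hN2 : DFun (r + 1 + 1) (fun t : Fin (r + 1 + 1) → ℕ =>
    Γ.N (fun i => t i.succ.succ) + 1) := (Γ.hN.comp hσ2).add (DFun.const 1)
  -- `t 0 = w`, `t 1 = l`, `t 2 =` the value
  have a3 : Delta0 (r + 1 + 1 + 1) (fun t =>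
      CC Γ k (fun i => t i.succ.succ.succ) (t (Fin.succ 0)) (t 0) ∧
      t (Fin.succ 0) ^ (t (Fin.succ (Fin.succ 0))).factorization (t (Fin.succ 0)) =
        Nat.card (HH Γ k (fun i => t i.succ.succ.succ) (t (Fin.succ 0)) (t 0))) :=
    (cc_def Γ k hσ3 (DFun.proj _) (DFun.proj _)).and
      (Delta0.eqFun (ApC.ordproj_def (DFun.proj _) (DFun.proj _))
        (hh_def Γ k hσ3 (DFun.proj _) (DFun.proj _)))
  have a2 : Delta0 (r + 1 + 1) (fun t => ∃ w, w ≤ (Γ.N (fun i => t i.succ.succ) + 1) ^ k ∧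
      (CC Γ k (fun i => t i.succ.succ) (t 0) w ∧
      t 0 ^ (t (Fin.succ 0)).factorization (t 0) =
        Nat.card (HH Γ k (fun i => t i.succ.succ) (t 0) w))) :=
    Delta0.bexFun (PTr.DFun.powConst hN2 k) (P := fun w t =>
      CC Γ k (fun i => t i.succ.succ) (t 0) w ∧
      t 0 ^ (t (Fin.succ 0)).factorization (t 0) =
        Nat.card (HH Γ k (fun i => t i.succ.succ) (t 0) w)) a3
  have a1 : Delta0 (r + 1) (fun t => ∀ l, l ≤ Γ.N (fun i => t i.succ) + 1 → (l.Prime →
      ∃ w, w ≤ (Γ.N (fun i => t i.succ) + 1) ^ k ∧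
      (CC Γ k (fun i => t i.succ) l w ∧
      l ^ (t 0).factorization l = Nat.card (HH Γ k (fun i => t i.succ) l w)))) :=
    Delta0.ballFun hN1 (P := fun l t => l.Prime →
      ∃ w, w ≤ (Γ.N (fun i => t i.succ) + 1) ^ k ∧
      (CC Γ k (fun i => t i.succ) l w ∧
      l ^ (t 0).factorization l = Nat.card (HH Γ k (fun i => t i.succ) l w)))
      ((delta_prime (DFun.proj 0)).imp a2)
  have h0 : Delta0 (r + 1) (fun t => t 0 = 0) := Delta0.eqFun (DFun.proj 0) (DFun.const 0)
  have hle : Delta0 (r + 1) (fun t => t 0 ≤ Γ.N (fun i => t i.succ) + 1) :=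
    Delta0.leFun (DFun.proj 0) hN1
  have hT : Delta0 (r + 1) (fun t => Tame k (Γ.G fun i => t i.succ)) :=
    (tame_def Γ k).rename (n := r + 1) (fun i => i.succ)
  refine DFun.ofGraph (b := fun v => Γ.N v + 1) (Γ.hN.add (DFun.const 1)) (fun v => ?_)
    (((hT.and (h0.not.and (hle.and a1))).or (hT.not.and h0)).of_iff fun t => ?_)
  · split_ifs
    · exact Γ.card_le v
    · exact Nat.zero_le _
  · set v : Fin r → ℕ := fun i => t i.succ
    by_cases hv : Tame k (Γ.G v)
    · rw [if_pos hv]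
      have hc := (tc_iff Γ k v).2 hv
      constructor
      · intro h
        left
        refine ⟨hv, ?_, ?_, fun l hl hp => ?_⟩
        · rw [h]
          exact Nat.card_pos.ne'
        · rw [h]
          exact Γ.card_le v
        · obtain ⟨w, hw, h1⟩ := hc l hl hp
          refine ⟨w, hw, h1, ?_⟩
          rw [h, HH_card Γ k v h1]
      · rintro (⟨_, h1, h2, h3⟩ | ⟨h1, _⟩)
        · refine Nat.eq_of_factorization_eq h1 Nat.card_pos.ne' fun l => ?_
          by_cases hp : l.Prime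
          · rcases Nat.lt_or_ge (Γ.N v + 1) l with h4 | h4
            · rw [Nat.factorization_eq_zero_of_lt (h2.trans_lt h4),
                Nat.factorization_eq_zero_of_lt ((Γ.card_le v).trans_lt h4)]
            · obtain ⟨w, -, h5, h6⟩ := h3 l h4 hp
              rw [HH_card Γ k v h5] at h6
              exact Nat.pow_right_injective hp.two_le h6
          · rw [Nat.factorization_eq_zero_of_not_prime _ hp,
              Nat.factorization_eq_zero_of_not_prime _ hp]
        · exact absurd hv h1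
    · rw [if_neg hv]
      constructor
      · intro h
        exact Or.inr ⟨hv, h⟩
      · rintro (⟨h1, _⟩ | ⟨_, h1⟩)
        · exact absurd h1 hv
        · exact h1

end Pool.Agent.H70G
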