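import Pool.Agent.H70G.Aff
import Pool.Agent.H70G.MPow
import Pool.Agent.H70G.TameCard
import Pool.Agent.ECD.EcCount

/-!
# Iterates of definable affine maps in families of groups
-/

set_option autoImplicit false

noncomputable section

namespace Pool.Agent.H70G

open Finset Pool.Agent.Grz Pool.Agent.GAvg Pool.Agent.PTr Pool.Agent.MTr Pool.Agent.LPC
  Pool.Agent.ECD Pool.Agent.Cov
open scoped Classical

variable {r : ℕ} (Γ : GFam r)

theorem gprod (κ : ℕ) : ∀ {n : ℕ} {σ : Fin r → (Fin n → ℕ) → ℕ}, (∀ i, DFun n (σ i)) →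
    ∀ {a : ∀ u : Fin n → ℕ, Fin κ → Γ.G (fun i => σ i u)},
    (∀ i, DFun n (fun u => Γ.enc _ (a u i))) → DFun n (fun u => Γ.enc _ (List.ofFn (a u)).prod) := by
  induction κ with
  | zero =>
    intro n σ hσ a ha
    refine dfun_congr (Γ.gone hσ) fun u => ?_
    rw [List.ofFn_zero, List.prod_nil]
  | succ κ ih =>
    intro n σ hσ a ha
    refine dfun_congr (Γ.gmul hσ (ha 0) (ih hσ (a := fun u i => a u i.succ) fun i => ha i.succ))
      fun u => ?_
    rw [List.ofFn_succ, List.prod_cons]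

/-- the bound for the exponents -/
def EE1 (v : Fin r → ℕ) : ℕ :=
  (if Group.IsNilpotent (Γ.G v) then Nat.card (Γ.G v) else 0) - 1

theorem ee1_def : DFun r (EE1 Γ) := (card_nilp Γ).sub (DFun.const 1)

section

variable {n : ℕ} {σ : Fin r → (Fin n → ℕ) → ℕ} (h : ∀ u : Fin n → ℕ, Γ.G (fun i => σ i u) →
  Γ.G (fun i => σ i u))

theorem happ (hh : DFun (n + 1) (fun w => Γ.enc _ (h (fun i => w i.succ) (Γ.dec _ (w 0)))))
    {m : ℕ} {ρ : Fin n → (Fin m → ℕ) → ℕ} (hρ : ∀ i, DFun m (ρ i))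
    {x : ∀ u : Fin m → ℕ, Γ.G (fun i => σ i (fun j => ρ j u))}
    (hx : DFun m (fun u => Γ.enc _ (x u))) :
    DFun m (fun u => Γ.enc _ (h (fun j => ρ j u) (x u))) := by
  have h1 := hh.comp (n := m) (h := Fin.cons (fun u => Γ.enc _ (x u)) ρ) (fun i => by
    refine Fin.cases ?_ (fun i => ?_) i
    · exact hx
    · exact hρ i)
  refine dfun_congr h1 fun u => ?_
  show _ = Γ.enc _ (h (fun j => ρ j u) (Γ.dec _ (Γ.enc _ (x u))))
  rw [Γ.dec_enc]

/-- the conditions -/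
def AGood (κ : ℕ) (u : Fin n → ℕ) : Prop :=
  AbGen κ (Γ.G (fun i => σ i u)) ∧ IsAff (h u)

theorem agood_def (κ : ℕ) (hσ : ∀ i, DFun n (σ i))
    (hh : DFun (n + 1) (fun w => Γ.enc _ (h (fun i => w i.succ) (Γ.dec _ (w 0))))) :
    Delta0 n (AGood Γ h κ) := by
  have hσ1 : ∀ i, DFun (n + 1) (fun w : Fin (n + 1) → ℕ => σ i (fun j => w j.succ)) :=
    fun i => (hσ i).weak
  have hσ2 : ∀ i, DFun (n + 1 + 1) (fun w : Fin (n + 1 + 1) → ℕ =>
    σ i (fun j => w j.succ.succ)) := fun i => (hσ i).weak.weak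
  have y2 := Γ.gdec (σ := fun i w => σ i (fun j => w j.succ.succ)) hσ2
    (z := fun w : Fin (n + 1 + 1) → ℕ => w 0) (DFun.proj 0)
  have x2 := Γ.gdec (σ := fun i w => σ i (fun j => w j.succ.succ)) hσ2
    (z := fun w : Fin (n + 1 + 1) → ℕ => w (Fin.succ 0)) (DFun.proj _)
  have hρ : ∀ j : Fin n, DFun (n + 1 + 1) (fun w : Fin (n + 1 + 1) → ℕ => w j.succ.succ) :=
    fun j => DFun.proj _
  have k1 : Delta0 n (fun u => ∀ x y : Γ.G (fun i => σ i u), x * y = y * x) := by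
    refine Γ.gall hσ (A := fun u x => ∀ y : Γ.G (fun i => σ i u), x * y = y * x) ?_
    refine Γ.gall hσ1 (A := fun t y => Γ.dec _ (t 0) * y = y * Γ.dec _ (t 0)) ?_
    exact Γ.geq (Γ.gmul hσ2 x2 y2) (Γ.gmul hσ2 y2 x2)
  have k2 : Delta0 n (fun u => ∀ x y : Γ.G (fun i => σ i u), h u (x * y) * h u 1 =
      h u x * h u y) := by
    refine Γ.gall hσ (A := fun u x => ∀ y : Γ.G (fun i => σ i u), h u (x * y) * h u 1 =
      h u x * h u y) ?_
    refine Γ.gall hσ1 (A := fun t y => h (fun j => t j.succ) (Γ.dec _ (t 0) * y) *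
      h (fun j => t j.succ) 1 = h (fun j => t j.succ) (Γ.dec _ (t 0)) *
      h (fun j => t j.succ) y) ?_
    exact Γ.geq (Γ.gmul hσ2 (happ Γ h hh hρ (Γ.gmul hσ2 x2 y2)) (happ Γ h hh hρ (Γ.gone hσ2)))
      (Γ.gmul hσ2 (happ Γ h hh hρ x2) (happ Γ h hh hρ y2))
  have k3 : Delta0 n (fun u => ∃ z, z ≤ (Γ.N (fun i => σ i u) + 1) ^ κ ∧
      ∀ x, PC (gs Γ κ (fun i => σ i u) z) x) := by
    refine Delta0.bexFun (PTr.DFun.powConst ((Γ.hN.comp hσ).add (DFun.const 1)) κ)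
      (P := fun z u => ∀ x, PC (gs Γ κ (fun i => σ i u) z) x) ?_
    refine Γ.gall hσ1 (A := fun t x => PC (gs Γ κ (fun i => σ i (fun j => t j.succ)) (t 0)) x) ?_
    exact pc_def Γ κ hσ2 (fun i => gs_def Γ κ hσ2 (w := fun t => t (Fin.succ 0))
      (DFun.proj _) i) y2
  refine ((k1.and k3).and k2).of_iff fun u => and_congr (and_congr Iff.rfl ?_) Iff.rfl
  constructor
  · rintro ⟨g, hg⟩
    obtain ⟨w, hw, hd⟩ := exists_dig κ (b := Γ.N (fun i => σ i u) + 1) (Nat.succ_pos _)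
      (fun i => Γ.enc _ (g i)) fun i => Nat.lt_succ_of_le (Γ.bd _ _)
    have e : gs Γ κ (fun i => σ i u) w = g := by
      funext i
      unfold gs
      rw [hd, Γ.dec_enc]
    exact ⟨w, hw.le, by rw [e]; exact hg⟩
  · rintro ⟨z, _, hz⟩
    exact ⟨_, hz⟩

end

end Pool.Agent.H70G
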