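import Pool.Agent.H70G.AffDef

/-!
# Iterates of definable affine maps in families of groups: proof
-/

set_option autoImplicit false

noncomputable section

namespace Pool.Agent.H70G

open Finset Pool.Agent.Grz Pool.Agent.GAvg Pool.Agent.PTr Pool.Agent.MTr Pool.Agent.LPC
  Pool.Agent.ECD Pool.Agent.Cov
open scoped Classical

/-- the product of the powers -/
def pg {κ : ℕ} {G : Type} [Group G] (g : Fin κ → G) (a : Fin κ → ℕ) : G :=
  (List.ofFn fun i => g i ^ a i).prod

private theorem evg_pg {κ E : ℕ} {G : Type} [CommGroup G] (g : Fin κ → G)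
    (v : Fin (κ + 1) → ZMod E) : evg g v = pg g fun i => (v i.castSucc).val :=
  (List.prod_ofFn).symm

private theorem final_comm {κ E : ℕ} [NeZero E] {G : Type} [CommGroup G]
    (hE : ∀ x : G, x ^ E = 1) (h : G → G) (hh : IsAff h) (g : Fin κ → G)
    (B : Matrix (Fin (κ + 1)) (Fin (κ + 1)) (ZMod E))
    (hrow : ∀ j, B (Fin.last κ) j = if j = Fin.last κ then 1 else 0)
    (hcol : ∀ j : Fin κ, (pg g fun i => (B i.castSucc j.castSucc).val) = h (g j) * (h 1)⁻¹)
    (hlast : (pg g fun i => (B i.castSucc (Fin.last κ)).val) = h 1)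
    (v : Fin (κ + 1) → ZMod E) (hv : v (Fin.last κ) = 1) (t : ℕ) :
    h^[t] (pg g fun i => (v i.castSucc).val) =
      pg g fun i => ((B ^ t).mulVec v i.castSucc).val := by
  have h1 := affine_iter hE h hh g B (fun v => by
    rw [Matrix.mulVec, dotProduct, Finset.sum_eq_single (Fin.last κ)]
    · rw [hrow, if_pos rfl, one_mul]
    · intro j _ hj
      rw [hrow, if_neg hj, zero_mul]
    · intro h
      exact absurd (Finset.mem_univ _) h) (fun j => by
    rw [evg_pg]
    exact hcol j) (by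
    rw [evg_pg]
    exact hlast) v hv t
  rwa [evg_pg, evg_pg] at h1

theorem final {κ E : ℕ} [NeZero E] {G : Type} [inst : Group G] (hc : ∀ x y : G, x * y = y * x)
    (hE : ∀ x : G, x ^ E = 1) (h : G → G) (hh : IsAff h) (g : Fin κ → G)
    (B : Matrix (Fin (κ + 1)) (Fin (κ + 1)) (ZMod E))
    (hrow : ∀ j, B (Fin.last κ) j = if j = Fin.last κ then 1 else 0)
    (hcol : ∀ j : Fin κ, (pg g fun i => (B i.castSucc j.castSucc).val) = h (g j) * (h 1)⁻¹)
    (hlast : (pg g fun i => (B i.castSucc (Fin.last κ)).val) = h 1)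
    (v : Fin (κ + 1) → ZMod E) (hv : v (Fin.last κ) = 1) (t : ℕ) :
    h^[t] (pg g fun i => (v i.castSucc).val) =
      pg g fun i => ((B ^ t).mulVec v i.castSucc).val :=
  @final_comm κ E _ G { inst with mul_comm := hc } hE h hh g B hrow hcol hlast v hv t

/-- the exponents modulo `E` -/
theorem pg_cast {κ E : ℕ} {G : Type} [Group G] (hE : ∀ x : G, x ^ E = 1)
    (g : Fin κ → G) (a : Fin κ → ℕ) : (pg g fun i => ((a i : ℕ) : ZMod E).val) = pg g a := by
  unfold pg
  congr 2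
  funext i
  show g i ^ ((a i : ℕ) : ZMod E).val = g i ^ a i
  rw [ZMod.val_natCast]
  conv_rhs => rw [← Nat.mod_add_div (a i) E, pow_add, pow_mul, hE, one_pow, mul_one]

/-- finite conjunctions -/
theorem dallF {κ : ℕ} : ∀ {n : ℕ} {P : Fin κ → (Fin n → ℕ) → Prop}, (∀ j, Delta0 n (P j)) →
    Delta0 n (fun u => ∀ j, P j u) := by
  induction κ with
  | zero =>
    intro n P _
    exact (Delta0.leFun (DFun.const 0) (DFun.const 0)).of_iff fun u =>
      ⟨fun _ => le_rfl, fun _ i => i.elim0⟩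
  | succ κ ih =>
    intro n P hP
    exact ((hP 0).and (ih fun j => hP j.succ)).of_iff fun u => Fin.forall_fin_succ

variable {r : ℕ} (Γ : GFam r)

theorem pg_def (κ : ℕ) {n : ℕ} {σ : Fin r → (Fin n → ℕ) → ℕ} (hσ : ∀ i, DFun n (σ i))
    {g : ∀ u : Fin n → ℕ, Fin κ → Γ.G (fun i => σ i u)} {a : Fin κ → (Fin n → ℕ) → ℕ}
    (hg : ∀ i, DFun n (fun u => Γ.enc _ (g u i))) (ha : ∀ i, DFun n (a i)) :
    DFun n (fun u => Γ.enc _ (pg (g u) fun i => a i u)) :=
  gprod Γ κ hσ (a := fun u i => g u i ^ a i u) fun i => Γ.gpow hσ (hg i) (ha i)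

section

variable {n : ℕ} {σ : Fin r → (Fin n → ℕ) → ℕ} (h : ∀ u : Fin n → ℕ, Γ.G (fun i => σ i u) →
  Γ.G (fun i => σ i u))

/-- **Iterates of definable affine maps.** -/
theorem aff_iter (κ : ℕ) (hσ : ∀ i, DFun n (σ i))
    (hh : DFun (n + 1) (fun w => Γ.enc _ (h (fun i => w i.succ) (Γ.dec _ (w 0)))))
    {x : ∀ u : Fin n → ℕ, Γ.G (fun i => σ i u)} (hx : DFun n (fun u => Γ.enc _ (x u)))
    {t : (Fin n → ℕ) → ℕ} (ht : DFun n t) :
    DFun n (fun u => Γ.enc _ (if AGood Γ h κ u then (h u)^[t u] (x u) else 1)) := by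
  have hσ1 : ∀ i, DFun (n + 1) (fun w : Fin (n + 1) → ℕ => σ i (fun j => w j.succ)) :=
    fun i => (hσ i).weak
  have hσ2 : ∀ i, DFun (n + 1 + 1) (fun w : Fin (n + 1 + 1) → ℕ =>
    σ i (fun j => w j.succ.succ)) := fun i => (hσ i).weak.weak
  have hρ : ∀ j : Fin n, DFun (n + 1) (fun w : Fin (n + 1) → ℕ => w j.succ) :=
    fun j => DFun.proj _
  obtain ⟨M, hMd⟩ : ∃ M : (Fin n → ℕ) → ℕ, M = fun u => EE1 Γ (fun i => σ i u) := ⟨_, rfl⟩
  have hM : DFun n M := by rw [hMd]; exact (ee1_def Γ).comp hσ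
  -- the generators
  have q1 : Delta0 (n + 1) (fun w => ∀ x, PC (gs Γ κ (fun i => σ i (fun j => w j.succ)) (w 0)) x) := by
    refine Γ.gall hσ1 (A := fun t x => PC (gs Γ κ (fun i => σ i (fun j => t j.succ)) (t 0)) x) ?_
    exact pc_def Γ κ hσ2 (fun i => gs_def Γ κ hσ2 (w := fun t => t (Fin.succ 0))
      (DFun.proj _) i) (Γ.gdec (σ := fun i w => σ i (fun j => w j.succ.succ)) hσ2
        (z := fun w : Fin (n + 1 + 1) → ℕ => w 0) (DFun.proj 0))
  obtain ⟨zg, hzg, pzg⟩ := sel (b := fun u => (Γ.N (fun i => σ i u) + 1) ^ κ)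
    (PTr.DFun.powConst ((Γ.hN.comp hσ).add (DFun.const 1)) κ)
    (Q := fun z u => ∀ x, PC (gs Γ κ (fun i => σ i u) z) x) q1
  obtain ⟨g, hgd⟩ : ∃ g : ∀ u : Fin n → ℕ, Fin κ → Γ.G (fun i => σ i u),
      g = fun u => gs Γ κ (fun i => σ i u) (zg u) := ⟨_, rfl⟩
  have hg : ∀ i, DFun n (fun u => Γ.enc _ (g u i)) := by
    rw [hgd]
    exact fun i => gs_def Γ κ hσ hzg i
  -- the matrix
  let Q2 : ℕ → (Fin n → ℕ) → Prop := fun z u =>
    (∀ j, dm (κ + 1) (M u) z (Fin.last κ) j = if j = Fin.last κ then 1 else 0) ∧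
    (∀ j : Fin κ, (pg (g u) fun i => (dm (κ + 1) (M u) z i.castSucc j.castSucc).val) =
      h u (g u j) * (h u 1)⁻¹) ∧
    (pg (g u) fun i => (dm (κ + 1) (M u) z i.castSucc (Fin.last κ)).val) = h u 1
  have q2 : Delta0 (n + 1) (fun w => Q2 (w 0) (fun i => w i.succ)) := by
    have hd := dm_def (n := κ + 1) (M := fun w : Fin (n + 1) → ℕ => M fun i => w i.succ) hM.weak
      (z := fun w => w 0) (DFun.proj _)
    have hg1 : ∀ i, DFun (n + 1) (fun w : Fin (n + 1) → ℕ =>
        Γ.enc (fun i => σ i fun j => w j.succ) (g (fun j => w j.succ) i)) := fun i => (hg i).weak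
    refine (dallF fun j => ?_).and ((dallF fun j => ?_).and ?_)
    · by_cases hj : j = Fin.last κ
      · have h1 : Delta0 (n + 1) (fun w : Fin (n + 1) → ℕ =>
            (dm (κ + 1) (M fun i => w i.succ) (w 0) (Fin.last κ) j).val =
              1 % (M (fun i => w i.succ) + 1)) :=
          Delta0.eqFun (hd _ _) ((DFun.const 1).mod hM.weak)
        refine h1.of_iff fun w => ?_
        rw [if_pos hj, ← ZMod.val_one_eq_one_mod]
        exact (ZMod.val_injective _).eq_iff.symm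
      · refine (Delta0.eqFun (hd (Fin.last κ) j) (DFun.const 0)).of_iff fun w => ?_
        rw [if_neg hj]
        exact (ZMod.val_eq_zero _).symm
    · exact Γ.geq (pg_def Γ κ hσ1 hg1 fun i => hd _ _) (Γ.gmul hσ1
        (happ Γ h hh hρ (hg1 j)) (Γ.ginv hσ1 (happ Γ h hh hρ (Γ.gone hσ1))))
    · exact Γ.geq (pg_def Γ κ hσ1 hg1 fun i => hd _ _) (happ Γ h hh hρ (Γ.gone hσ1))
  obtain ⟨zB, hzB, pzB⟩ := sel (b := fun u => (M u + 1) ^ ((κ + 1) * (κ + 1)))
    (DFun.powConst (hM.add (DFun.const 1)) _) (Q := Q2) q2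
  have hB := dm_def (n := κ + 1) hM hzB
  -- the exponents
  have q3 : Delta0 (n + 1) (fun w => (pg (g fun j => w j.succ) fun i =>
      w 0 / (M (fun j => w j.succ) + 1) ^ (i : ℕ) % (M (fun j => w j.succ) + 1)) =
        x fun j => w j.succ) := by
    refine Γ.geq (pg_def Γ κ hσ1 (fun i => (hg i).weak) fun i => ?_) hx.weak
    exact DFun.modPos (DFun.divPos (DFun.proj 0) (DFun.powConst (hM.weak.add (DFun.const 1)) _)
      (fun w => pow_pos (Nat.succ_pos _) _)) (hM.weak.add (DFun.const 1)) fun w => Nat.succ_pos _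
  obtain ⟨ze, hze, pze⟩ := sel (b := fun u => (M u + 1) ^ κ)
    (DFun.powConst (hM.add (DFun.const 1)) _)
    (Q := fun z u => (pg (g u) fun i => z / (M u + 1) ^ (i : ℕ) % (M u + 1)) = x u) q3
  -- the coordinates of the result
  let v0 : ∀ u : Fin n → ℕ, Fin (κ + 1) → ZMod (M u + 1) := fun u =>
    Fin.snoc (fun i : Fin κ => ((ze u / (M u + 1) ^ (i : ℕ) : ℕ) : ZMod (M u + 1))) 1
  have hv0 : ∀ j, DFun n (fun u => (v0 u j).val) := by
    intro j
    refine Fin.lastCases ?_ (fun i => ?_) j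
    · refine dfun_congr ((DFun.const 1).mod hM) fun u => ?_
      show (Fin.snoc (α := fun _ => ZMod (M u + 1)) _ _ (Fin.last κ)).val = _
      rw [Fin.snoc_last, ZMod.val_one_eq_one_mod]
    · refine dfun_congr (DFun.modPos (DFun.divPos hze
        (DFun.powConst (hM.add (DFun.const 1)) (i : ℕ))
        (fun w => pow_pos (Nat.succ_pos _) _)) (hM.add (DFun.const 1))
          fun w => Nat.succ_pos _) fun u => ?_
      show (Fin.snoc (α := fun _ => ZMod (M u + 1)) _ _ (Fin.castSucc i)).val = _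
      rw [Fin.snoc_castSucc, ZMod.val_natCast]
  have hBt := mat_pow hM hB ht
  have hc : ∀ i : Fin κ, DFun n (fun u =>
      ((dm (κ + 1) (M u) (zB u) ^ t u).mulVec (v0 u) i.castSucc).val) := by
    intro i
    have h1 : DFun n (fun u => (∑ j, ((dm (κ + 1) (M u) (zB u) ^ t u) i.castSucc j).val *
        (v0 u j).val) % (M u + 1)) :=
      DFun.modPos (DFun.finSum univ fun j => (hBt _ _).mul (hv0 j)) (hM.add (DFun.const 1))
        fun u => Nat.succ_pos _
    refine dfun_congr h1 fun u => ?_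
    rw [← ZMod.val_natCast]
    congr 1
    rw [Matrix.mulVec, dotProduct]
    push_cast
    refine Finset.sum_congr rfl fun l _ => ?_
    rw [ZMod.natCast_zmod_val, ZMod.natCast_zmod_val]
  have hy := pg_def Γ κ hσ hg hc
  refine dfun_congr (DFun.ite (agood_def Γ h κ hσ hh) hy (Γ.gone hσ)) fun u => ?_
  by_cases hgood : AGood Γ h κ u
  swap
  · rw [if_neg hgood, if_neg hgood]
  rw [if_pos hgood, if_pos hgood]
  obtain ⟨⟨hcomm, g', hg'⟩, haff⟩ := hgood
  congr 1
  -- the exponent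
  have hnil : Group.IsNilpotent (Γ.G fun i => σ i u) := ApC.nil_of_comm _ hcomm
  have hMc : M u + 1 = Nat.card (Γ.G fun i => σ i u) := by
    rw [hMd]
    show EE1 Γ (fun i => σ i u) + 1 = _
    unfold EE1
    rw [if_pos hnil]
    exact Nat.sub_add_cancel Nat.card_pos
  have hE : ∀ y : Γ.G (fun i => σ i u), y ^ (M u + 1) = 1 := fun y => by
    rw [hMc]
    exact pow_card_eq_one'
  -- the choices
  have hgen : ∀ y, PC (g u) y := by
    rw [hgd]
    refine (pzg u ?_).2
    obtain ⟨w, hw, hd⟩ := exists_dig κ (b := Γ.N (fun i => σ i u) + 1) (Nat.succ_pos _)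
      (fun i => Γ.enc _ (g' i)) fun i => Nat.lt_succ_of_le (Γ.bd _ _)
    have e : gs Γ κ (fun i => σ i u) w = g' := by
      funext i
      unfold gs
      rw [hd, Γ.dec_enc]
    exact ⟨w, hw.le, by rw [e]; exact hg'⟩
  have hQ2 : Q2 (zB u) u := by
    refine (pzB u ?_).2
    choose a ha using fun j : Fin (κ + 1) => hgen (Fin.lastCases (motive := fun _ => _)
      (h u 1) (fun j => h u (g u j) * (h u 1)⁻¹) j)
    obtain ⟨z, hz, hzd⟩ := dm_surj (M u) (Matrix.of fun i j =>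
      Fin.lastCases (motive := fun _ => ZMod (M u + 1)) (if j = Fin.last κ then 1 else 0)
        (fun i => ((a j i : ℕ) : ZMod (M u + 1))) i :
          Matrix (Fin (κ + 1)) (Fin (κ + 1)) (ZMod (M u + 1)))
    refine ⟨z, hz, fun j => ?_, fun j => ?_, ?_⟩
    · rw [hzd, Matrix.of_apply, Fin.lastCases_last]
    · have h1 := ha j.castSucc
      rw [Fin.lastCases_castSucc] at h1
      rw [← h1, hzd]
      simp only [Matrix.of_apply, Fin.lastCases_castSucc]
      exact pg_cast hE _ _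
    · have h1 := ha (Fin.last κ)
      rw [Fin.lastCases_last] at h1
      conv_rhs => rw [← h1]
      rw [hzd]
      simp only [Matrix.of_apply, Fin.lastCases_castSucc]
      exact pg_cast hE _ _
  have hQ3 : (pg (g u) fun i => ze u / (M u + 1) ^ (i : ℕ) % (M u + 1)) = x u := by
    refine (pze u ?_).2
    obtain ⟨a, ha⟩ := hgen (x u)
    obtain ⟨w, hw, hd⟩ := exists_dig κ (b := M u + 1) (Nat.succ_pos _)
      (fun i => a i % (M u + 1)) fun i => Nat.mod_lt _ (Nat.succ_pos _)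
    refine ⟨w, hw.le, ?_⟩
    simp only [hd]
    have h1 := pg_cast hE (g u) a
    simp only [ZMod.val_natCast] at h1
    rw [h1]
    exact ha
  obtain ⟨h1, h2, h3⟩ := hQ2
  have h4 := final hcomm hE (h u) haff (g u) (dm (κ + 1) (M u) (zB u)) h1 h2 h3 (v0 u)
    (Fin.snoc_last (α := fun _ => ZMod (M u + 1)) _ _) (t u)
  have h5 : (pg (g u) fun i => (v0 u i.castSucc).val) = x u := by
    rw [← hQ3]
    congr 1
    funext i
    show (Fin.snoc (α := fun _ => ZMod (M u + 1)) _ _ (Fin.castSucc i)).val = _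
    rw [Fin.snoc_castSucc, ZMod.val_natCast]
  rw [h5] at h4
  exact h4

end

end Pool.Agent.H70G
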