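import Pool.Agent.H70G.TameCard

/-!
# Isomorphic groups
-/

set_option autoImplicit false

namespace Pool.Agent.H70G

theorem pc_map {k : ℕ} {G H : Type} [Group G] [Group H] (f : G ≃* H) (g : Fin k → G) (x : G) :
    PC g x ↔ PC (fun i => f (g i)) (f x) := by
  unfold PC
  refine exists_congr fun e => ?_
  have h : f (List.ofFn fun i => g i ^ e i).prod = (List.ofFn fun i => f (g i) ^ e i).prod := by
    rw [map_list_prod, List.map_ofFn]
    congr 2
    funext i
    exact map_pow f _ _
  rw [← h]
  exact f.injective.eq_iff.symm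

theorem Tame.congr {k : ℕ} {G H : Type} [Group G] [Group H] [Finite G] (f : G ≃* H)
    (h : Tame k G) : Tame k H := by
  intro l hl
  have hF : Fact l.Prime := ⟨hl⟩
  obtain ⟨P, hP⟩ := h l hl
  have hs : Function.Surjective f.toMonoidHom := f.surjective
  refine ⟨P.mapSurjective hs, ?_⟩
  have hmem : ∀ x, x ∈ P.mapSurjective hs ↔ f.symm x ∈ P := by
    intro x
    constructor
    · rintro ⟨y, hy, rfl⟩
      have e : f.symm (f.toMonoidHom y) = y := f.symm_apply_apply y
      rw [e]
      exact hy
    · intro hx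
      exact ⟨f.symm x, hx, f.apply_symm_apply x⟩
  rcases hP with hP | ⟨g, hg⟩
  · left
    exact hP.map f.toMonoidHom hs
  · right
    refine ⟨fun i => f (g i), fun x => ?_⟩
    rw [hmem, hg, pc_map f, f.apply_symm_apply]

theorem tame_congr {k : ℕ} {G H : Type} [Group G] [Group H] [Finite G] (f : G ≃* H) :
    Tame k G ↔ Tame k H := by
  have : Finite H := Finite.of_equiv G f.toEquiv
  exact ⟨Tame.congr f, Tame.congr f.symm⟩

end Pool.Agent.H70G
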