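import Pool.Agent.H70G.Enc
import Pool.Agent.H70G.TameIso

/-!
# Arithmetic in families of groups over prime fields
-/

set_option autoImplicit false

noncomputable section

namespace Pool.Agent.H70G

open Pool.Agent.PRc Pool.Agent.Grz Pool.Agent.ECD Pool.Agent.Cov Pool.Agent.PTr Pool.Agent.GOr
open scoped Classical

variable {r D e : ℕ} {Φ : Cd r D e}

/-- the group `G` is presented by the data at `v` -/
structure Cd.Rep (Φ : Cd r D e) (v : Fin r → ℕ) (G : Type) [Group G]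
    (cls : (Fin D → ZMod (Φ.p v)) → G) : Prop where
  ok : Φ.ok v
  onto : ∀ g, ∃ x, Φ.X v (fun i => (x i).val) ∧ cls x = g
  law : ∀ x y, Φ.X v (fun i => (x i).val) → Φ.X v (fun i => (y i).val) →
    Φ.X v (fun i => (Φ.FF v x y i).val) ∧ cls (Φ.FF v x y) = cls x * cls y
  eq : ∀ x y, Φ.X v (fun i => (x i).val) → Φ.X v (fun i => (y i).val) →
    (Φ.E v (fun i => (x i).val) (fun i => (y i).val) ↔ cls x = cls y)

theorem Cd.Rep.ee {v : Fin r → ℕ} {G : Type} [Group G] {cls : (Fin D → ZMod (Φ.p v)) → G}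
    (h : Φ.Rep v G cls) (x : Fin D → ZMod (Φ.p v)) :
    Φ.EE v x x ↔ Φ.X v (fun i => (x i).val) :=
  ⟨fun h1 => h1.1, fun h1 => ⟨h1, h1, (h.eq x x h1 h1).2 rfl⟩⟩

theorem Cd.Rep.iso {v : Fin r → ℕ} {G : Type} [Group G] {cls : (Fin D → ZMod (Φ.p v)) → G}
    (h : Φ.Rep v G cls) : ∃ hg : Φ.Good v, ∃ f : (⟨v, hg⟩ : Pt Φ).G ≃* G,
      ∀ x, Φ.EE v x x → f ((⟨v, hg⟩ : Pt Φ).cd x) = cls x := by
  have h1 : ∀ g, ∃ x, Φ.EE v x x ∧ cls x = g := fun g => by
    obtain ⟨x, hx, e⟩ := h.onto g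
    exact ⟨x, (h.ee x).2 hx, e⟩
  have h2 : ∀ x y, Φ.EE v x x → Φ.EE v y y → Φ.EE v (Φ.FF v x y) (Φ.FF v x y) ∧
      cls (Φ.FF v x y) = cls x * cls y := fun x y hx hy => by
    obtain ⟨h3, h4⟩ := h.law x y ((h.ee x).1 hx) ((h.ee y).1 hy)
    exact ⟨(h.ee _).2 h3, h4⟩
  have h3 : ∀ x y, Φ.EE v x y ↔ Φ.EE v x x ∧ Φ.EE v y y ∧ cls x = cls y := fun x y => by
    constructor
    · intro h'
      exact ⟨(h.ee x).2 h'.1, (h.ee y).2 h'.2.1, (h.eq x y h'.1 h'.2.1).1 h'.2.2⟩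
    · rintro ⟨hx, hy, e⟩
      exact ⟨hx.1, hy.1, (h.eq x y hx.1 hy.1).2 e⟩
  have hr := prel_of cls h1 h2 h3
  have hg : Φ.Good v := ⟨h.ok, hr, fun x hx => (h.ee x).2 hx⟩
  obtain ⟨f, hf⟩ := hr.iso cls h1 h2 h3
  refine ⟨hg, f, fun x hx => ?_⟩
  rw [← hf x hx]
  exact congrArg f (dif_pos hx)

theorem Pt.rep (x : Pt Φ) : Φ.Rep x.v x.G x.cd where
  ok := x.good.1
  onto g := by
    obtain ⟨u, hu, rfl⟩ := x.rel.ind g
    exact ⟨u, hu.1, dif_pos hu⟩
  law u w hu hw := ⟨(x.rel.mem (x.good.2.2 u hu) (x.good.2.2 w hw)).1,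
    x.cd_mul (x.good.2.2 u hu) (x.good.2.2 w hw)⟩
  eq u w hu hw := by
    rw [x.cd_iff (x.good.2.2 u hu) (x.good.2.2 w hw)]
    exact ⟨fun h => ⟨hu, hw, h⟩, fun h => h.2.2⟩

/-- transport to the family -/
theorem rep_key (x₀ : Pt Φ) {v : Fin r → ℕ} {G : Type} [Group G]
    {cls : (Fin D → ZMod (Φ.p v)) → G} (h : Φ.Rep v G cls) :
    Φ.Good v ∧ (pt x₀ v).p = Φ.p v ∧ ∃ f : (pt x₀ v).G ≃* G, ∀ y : Fin D → ℕ,
      (Φ.EE (pt x₀ v).v (fun i => (y i : ZMod (pt x₀ v).p)) (fun i => (y i : ZMod (pt x₀ v).p)) ↔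
        Φ.EE v (fun i => (y i : ZMod (Φ.p v))) (fun i => (y i : ZMod (Φ.p v)))) ∧
      (Φ.EE v (fun i => (y i : ZMod (Φ.p v))) (fun i => (y i : ZMod (Φ.p v))) →
        f ((pt x₀ v).cn y) = cls fun i => (y i : ZMod (Φ.p v))) := by
  obtain ⟨hg, f, hf⟩ := h.iso
  have e : pt x₀ v = ⟨v, hg⟩ := dif_pos hg
  rw [e]
  exact ⟨hg, rfl, f, fun y => ⟨Iff.rfl, hf _⟩⟩

theorem val_cast {p D : ℕ} (y : Fin D → ℕ) (hy : ∀ i, y i < p) :
    (fun i => ((y i : ℕ) : ZMod p).val) = y := by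
  funext i
  rw [ZMod.val_natCast, Nat.mod_eq_of_lt (hy i)]

/-- **Arithmetic in families of groups over prime fields.** -/
theorem Cd.main (Φ : Cd r D e) (κ : ℕ) :
    ∃ (N : (Fin r → ℕ) → ℕ) (O : (Fin r → ℕ) → (Fin D → ℕ) → ℕ)
      (W : (Fin r → ℕ) → (Fin D → ℕ) → ℕ → ℕ → Fin D → ℕ),
      DFun r N ∧
      (∀ {m : ℕ} {σ : Fin r → (Fin m → ℕ) → ℕ} {y : Fin D → (Fin m → ℕ) → ℕ},
        (∀ i, DFun m (σ i)) → (∀ i, DFun m (y i)) →
        DFun m (fun u => O (fun i => σ i u) fun i => y i u)) ∧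
      (∀ {m : ℕ} {σ : Fin r → (Fin m → ℕ) → ℕ} {y : Fin D → (Fin m → ℕ) → ℕ}
        {a t : (Fin m → ℕ) → ℕ}, (∀ i, DFun m (σ i)) → (∀ i, DFun m (y i)) → DFun m a →
        DFun m t → ∀ i, DFun m (fun u => W (fun i => σ i u) (fun i => y i u) (a u) (t u) i)) ∧
      (∀ (v : Fin r → ℕ) (G : Type) [Group G] (cls : (Fin D → ZMod (Φ.p v)) → G),
        Φ.Rep v G cls →
        (∀ y : Fin D → ℕ, (∀ i, y i < Φ.p v) → Φ.X v y →
          O v y = orderOf (cls fun i => (y i : ZMod (Φ.p v))) ∧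
          ∀ a t, (∀ i, W v y a t i < Φ.p v) ∧ Φ.X v (W v y a t) ∧
            (cls fun i => (W v y a t i : ZMod (Φ.p v))) =
              (cls fun i => (y i : ZMod (Φ.p v))) ^ (a ^ t)) ∧
        (Tame κ G → N v = Nat.card G)) ∧
      (∀ v : Fin r → ℕ, (¬ ∃ (G : Type) (_ : Group G) (cls : (Fin D → ZMod (Φ.p v)) → G),
        Φ.Rep v G cls ∧ Tame κ G) → N v = 0) ∧
      (∀ {m : ℕ} {σ : Fin r → (Fin m → ℕ) → ℕ} {P : Fin D → (Fin (m + 1) → ℕ) → ℕ}
        {l M : (Fin m → ℕ) → ℕ}, (∀ i, DFun m (σ i)) → (∀ i, DFun (m + 1) (P i)) → DFun m l →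
        DFun m M → (∀ u, l u ≤ Nat.log 2 (M u) + 1) → ∃ Z : Fin D → (Fin m → ℕ) → ℕ,
        (∀ i, DFun m (Z i)) ∧
        ∀ (u : Fin m → ℕ) (G : Type) [Group G]
          (cls : (Fin D → ZMod (Φ.p fun i => σ i u)) → G), Φ.Rep (fun i => σ i u) G cls →
          (∀ j, j < l u → (∀ i, P i (Fin.cons j u) < Φ.p fun i => σ i u) ∧
            Φ.X (fun i => σ i u) (fun i => P i (Fin.cons j u))) →
          (∀ i, Z i u < Φ.p fun i => σ i u) ∧ Φ.X (fun i => σ i u) (fun i => Z i u) ∧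
            (cls fun i => (Z i u : ZMod (Φ.p fun i => σ i u))) =
              ((List.range (l u)).map fun j =>
                cls fun i => (P i (Fin.cons j u) : ZMod (Φ.p fun i => σ i u))).prod) ∧
      Delta0 r Φ.Good := by
  by_cases hne : ∃ v, Φ.Good v
  swap
  · have hno : ∀ (v : Fin r → ℕ) (G : Type) [Group G] (cls : (Fin D → ZMod (Φ.p v)) → G),
        ¬ Φ.Rep v G cls := fun v G _ cls h => hne ⟨v, h.iso.choose⟩
    refine ⟨fun _ => 0, fun _ _ => 0, fun _ _ _ _ _ => 0, DFun.const 0, ?_, ?_, ?_, ?_, ?_,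
      Φ.good_def⟩
    · intro m σ y _ _
      exact DFun.const 0
    · intro m σ y a t _ _ _ _ _
      exact DFun.const 0
    · intro v G _ cls h
      exact absurd h (hno v G cls)
    · intro v _
      rfl
    · intro m σ P l M _ _ _ _ _
      exact ⟨fun _ _ => 0, fun _ => DFun.const 0, fun u G _ cls h => absurd h (hno _ G cls)⟩
  obtain ⟨v₀, h₀⟩ := hne
  obtain ⟨τ, T, L, hL⟩ := law_of_prf (d := D + 1) (e := e) (G := LF Φ.F) (LF_pr Φ.hF)
  set x₀ : Pt Φ := ⟨v₀, h₀⟩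
  set Γ := gf x₀ hL with hΓ
  refine ⟨fun v => if Φ.Good v then (if Tame κ (Γ.G v) then Nat.card (Γ.G v) else 0)
      else 0, fun v y => orderOf ((pt x₀ v).cn y),
    fun v y a t => (pt x₀ v).rn (Γ.enc v ((pt x₀ v).cn y ^ (a ^ t))), ?_, ?_, ?_, ?_, ?_, ?_,
      Φ.good_def⟩
  · exact DFun.ite Φ.good_def (card_tame Γ κ) (DFun.const 0)
  · intro m σ y hσ hy
    exact Γ.gord hσ (g := fun u => (pt x₀ fun j => σ j u).cn fun i => y i u)
      (cn_def x₀ hL hσ hy)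
  · intro m σ y a t hσ hy ha ht i
    exact rn_def x₀ hσ (Γ.gpp hσ (g := fun u => (pt x₀ fun j => σ j u).cn fun i => y i u)
      (cn_def x₀ hL hσ hy) ha ht) i
  · intro v G _ cls h
    obtain ⟨hg, hp, f, hf⟩ := rep_key x₀ h
    refine ⟨fun y hy hX => ?_, fun hn => ?_⟩
    · have hE : Φ.EE v (fun i => (y i : ZMod (Φ.p v))) (fun i => (y i : ZMod (Φ.p v))) := by
        rw [h.ee, val_cast y hy]
        exact hX
      refine ⟨?_, fun a t => ?_⟩
      · rw [← (hf y).2 hE]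
        exact (MulEquiv.orderOf_eq f _).symm
      · obtain ⟨h1, h2⟩ := rn_enc x₀ hL v ((pt x₀ v).cn y ^ (a ^ t))
        have h3 : ∀ i, (pt x₀ v).rn (Γ.enc v ((pt x₀ v).cn y ^ (a ^ t))) i < Φ.p v := by
          intro i
          rw [← hp]
          exact Pt.rn_lt _ _ i
        have h4 := (hf _).1.1 h1
        refine ⟨h3, ?_, ?_⟩
        · have h5 := h4.1
          rwa [val_cast _ h3] at h5
        · rw [← (hf _).2 h4, ← (hf y).2 hE, ← map_pow]
          exact congrArg f h2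
    · beta_reduce
      have e1 : Tame κ (Γ.G v) := by
        have hfin : Finite (pt x₀ v).G := Γ.finite v
        exact (tame_congr f).2 hn
      rw [if_pos hg, if_pos e1]
      exact Nat.card_congr f.toEquiv
  · intro v hv
    beta_reduce
    by_cases hg : Φ.Good v
    · rw [if_pos hg]
      refine if_neg fun hn => hv ?_
      have e : pt x₀ v = ⟨v, hg⟩ := dif_pos hg
      have hn' : Tame κ (pt x₀ v).G := hn
      rw [e] at hn'
      exact ⟨_, inferInstance, _, Pt.rep ⟨v, hg⟩, hn'⟩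
    · rw [if_neg hg]
  · intro m σ P l M hσ hP hl hM hlM
    have hσ1 : ∀ i, DFun (m + 1) (fun w : Fin (m + 1) → ℕ => σ i (fun j => w j.succ)) :=
      fun i => (hσ i).weak
    have h1 := Γ.prod1 (σ := σ)
      (P := fun u j => (pt x₀ fun j => σ j u).cn fun i => P i (Fin.cons j u)) hσ (by
        have h2 := cn_def x₀ hL hσ1 hP
        have e : (fun w : Fin (m + 1) → ℕ => (gf x₀ hL).enc (fun j => σ j fun i => w i.succ)
            ((pt x₀ fun j => σ j fun i => w i.succ).cn fun i => P i w)) =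
            fun w : Fin (m + 1) → ℕ => (gf x₀ hL).enc (fun j => σ j fun i => w i.succ)
            ((pt x₀ fun j => σ j fun i => w i.succ).cn fun i =>
              P i (Fin.cons (w 0) fun i => w i.succ)) := by
          funext w
          have e : (Fin.cons (w 0) (fun i => w i.succ) : Fin (m + 1) → ℕ) = w :=
            Fin.cons_self_tail w
          rw [e]
        rw [e] at h2
        exact h2) hl hM hlM
    refine ⟨fun i u => (pt x₀ fun j => σ j u).rn (Γ.enc (fun j => σ j u)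
      ((List.range (l u)).map fun j => (pt x₀ fun j => σ j u).cn fun i =>
        P i (Fin.cons j u)).prod) i, fun i => rn_def x₀ hσ h1 i, ?_⟩
    intro u G _ cls h hu
    obtain ⟨hg, hp, f, hf⟩ := rep_key x₀ h
    obtain ⟨h2, h3⟩ := rn_enc x₀ hL (fun j => σ j u) ((List.range (l u)).map fun j =>
      (pt x₀ fun j => σ j u).cn fun i => P i (Fin.cons j u)).prod
    have h4 : ∀ i, (pt x₀ fun j => σ j u).rn (Γ.enc (fun j => σ j u)
        ((List.range (l u)).map fun j => (pt x₀ fun j => σ j u).cn fun i =>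
        P i (Fin.cons j u)).prod) i < Φ.p fun i => σ i u := by
      intro i
      rw [← hp]
      exact Pt.rn_lt _ _ i
    have h5 := (hf _).1.1 h2
    refine ⟨h4, ?_, ?_⟩
    · have h6 := h5.1
      rwa [val_cast _ h4] at h6
    · rw [← (hf _).2 h5]
      refine (congrArg f h3).trans ?_
      rw [map_list_prod, List.map_map]
      congr 1
      refine List.map_congr_left fun j hj => ?_
      obtain ⟨h6, h7⟩ := hu j (List.mem_range.1 hj)
      refine (hf _).2 ?_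
      rw [h.ee, val_cast _ h6]
      exact h7

end Pool.Agent.H70G
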