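import Pool.Agent.H70G.Base
import Pool.Agent.H70G.AffIter

/-!
# Iterates of definable affine maps in families of groups over prime fields
-/

set_option autoImplicit false

noncomputable section

namespace Pool.Agent.H70G

open Pool.Agent.PRc Pool.Agent.Grz Pool.Agent.ECD Pool.Agent.Cov Pool.Agent.PTr Pool.Agent.GOr
open scoped Classical

variable {r D e : ℕ} {Φ : Cd r D e}

theorem Cd.iter (Φ : Cd r D e) (κ : ℕ) {m : ℕ} {σ : Fin r → (Fin m → ℕ) → ℕ}
    {H : Fin D → (Fin m → ℕ) → (Fin D → ℕ) → ℕ} {x : Fin D → (Fin m → ℕ) → ℕ}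
    {t : (Fin m → ℕ) → ℕ} (hσ : ∀ i, DFun m (σ i))
    (hH : ∀ i {m' : ℕ} {ρ : Fin m → (Fin m' → ℕ) → ℕ} {y : Fin D → (Fin m' → ℕ) → ℕ},
      (∀ i, DFun m' (ρ i)) → (∀ i, DFun m' (y i)) →
      DFun m' (fun w => H i (fun j => ρ j w) fun j => y j w))
    (hx : ∀ i, DFun m (x i)) (ht : DFun m t) : ∃ Z : Fin D → (Fin m → ℕ) → ℕ,
      (∀ i, DFun m (Z i)) ∧
      ∀ (u : Fin m → ℕ) (G : Type) [Group G] (cls : (Fin D → ZMod (Φ.p fun i => σ i u)) → G),
        Φ.Rep (fun i => σ i u) G cls → AbGen κ G → ∀ h : G → G, IsAff h →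
        (∀ y : Fin D → ℕ, (∀ i, y i < Φ.p fun i => σ i u) → Φ.X (fun i => σ i u) y →
          (∀ i, H i u y < Φ.p fun i => σ i u) ∧ Φ.X (fun i => σ i u) (fun i => H i u y) ∧
          (cls fun i => (H i u y : ZMod (Φ.p fun i => σ i u))) =
            h (cls fun i => (y i : ZMod (Φ.p fun i => σ i u)))) →
        (∀ i, x i u < Φ.p fun i => σ i u) → Φ.X (fun i => σ i u) (fun i => x i u) →
        (∀ i, Z i u < Φ.p fun i => σ i u) ∧ Φ.X (fun i => σ i u) (fun i => Z i u) ∧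
          (cls fun i => (Z i u : ZMod (Φ.p fun i => σ i u))) =
            h^[t u] (cls fun i => (x i u : ZMod (Φ.p fun i => σ i u))) := by
  by_cases hne : ∃ v, Φ.Good v
  swap
  · exact ⟨fun _ _ => 0, fun _ => DFun.const 0,
      fun u G _ cls h => absurd ⟨_, h.iso.choose⟩ hne⟩
  obtain ⟨v₀, h₀⟩ := hne
  obtain ⟨τ, T, L, hL⟩ := law_of_prf (d := D + 1) (e := e) (G := LF Φ.F) (LF_pr Φ.hF)
  set x₀ : Pt Φ := ⟨v₀, h₀⟩
  set Γ := gf x₀ hL with hΓ
  have hσ1 : ∀ i, DFun (m + 1) (fun w : Fin (m + 1) → ℕ => σ i (fun j => w j.succ)) :=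
    fun i => (hσ i).weak
  let hh : ∀ u : Fin m → ℕ, Γ.G (fun i => σ i u) → Γ.G (fun i => σ i u) := fun u g =>
    (pt x₀ fun j => σ j u).cn fun i => H i u ((pt x₀ fun j => σ j u).rn (Γ.enc _ g))
  have hhd : DFun (m + 1) (fun w => Γ.enc _ (hh (fun i => w i.succ) (Γ.dec _ (w 0)))) := by
    refine cn_def x₀ hL hσ1 fun i => ?_
    refine hH i (fun j => DFun.proj _) fun j => ?_
    exact rn_def x₀ hσ1 (Γ.gdec (σ := fun i w => σ i (fun j => w j.succ)) hσ1
      (z := fun w : Fin (m + 1) → ℕ => w 0) (DFun.proj 0)) j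
  have key := aff_iter Γ hh κ hσ hhd (x := fun u => (pt x₀ fun j => σ j u).cn fun i => x i u)
    (cn_def x₀ hL hσ hx) ht
  refine ⟨fun i u => (pt x₀ fun j => σ j u).rn (Γ.enc (fun i => σ i u)
    (if AGood Γ hh κ u then (hh u)^[t u] ((pt x₀ fun j => σ j u).cn fun i => x i u) else 1)) i,
    fun i => rn_def x₀ hσ key i, ?_⟩
  intro u G _ cls hR hA h hh' hHh hxl hxX
  obtain ⟨hg, hp, f, hf⟩ := rep_key x₀ hR
  have hfin : Finite (pt x₀ fun i => σ i u).G := Γ.finite _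
  -- the map in the family
  have hrep : ∀ g : (pt x₀ fun i => σ i u).G,
      (∀ i, (pt x₀ fun j => σ j u).rn (Γ.enc (fun i => σ i u) g) i < Φ.p fun i => σ i u) ∧
      Φ.X (fun i => σ i u) ((pt x₀ fun j => σ j u).rn (Γ.enc (fun i => σ i u) g)) ∧
      (cls fun i => (((pt x₀ fun j => σ j u).rn (Γ.enc (fun i => σ i u) g) i : ℕ) :
        ZMod (Φ.p fun i => σ i u))) = f g := by
    intro g
    obtain ⟨h1, h2⟩ := rn_enc x₀ hL (fun i => σ i u) g
    have h3 : ∀ i, (pt x₀ fun j => σ j u).rn (Γ.enc (fun i => σ i u) g) i <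
        Φ.p fun i => σ i u := by
      intro i
      rw [← hp]
      exact Pt.rn_lt _ _ i
    have h4 := (hf _).1.1 h1
    refine ⟨h3, ?_, ?_⟩
    · have h5 := h4.1
      rwa [val_cast _ h3] at h5
    · rw [← (hf _).2 h4]
      exact congrArg f h2
  have hcn : ∀ y : Fin D → ℕ, (∀ i, y i < Φ.p fun i => σ i u) → Φ.X (fun i => σ i u) y →
      f ((pt x₀ fun i => σ i u).cn y) = cls fun i => (y i : ZMod (Φ.p fun i => σ i u)) := by
    intro y hy hX
    refine (hf y).2 ?_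
    rw [hR.ee, val_cast y hy]
    exact hX
  have hhf : ∀ g, f (hh u g) = h (f g) := by
    intro g
    obtain ⟨h1, h2, h3⟩ := hrep g
    obtain ⟨h4, h5, h6⟩ := hHh _ h1 h2
    rw [← h3, ← h6]
    exact hcn _ h4 h5
  have hgood : AGood Γ hh κ u := by
    refine ⟨⟨fun a b => ?_, ?_⟩, fun a b => ?_⟩
    · refine f.injective ?_
      exact (f.map_mul a b).trans ((hA.1 _ _).trans (f.map_mul b a).symm)
    · obtain ⟨g, hg⟩ := hA.2
      refine ⟨fun i => f.symm (g i), fun a => ?_⟩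
      have h1 := (pc_map f.symm g (f a)).1 (hg _)
      have e5 : f.symm (f a) = a := f.symm_apply_apply a
      exact (congrArg (PC (G := (pt x₀ fun i => σ i u).G) fun i => f.symm (g i)) e5).mp h1
    · refine f.injective ?_
      have e1 : f (hh u (a * b) * hh u 1) = f (hh u (a * b)) * f (hh u 1) := f.map_mul _ _
      have e2 : f (hh u a * hh u b) = f (hh u a) * f (hh u b) := f.map_mul _ _
      have e3 : f (a * b) = f a * f b := f.map_mul _ _
      have e4 : f (1 : Γ.G fun i => σ i u) = 1 := f.map_one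
      rw [e1, e2, hhf, hhf, hhf, hhf, e3, e4]
      exact hh' _ _
  have hit : ∀ (s : ℕ) (g), f ((hh u)^[s] g) = h^[s] (f g) := by
    intro s
    induction s with
    | zero => intro g; rfl
    | succ s ih =>
      intro g
      rw [Function.iterate_succ_apply, Function.iterate_succ_apply, ih, hhf]
  have e6 : (if AGood Γ hh κ u then
      (hh u)^[t u] ((pt x₀ fun j => σ j u).cn fun i => x i u) else (1 : Γ.G fun i => σ i u)) =
      (hh u)^[t u] ((pt x₀ fun j => σ j u).cn fun i => x i u) := if_pos hgood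
  obtain ⟨h1, h2, h3⟩ := hrep (if AGood Γ hh κ u then
    (hh u)^[t u] ((pt x₀ fun j => σ j u).cn fun i => x i u) else (1 : Γ.G fun i => σ i u))
  refine ⟨h1, h2, h3.trans ((congrArg f e6).trans ((hit _ _).trans ?_))⟩
  rw [hcn _ hxl hxX]

end Pool.Agent.H70G
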