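import Pool.Agent.H70G.Nil
import Pool.Agent.ApC.Final

/-!
# Nilpotency is definable in families of groups with definable products
-/

set_option autoImplicit false

namespace Pool.Agent.H70G

open Finset Pool.Agent.Grz Pool.Agent.GAvg Pool.Agent.PTr Pool.Agent.MTr Pool.Agent.LPC
  Pool.Agent.ECD

open scoped Classical in
/-- the function `l ^ log_l B` -/
private noncomputable def lam (l B : ℕ) : ℕ := if l.Prime ∧ 1 ≤ B then l ^ Nat.log l B else 1

private theorem lam_def {n : ℕ} {l y : (Fin n → ℕ) → ℕ} (hl : DFun n l) (hy : DFun n y) :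
    DFun n (fun v => lam (l v) (y v)) := by
  have h := ApC.log_def hl hy
  unfold lam
  exact h

/-- **Nilpotency is definable.** -/
theorem nil_def {r : ℕ} (Φ : GFam r) : Delta0 r (fun v => Group.IsNilpotent (Φ.G v)) := by
  have hB : DFun r (fun v => Φ.N v + 1) := Φ.hN.add (DFun.const 1)
  have hσ1 : ∀ i : Fin r, DFun (r + 1) (fun w : Fin (r + 1) → ℕ => w i.succ) :=
    fun i => DFun.proj _
  have hσ2 : ∀ i : Fin r, DFun (r + 1 + 1) (fun w : Fin (r + 1 + 1) → ℕ => w i.succ.succ) :=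
    fun i => DFun.proj _
  have hσ3 : ∀ i : Fin r, DFun (r + 1 + 1 + 1)
      (fun w : Fin (r + 1 + 1 + 1) → ℕ => w i.succ.succ.succ) := fun i => DFun.proj _
  have hl3 : DFun (r + 1 + 1 + 1) (fun w => lam (w 2) (Φ.N (fun i => w i.succ.succ.succ) + 1)) :=
    lam_def (DFun.proj _) ((Φ.hN.comp hσ3).add (DFun.const 1))
  have g3 := Φ.gdec (σ := fun i w => w i.succ.succ.succ) hσ3
    (z := fun w : Fin (r + 1 + 1 + 1) → ℕ => w 1) (DFun.proj 1)
  have h3 := Φ.gdec (σ := fun i w => w i.succ.succ.succ) hσ3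
    (z := fun w : Fin (r + 1 + 1 + 1) → ℕ => w 0) (DFun.proj 0)
  have o3 := Φ.gone (σ := fun i w => w i.succ.succ.succ) hσ3
  have e1 := Φ.geq (Φ.gpow hσ3 g3 hl3) o3
  have e2 := Φ.geq (Φ.gpow hσ3 h3 hl3) o3
  have e3 := Φ.geq (Φ.gpow hσ3 (Φ.gmul hσ3 g3 h3) hl3) o3
  have a2 : Delta0 (r + 1 + 1) (fun w => ∀ h : Φ.G (fun i => w i.succ.succ),
      Φ.dec (fun i => w i.succ.succ) (w 0) ^ lam (w 1) (Φ.N (fun i => w i.succ.succ) + 1) = 1 →
      h ^ lam (w 1) (Φ.N (fun i => w i.succ.succ) + 1) = 1 →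
      (Φ.dec (fun i => w i.succ.succ) (w 0) * h) ^
        lam (w 1) (Φ.N (fun i => w i.succ.succ) + 1) = 1) :=
    Φ.gall (n := r + 1 + 1) (σ := fun i w => w i.succ.succ) hσ2
      (A := fun w h =>
      Φ.dec (fun i => w i.succ.succ) (w 0) ^ lam (w 1) (Φ.N (fun i => w i.succ.succ) + 1) = 1 →
      h ^ lam (w 1) (Φ.N (fun i => w i.succ.succ) + 1) = 1 →
      (Φ.dec (fun i => w i.succ.succ) (w 0) * h) ^
        lam (w 1) (Φ.N (fun i => w i.succ.succ) + 1) = 1) (e1.imp (e2.imp e3))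
  have a1 : Delta0 (r + 1) (fun w => ∀ g h : Φ.G (fun i => w i.succ),
      g ^ lam (w 0) (Φ.N (fun i => w i.succ) + 1) = 1 →
      h ^ lam (w 0) (Φ.N (fun i => w i.succ) + 1) = 1 →
      (g * h) ^ lam (w 0) (Φ.N (fun i => w i.succ) + 1) = 1) :=
    Φ.gall (n := r + 1) (σ := fun i w => w i.succ) hσ1
      (A := fun w g => ∀ h : Φ.G (fun i => w i.succ),
      g ^ lam (w 0) (Φ.N (fun i => w i.succ) + 1) = 1 →
      h ^ lam (w 0) (Φ.N (fun i => w i.succ) + 1) = 1 →
      (g * h) ^ lam (w 0) (Φ.N (fun i => w i.succ) + 1) = 1) a2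
  have a0 : Delta0 r (fun v => ∀ l, l ≤ Φ.N v + 1 → (l.Prime → ∀ g h : Φ.G v,
      g ^ lam l (Φ.N v + 1) = 1 → h ^ lam l (Φ.N v + 1) = 1 →
      (g * h) ^ lam l (Φ.N v + 1) = 1)) :=
    Delta0.ballFun (P := fun l v => l.Prime → ∀ g h : Φ.G v,
      g ^ lam l (Φ.N v + 1) = 1 → h ^ lam l (Φ.N v + 1) = 1 →
      (g * h) ^ lam l (Φ.N v + 1) = 1) hB ((delta_prime (DFun.proj 0)).imp a1)
  refine a0.of_iff fun v => ?_
  rw [nil_iff (Φ.card_le v)]
  refine forall_congr' fun l => forall_congr' fun _ => forall_congr' fun hl => ?_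
  have e : lam l (Φ.N v + 1) = l ^ Nat.log l (Φ.N v + 1) := if_pos ⟨hl, by omega⟩
  rw [e]

open scoped Classical in
/-- **The function that is the order of the group if the group is nilpotent, and `0` if not.** -/
theorem card_nilp {r : ℕ} (Φ : GFam r) :
    DFun r (fun v => if Group.IsNilpotent (Φ.G v) then Nat.card (Φ.G v) else 0) := by
  have hσ : ∀ i : Fin r, DFun r (fun v : Fin r → ℕ => v i) := fun i => DFun.proj i
  have h1 : Delta0 (r + 1) (fun w => Φ.dec (fun i => w i.succ) (w 0) ∈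
      (fun v : Fin r → ℕ => if Group.IsNilpotent (Φ.G v) then (⊤ : Subgroup (Φ.G v)) else ⊥)
        (fun j => w j.succ)) := by
    have hσ1 : ∀ i : Fin r, DFun (r + 1) (fun w : Fin (r + 1) → ℕ => w i.succ) :=
      fun i => DFun.proj _
    have e := Φ.geq (Φ.gdec (σ := fun i w => w i.succ) hσ1
      (z := fun w : Fin (r + 1) → ℕ => w 0) (DFun.proj 0)) (Φ.gone hσ1)
    refine (((nil_def Φ).rename (n := r + 1) (fun i => i.succ)).or e).of_iff fun w => ?_
    beta_reduce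
    by_cases h : Group.IsNilpotent (Φ.G fun i => w i.succ)
    · rw [if_pos h]
      exact ⟨fun _ => Or.inl h, fun _ => Subgroup.mem_top _⟩
    · rw [if_neg h, Subgroup.mem_bot]
      exact ⟨fun h1 => Or.inr h1, fun h1 => h1.resolve_left h⟩
  have h2 := ApC.card_sub_nil Φ (n := r) (σ := fun i v => v i) hσ
    (H := fun v => if Group.IsNilpotent (Φ.G v) then (⊤ : Subgroup (Φ.G v)) else ⊥) h1 (by
      intro v
      beta_reduce
      by_cases h : Group.IsNilpotent (Φ.G v)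
      · rw [if_pos h]
        infer_instance
      · rw [if_neg h]
        infer_instance)
  refine (show (fun v => if Group.IsNilpotent (Φ.G v) then Nat.card (Φ.G v) else 0) =
    fun v => if Group.IsNilpotent (Φ.G v) then Nat.card
      ((if Group.IsNilpotent (Φ.G v) then (⊤ : Subgroup (Φ.G v)) else ⊥ : Subgroup (Φ.G v)))
      else 0 from ?_) ▸ DFun.ite (nil_def Φ) h2 (DFun.const 0)
  funext v
  by_cases h : Group.IsNilpotent (Φ.G v)
  · rw [if_pos h, if_pos h, if_pos h, Subgroup.card_top]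
  · rw [if_neg h, if_neg h]

end Pool.Agent.H70G
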