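import Pool.Agent.H70G.Grp
import Pool.Agent.H70G.NilDef
import Pool.Agent.Cov.ToG
import Pool.Agent.PRc.Alg
import Pool.Agent.PRc.Delta
import Pool.Agent.FOG.Def

/-!
# Families of groups over prime fields with definable domain and equality
-/

set_option autoImplicit false

noncomputable section

namespace Pool.Agent.H70G

open Pool.Agent.PRc Pool.Agent.Grz Pool.Agent.ECD Pool.Agent.Cov Pool.Agent.PTr
open scoped Classical

/-- The data of a family of groups over the prime fields with `p v` elements. -/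
structure Cd (r D e : ℕ) where
  p : (Fin r → ℕ) → ℕ
  pr : ∀ v, (p v).Prime
  hp : DFun r p
  c : Fin e → (Fin r → ℕ) → ℕ
  hc : ∀ k, DFun r (c k)
  X : (Fin r → ℕ) → (Fin D → ℕ) → Prop
  hX : ∀ {m : ℕ} {σ : Fin r → (Fin m → ℕ) → ℕ} {x : Fin D → (Fin m → ℕ) → ℕ},
    (∀ i, DFun m (σ i)) → (∀ i, DFun m (x i)) →
    Delta0 m (fun w => X (fun i => σ i w) fun i => x i w)
  E : (Fin r → ℕ) → (Fin D → ℕ) → (Fin D → ℕ) → Prop
  hE : ∀ {m : ℕ} {σ : Fin r → (Fin m → ℕ) → ℕ} {x y : Fin D → (Fin m → ℕ) → ℕ},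
    (∀ i, DFun m (σ i)) → (∀ i, DFun m (x i)) → (∀ i, DFun m (y i)) →
    Delta0 m (fun w => E (fun i => σ i w) (fun i => x i w) fun i => y i w)
  F : Fin D → FF (Fin D ⊕ Fin D ⊕ Fin e)
  hF : ∀ i, PRF (F i)
  ok : (Fin r → ℕ) → Prop
  hok : Delta0 r ok

variable {r D e : ℕ} (Φ : Cd r D e)

instance (v : Fin r → ℕ) : Fact (Φ.p v).Prime := ⟨Φ.pr v⟩

/-- the partial equivalence relation -/
def Cd.EE (v : Fin r → ℕ) (x y : Fin D → ZMod (Φ.p v)) : Prop :=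
  Φ.X v (fun i => (x i).val) ∧ Φ.X v (fun i => (y i).val) ∧
    Φ.E v (fun i => (x i).val) fun i => (y i).val

/-- the law -/
def Cd.FF (v : Fin r → ℕ) (x y : Fin D → ZMod (Φ.p v)) : Fin D → ZMod (Φ.p v) := fun i =>
  Φ.F i (ZMod (Φ.p v)) (Sum.elim x (Sum.elim y fun k => (Φ.c k v : ZMod (Φ.p v))))

variable {m : ℕ} {σ : Fin r → (Fin m → ℕ) → ℕ}

theorem Cd.vd_vc (hσ : ∀ i, DFun m (σ i)) {D' : ℕ} {z : (Fin m → ℕ) → ℕ} (hz : DFun m z)
    (i : Fin D') : DFun m (fun u => (vc (Φ.p fun i => σ i u) D' (z u) i).val) := by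
  have h := DFun.modAny (PTr.DFun.divPos hz (PTr.DFun.powConst (Φ.hp.comp hσ) (i : ℕ))
    fun u => pow_pos (Φ.pr _).pos _) (Φ.hp.comp hσ)
  refine (show (fun u => (vc (Φ.p fun i => σ i u) D' (z u) i).val) = _ from ?_) ▸ h
  funext u
  unfold vc
  rw [ZMod.val_natCast]

theorem Cd.vd_prf (hσ : ∀ i, DFun m (σ i)) {ι : Type} [Finite ι] {H : PRc.FF ι} (hH : PRF H)
    {T : ∀ u : Fin m → ℕ, ι → ZMod (Φ.p fun i => σ i u)}
    (hT : ∀ i, DFun m (fun u => (T u i).val)) :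
    DFun m (fun u => (H (ZMod (Φ.p fun i => σ i u)) (T u)).val) := by
  have := Fintype.ofFinite ι
  have h := prf_dfun' hH (p := fun u => Φ.p fun i => σ i u) (a := fun i u => (T u i).val)
    (Φ.hp.comp hσ) hT
  refine (show (fun u => (H (ZMod (Φ.p fun i => σ i u)) (T u)).val) = _ from ?_) ▸ h
  funext u
  unfold zv
  rw [dif_pos (Φ.pr _)]
  simp only [ZMod.natCast_zmod_val]

theorem Cd.vd_c (hσ : ∀ i, DFun m (σ i)) (k : Fin e) :
    DFun m (fun u => ((Φ.c k fun i => σ i u : ℕ) : ZMod (Φ.p fun i => σ i u)).val) := by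
  simp only [ZMod.val_natCast]
  exact DFun.modAny ((Φ.hc k).comp hσ) (Φ.hp.comp hσ)

theorem Cd.vd_FF (hσ : ∀ i, DFun m (σ i)) {x y : ∀ u : Fin m → ℕ, Fin D → ZMod (Φ.p fun i => σ i u)}
    (hx : ∀ i, DFun m (fun u => (x u i).val)) (hy : ∀ i, DFun m (fun u => (y u i).val))
    (i : Fin D) : DFun m (fun u => (Φ.FF (fun i => σ i u) (x u) (y u) i).val) := by
  refine Φ.vd_prf hσ (Φ.hF i) (T := fun u => Sum.elim (x u) (Sum.elim (y u) fun k =>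
    (Φ.c k (fun i => σ i u) : ZMod (Φ.p fun i => σ i u)))) ?_
  rintro (i | i | i)
  · exact hx i
  · exact hy i
  · exact Φ.vd_c hσ i

theorem Cd.ee_def (hσ : ∀ i, DFun m (σ i)) {x y : ∀ u : Fin m → ℕ, Fin D → ZMod (Φ.p fun i => σ i u)}
    (hx : ∀ i, DFun m (fun u => (x u i).val)) (hy : ∀ i, DFun m (fun u => (y u i).val)) :
    Delta0 m (fun u => Φ.EE (fun i => σ i u) (x u) (y u)) :=
  (Φ.hX hσ hx).and ((Φ.hX hσ hy).and (Φ.hE hσ hx hy))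

theorem Cd.vall (hσ : ∀ i, DFun m (σ i))
    {A : ∀ u : Fin m → ℕ, (Fin D → ZMod (Φ.p fun i => σ i u)) → Prop}
    (hA : Delta0 (m + 1) (fun w => A (fun i => w i.succ) (vc _ D (w 0)))) :
    Delta0 m (fun u => ∀ x, A u x) := by
  have h := Delta0.ballFun (PTr.DFun.powConst (Φ.hp.comp hσ) D)
    (P := fun z u => A u (vc _ D z)) hA
  refine h.of_iff fun u => ⟨fun h1 z _ => h1 _, fun h1 x => ?_⟩
  have h2 := h1 (vcode x) (vcode_lt (Φ.pr _).pos x).le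
  rwa [vc_vcode (Φ.pr _).pos] at h2

theorem Cd.vex (hσ : ∀ i, DFun m (σ i))
    {A : ∀ u : Fin m → ℕ, (Fin D → ZMod (Φ.p fun i => σ i u)) → Prop}
    (hA : Delta0 (m + 1) (fun w => A (fun i => w i.succ) (vc _ D (w 0)))) :
    Delta0 m (fun u => ∃ x, A u x) := by
  refine (Φ.vall hσ (A := fun u x => ¬ A u x) hA.not).not.of_iff fun u => ?_
  exact not_forall_not.symm

/-- the axioms without the unit, for four vectors -/
private def P4 (v : Fin r → ℕ) (x y z t : Fin D → ZMod (Φ.p v)) : Prop :=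
  (Φ.EE v x y → Φ.EE v y x) ∧ (Φ.EE v x y → Φ.EE v y z → Φ.EE v x z) ∧
  (Φ.EE v x z → Φ.EE v y t → Φ.EE v (Φ.FF v x y) (Φ.FF v z t)) ∧
  (Φ.EE v x x → Φ.EE v y y → Φ.EE v z z →
    Φ.EE v (Φ.FF v (Φ.FF v x y) z) (Φ.FF v x (Φ.FF v y z))) ∧
  (Φ.X v (fun i => (x i).val) → Φ.EE v x x)

private theorem p4_def : Delta0 r (fun v => ∀ x y z t, P4 Φ v x y z t) := by
  have s0 : ∀ i, DFun r (fun w : Fin r → ℕ => w i) := fun i => DFun.proj _
  have s1 : ∀ i : Fin r, DFun (r + 1) (fun w => w i.succ) := fun i => DFun.proj _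
  have s2 : ∀ i : Fin r, DFun (r + 1 + 1) (fun w => w i.succ.succ) := fun i => DFun.proj _
  have s3 : ∀ i : Fin r, DFun (r + 1 + 1 + 1) (fun w => w i.succ.succ.succ) :=
    fun i => DFun.proj _
  have s4 : ∀ i : Fin r, DFun (r + 1 + 1 + 1 + 1) (fun w => w i.succ.succ.succ.succ) :=
    fun i => DFun.proj _
  have ht := Φ.vd_vc s4 (D' := D) (z := fun w => w 0) (DFun.proj 0)
  have hz := Φ.vd_vc s4 (D' := D) (z := fun w => w (Fin.succ 0)) (DFun.proj _)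
  have hy := Φ.vd_vc s4 (D' := D) (z := fun w => w (Fin.succ (Fin.succ 0))) (DFun.proj _)
  have hx := Φ.vd_vc s4 (D' := D) (z := fun w => w (Fin.succ (Fin.succ (Fin.succ 0))))
    (DFun.proj _)
  have hxy := Φ.vd_FF s4 hx hy
  have hyz := Φ.vd_FF s4 hy hz
  have hzt := Φ.vd_FF s4 hz ht
  have k1 := (Φ.ee_def s4 hx hy).imp (Φ.ee_def s4 hy hx)
  have k2 := (Φ.ee_def s4 hx hy).imp ((Φ.ee_def s4 hy hz).imp (Φ.ee_def s4 hx hz))
  have k3 := (Φ.ee_def s4 hx hz).imp ((Φ.ee_def s4 hy ht).imp (Φ.ee_def s4 hxy hzt))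
  have k4 := (Φ.ee_def s4 hx hx).imp ((Φ.ee_def s4 hy hy).imp ((Φ.ee_def s4 hz hz).imp
    (Φ.ee_def s4 (Φ.vd_FF s4 hxy hz) (Φ.vd_FF s4 hx hyz))))
  have k5 := (Φ.hX s4 hx).imp (Φ.ee_def s4 hx hx)
  have k := k1.and (k2.and (k3.and (k4.and k5)))
  have l3 : Delta0 (r + 1 + 1 + 1) (fun w => ∀ t, P4 Φ (fun i => w i.succ.succ.succ)
      (vc _ D (w (Fin.succ (Fin.succ 0)))) (vc _ D (w (Fin.succ 0))) (vc _ D (w 0)) t) :=
    Φ.vall s3 (A := fun w t => P4 Φ (fun i => w i.succ.succ.succ)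
      (vc _ D (w (Fin.succ (Fin.succ 0)))) (vc _ D (w (Fin.succ 0))) (vc _ D (w 0)) t) k
  have l2 : Delta0 (r + 1 + 1) (fun w => ∀ z t, P4 Φ (fun i => w i.succ.succ)
      (vc _ D (w (Fin.succ 0))) (vc _ D (w 0)) z t) :=
    Φ.vall s2 (A := fun w z => ∀ t, P4 Φ (fun i => w i.succ.succ)
      (vc _ D (w (Fin.succ 0))) (vc _ D (w 0)) z t) l3
  have l1 : Delta0 (r + 1) (fun w => ∀ y z t, P4 Φ (fun i => w i.succ)
      (vc _ D (w 0)) y z t) :=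
    Φ.vall s1 (A := fun w y => ∀ z t, P4 Φ (fun i => w i.succ)
      (vc _ D (w 0)) y z t) l2
  exact Φ.vall s0 (A := fun v x => ∀ y z t, P4 Φ v x y z t) l1

/-- the axiom of the unit -/
private def P3 (v : Fin r → ℕ) (o x y : Fin D → ZMod (Φ.p v)) : Prop :=
  Φ.EE v o o ∧ (Φ.EE v x x → Φ.EE v (Φ.FF v o x) x ∧ Φ.EE v y y ∧ Φ.EE v (Φ.FF v y x) o)

private theorem p3_def : Delta0 r (fun v => ∃ o, ∀ x, ∃ y, P3 Φ v o x y) := by
  have s0 : ∀ i, DFun r (fun w : Fin r → ℕ => w i) := fun i => DFun.proj _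
  have s1 : ∀ i : Fin r, DFun (r + 1) (fun w => w i.succ) := fun i => DFun.proj _
  have s2 : ∀ i : Fin r, DFun (r + 1 + 1) (fun w => w i.succ.succ) := fun i => DFun.proj _
  have s3 : ∀ i : Fin r, DFun (r + 1 + 1 + 1) (fun w => w i.succ.succ.succ) :=
    fun i => DFun.proj _
  have hy := Φ.vd_vc s3 (D' := D) (z := fun w => w 0) (DFun.proj 0)
  have hx := Φ.vd_vc s3 (D' := D) (z := fun w => w (Fin.succ 0)) (DFun.proj _)
  have ho := Φ.vd_vc s3 (D' := D) (z := fun w => w (Fin.succ (Fin.succ 0))) (DFun.proj _)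
  have k := (Φ.ee_def s3 ho ho).and ((Φ.ee_def s3 hx hx).imp
    ((Φ.ee_def s3 (Φ.vd_FF s3 ho hx) hx).and ((Φ.ee_def s3 hy hy).and
      (Φ.ee_def s3 (Φ.vd_FF s3 hy hx) ho))))
  have l2 : Delta0 (r + 1 + 1) (fun w => ∃ y, P3 Φ (fun i => w i.succ.succ)
      (vc _ D (w (Fin.succ 0))) (vc _ D (w 0)) y) :=
    Φ.vex s2 (A := fun w y => P3 Φ (fun i => w i.succ.succ)
      (vc _ D (w (Fin.succ 0))) (vc _ D (w 0)) y) k
  have l1 : Delta0 (r + 1) (fun w => ∀ x, ∃ y, P3 Φ (fun i => w i.succ) (vc _ D (w 0)) x y) :=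
    Φ.vall s1 (A := fun w x => ∃ y, P3 Φ (fun i => w i.succ) (vc _ D (w 0)) x y) l2
  exact Φ.vex s0 (A := fun v o => ∀ x, ∃ y, P3 Φ v o x y) l1

/-- the data for `v` present a group -/
def Cd.Good (v : Fin r → ℕ) : Prop :=
  Φ.ok v ∧ PRel (Φ.EE v) (Φ.FF v) ∧ ∀ x, Φ.X v (fun i => (x i).val) → Φ.EE v x x

theorem Cd.good_def : Delta0 r Φ.Good := by
  refine (Φ.hok.and ((p4_def Φ).and (p3_def Φ))).of_iff fun v => ?_
  constructor
  · rintro ⟨h1, h2, h3⟩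
    refine ⟨h1, fun x y z t => ⟨h2.symm x y, h2.trans x y z, h2.compat x z y t,
      h2.assoc x y z, h3 x⟩, ?_⟩
    obtain ⟨o, ho, h4⟩ := h2.unit
    refine ⟨o, fun x => ?_⟩
    by_cases hx : Φ.EE v x x
    · obtain ⟨h5, y, h6, h7⟩ := h4 x hx
      exact ⟨y, ho, fun _ => ⟨h5, h6, h7⟩⟩
    · exact ⟨x, ho, fun h => absurd h hx⟩
  · rintro ⟨h1, h2, o, h3⟩
    refine ⟨h1, ⟨fun x y => (h2 x y x x).1, fun x y z => (h2 x y z x).2.1,
      fun x x' y y' => (h2 x y x' y').2.2.1, fun x y z => (h2 x y z x).2.2.2.1, o, ?_, ?_⟩,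
      fun x => (h2 x x x x).2.2.2.2⟩
    · obtain ⟨_, h4, _⟩ := h3 0
      exact h4
    · intro x hx
      obtain ⟨y, _, h4⟩ := h3 x
      obtain ⟨h5, h6, h7⟩ := h4 hx
      exact ⟨h5, y, h6, h7⟩

end Pool.Agent.H70G
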