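import Pool.Agent.H70G.Ext

/-!
# From a format over the extension to data over the prime field
-/

set_option autoImplicit false

noncomputable section

namespace Pool.Agent.H70G

open Pool.Agent.PRc Pool.Agent.Grz Pool.Agent.ECD Pool.Agent.Cov Pool.Agent.FOG Pool.Agent.GOr
open scoped Classical

variable {n s d k : ℕ}

/-- numbering of the coordinates of the parameters -/
def eP (k s : ℕ) : (Fin k × Fin s) ⊕ Fin s ≃ Fin (k * s + s) :=
  (Equiv.sumCongr finProdFinEquiv (Equiv.refl _)).trans finSumFinEquiv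

/-- the variables -/
def sv : ((Fin d ⊕ Fin d ⊕ Fin k) × Fin s) ⊕ Fin s →
    (Fin (d * s) ⊕ Fin (d * s) ⊕ Fin (k * s + s))
  | .inl (.inl i, l) => .inl (finProdFinEquiv (i, l))
  | .inl (.inr (.inl i), l) => .inr (.inl (finProdFinEquiv (i, l)))
  | .inl (.inr (.inr i), l) => .inr (.inr (eP k s (.inl (i, l))))
  | .inr l => .inr (.inr (eP k s (.inr l)))

/-- the law in coordinates -/
def cF (QF : Fin d → Fin s → FF (((Fin d ⊕ Fin d ⊕ Fin k) × Fin s) ⊕ Fin s))
    (j : Fin (d * s)) : FF (Fin (d * s) ⊕ Fin (d * s) ⊕ Fin (k * s + s)) := fun K _ u =>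
  QF (finProdFinEquiv.symm j).1 (finProdFinEquiv.symm j).2 K fun q => u (sv q)

/-- the data over the prime field -/
def toCd (Φ : Fmt n s d k)
    (QF : Fin d → Fin s → FF (((Fin d ⊕ Fin d ⊕ Fin k) × Fin s) ⊕ Fin s))
    (hQ : ∀ i l, PRF (QF i l)) : Cd (n + 1) (d * s) (k * s + s) where
  p v := if (v 0).Prime then v 0 else 2
  pr v := by
    split_ifs with h
    · exact h
    · exact Nat.prime_two
  hp := DFun.ite (delta_prime (DFun.proj 0)) (DFun.proj 0) (DFun.const 2)
  c j v := Sum.elim (fun j => Φ.a j v) (fun l => Φ.b l v) ((eP k s).symm j)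
  hc j := by
    rcases (eP k s).symm j with i | i
    · exact Φ.a_def i
    · exact Φ.b_def i
  X v y := Φ.X (Sum.elim v fun j => y (finProdFinEquiv j))
  hX := by
    intro m σ x hσ hx
    refine (Φ.X_def.subst (f := Sum.elim σ fun j => x (finProdFinEquiv j)) ?_).of_iff
      fun w => iff_of_eq (congrArg Φ.X (funext ?_))
    · rintro (i | i)
      · exact hσ i
      · exact hx _
    · rintro (i | i) <;> rfl
  E v y z := Φ.E (Sum.elim v (Sum.elim (fun j => y (finProdFinEquiv j))
    fun j => z (finProdFinEquiv j)))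
  hE := by
    intro m σ x y hσ hx hy
    refine (Φ.E_def.subst (f := Sum.elim σ (Sum.elim (fun j => x (finProdFinEquiv j))
      fun j => y (finProdFinEquiv j))) ?_).of_iff
      fun w => iff_of_eq (congrArg Φ.E (funext ?_))
    · rintro (i | i | i)
      · exact hσ i
      · exact hx _
      · exact hy _
    · rintro (i | i | i) <;> rfl
  F := cF QF
  hF j := (hQ _ _).comp (G := fun q _ _ u => u (sv q)) fun q => PRF.var _
  ok v := Irr s (v 0) fun l => Φ.b l v
  hok := irr_def s (DFun.proj 0) Φ.b_def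

section

variable {Φ : Fmt n s d k}
  {QF : Fin d → Fin s → FF (((Fin d ⊕ Fin d ⊕ Fin k) × Fin s) ⊕ Fin s)}
  {hQ : ∀ i l, PRF (QF i l)}

theorem toCd_p {v : Fin (n + 1) → ℕ} (h : (v 0).Prime) : (toCd Φ QF hQ).p v = v 0 := if_pos h

/-- the coordinates of the product -/
theorem law_coords (hE : ∀ i (k' : Type) [Field k'] (h : Polynomial k') [Fact (Irreducible h)],
      h.Monic → h.natDegree = s → ∀ z : (Fin d ⊕ Fin d ⊕ Fin k) × Fin s → k',
        Φ.F i (AdjoinRoot h) (fun i => PRc.ext h fun l => z (i, l)) =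
          PRc.ext h fun l => QF i l k' (Sum.elim z fun l => h.coeff l))
    {v : Fin (n + 1) → ℕ} {K : Type} [Field K] {t : K}
    (h : IsField ((toCd Φ QF hQ).p v) s (fun l => Φ.b l v) K t)
    (x y : Fin (d * s) → ZMod ((toCd Φ QF hQ).p v)) (i : Fin d) :
    Φ.F i K (Sum.elim (vec t fun j => (x (finProdFinEquiv j)).val)
      (Sum.elim (vec t fun j => (y (finProdFinEquiv j)).val) (vec t fun j => Φ.a j v))) =
      elt t fun l => ((toCd Φ QF hQ).FF v x y (finProdFinEquiv (i, l))).val := by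
  have h1 := coords (Φ.F_prf i) (QF := QF i) (hE i) h (fun q =>
    Sum.elim (fun i => (x (finProdFinEquiv (i, q.2))).val)
      (Sum.elim (fun i => (y (finProdFinEquiv (i, q.2))).val) fun i => Φ.a (i, q.2) v) q.1)
  have e1 : (fun i' => elt t fun l => Sum.elim (fun i => (x (finProdFinEquiv (i, l))).val)
      (Sum.elim (fun i => (y (finProdFinEquiv (i, l))).val) fun i => Φ.a (i, l) v) i') =
      Sum.elim (vec t fun j => (x (finProdFinEquiv j)).val)
      (Sum.elim (vec t fun j => (y (finProdFinEquiv j)).val) (vec t fun j => Φ.a j v)) := by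
    funext i'
    rcases i' with i' | i' | i' <;> rfl
  rw [← e1]
  refine h1.trans (congrArg (elt t) (funext fun l => congrArg ZMod.val ?_))
  show QF i l (ZMod ((toCd Φ QF hQ).p v)) _ = QF (finProdFinEquiv.symm (finProdFinEquiv (i, l))).1
    (finProdFinEquiv.symm (finProdFinEquiv (i, l))).2 (ZMod ((toCd Φ QF hQ).p v)) _
  rw [Equiv.symm_apply_apply]
  congr 1
  funext q
  rcases q with ⟨i' | i' | i', l'⟩ | l'
  · exact ZMod.natCast_zmod_val _
  · exact ZMod.natCast_zmod_val _
  · show ((Φ.a (i', l') v : ℕ) : ZMod ((toCd Φ QF hQ).p v)) = ((Sum.elim (fun j => Φ.a j v)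
      (fun l => Φ.b l v) ((eP k s).symm (eP k s (.inl (i', l')))) : ℕ) :
        ZMod ((toCd Φ QF hQ).p v))
    rw [Equiv.symm_apply_apply]
    rfl
  · show ((Φ.b l' v : ℕ) : ZMod ((toCd Φ QF hQ).p v)) = ((Sum.elim (fun j => Φ.a j v)
      (fun l => Φ.b l v) ((eP k s).symm (eP k s (.inr l'))) : ℕ) :
        ZMod ((toCd Φ QF hQ).p v))
    rw [Equiv.symm_apply_apply]
    rfl

end

end Pool.Agent.H70G
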