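import Pool.Agent.H70G.Defs

/-!
# Products of cyclic subgroups
-/

set_option autoImplicit false

namespace Pool.Agent.H70G

variable {G : Type} [Group G]

/-- `B` is a product of `n` cyclic subgroups. -/
def Cyc : ℕ → (G → Prop) → Prop
  | 0, B => ∀ x, B x ↔ x = 1
  | n + 1, B => ∃ (g : G) (B' : G → Prop), Cyc n B' ∧
      ∀ x, B x ↔ ∃ (k : ℕ) (y : G), B' y ∧ x = g ^ k * y

theorem Cyc.pc {n : ℕ} {B : G → Prop} (h : Cyc n B) : ∃ g : Fin n → G, ∀ x, B x ↔ PC g x := by
  induction n generalizing B with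
  | zero =>
    refine ⟨Fin.elim0, fun x => ?_⟩
    rw [h x]
    unfold PC
    simp [eq_comm]
  | succ n ih =>
    obtain ⟨g, B', h1, h2⟩ := h
    obtain ⟨g', h3⟩ := ih h1
    refine ⟨Fin.cons g g', fun x => ?_⟩
    rw [h2 x]
    constructor
    · rintro ⟨k, y, hy, rfl⟩
      obtain ⟨e, he⟩ := (h3 y).1 hy
      refine ⟨Fin.cons k e, ?_⟩
      rw [List.ofFn_succ, List.prod_cons, ← he]
      simp
    · rintro ⟨e, he⟩
      refine ⟨e 0, (List.ofFn fun i => g' i ^ e i.succ).prod, (h3 _).2 ⟨_, rfl⟩, ?_⟩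
      rw [← he, List.ofFn_succ, List.prod_cons]
      simp

theorem Cyc.mono {n m : ℕ} {B : G → Prop} (h : Cyc n B) (hnm : n ≤ m) : Cyc m B := by
  induction m, hnm using Nat.le_induction with
  | base => exact h
  | succ m _ ih =>
    refine ⟨1, B, ih, fun x => ⟨fun hx => ⟨0, x, hx, by simp⟩, ?_⟩⟩
    rintro ⟨k, y, hy, rfl⟩
    simpa using hy

private theorem step [Finite G] {l m : ℕ} [Fact l.Prime] (hl : IsPGroup l G)
    (A A' : Subgroup G) (hAA : A ≤ A') (hA : Nat.card A = l ^ m)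
    (hA' : Nat.card A' = l ^ (m + 1)) :
    ∃ g : G, ∀ x, x ∈ A' ↔ ∃ (k : ℕ) (y : G), y ∈ A ∧ x = g ^ k * y := by
  have hlp : l.Prime := Fact.out
  obtain ⟨g, hg, hgA⟩ : ∃ g, g ∈ A' ∧ g ∉ A := by
    by_contra hc
    push Not at hc
    have : A = A' := le_antisymm hAA fun x hx => hc x hx
    rw [this, hA'] at hA
    have := Nat.pow_right_injective hlp.two_le hA
    omega
  have hcard : Nat.card (A' ⧸ A.subgroupOf A') = l := by
    have h1 := Subgroup.card_eq_card_quotient_mul_card_subgroup (A.subgroupOf A')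
    rw [Nat.card_congr (Subgroup.subgroupOfEquivOfLe hAA).toEquiv, hA', hA, pow_succ, mul_comm] at h1
    exact (Nat.eq_of_mul_eq_mul_right (pow_pos hlp.pos m) h1).symm
  let f : Fin l → A' ⧸ A.subgroupOf A' := fun i => ((⟨g, hg⟩ ^ (i : ℕ) : A') : A' ⧸ _)
  have key : ∀ i j : Fin l, i < j → f i ≠ f j := by
    intro i j hij h
    rw [QuotientGroup.eq, Subgroup.mem_subgroupOf] at h
    have h2 : g ^ ((j : ℕ) - i) ∈ A := by
      have e : (((⟨g, hg⟩ ^ (i : ℕ) : A')⁻¹ * ⟨g, hg⟩ ^ (j : ℕ) : A') : G) = g ^ ((j : ℕ) - i) := by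
        push_cast
        rw [pow_sub g (le_of_lt hij)]
        group
      rwa [e] at h
    have h3 : (l.Coprime ((j : ℕ) - i)) := by
      have h4 : (i : ℕ) < j := hij
      have h5 := j.2
      exact Nat.coprime_of_lt_prime (by omega) (by omega) hlp
    obtain ⟨k, hk⟩ := exists_pow_eq_self_of_coprime (hl.orderOf_coprime h3 g).symm
    exact hgA (hk ▸ A.pow_mem h2 k)
  have hinj : Function.Injective f := by
    intro i j h
    rcases lt_trichotomy i j with h1 | h1 | h1
    · exact absurd h (key i j h1)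
    · exact h1
    · exact absurd h.symm (key j i h1)
  have hsurj : Function.Surjective f := by
    have := (Nat.bijective_iff_injective_and_card f).2 ⟨hinj, by rw [hcard, Nat.card_fin]⟩
    exact this.2
  refine ⟨g, fun x => ⟨fun hx => ?_, ?_⟩⟩
  · obtain ⟨i, hi⟩ := hsurj ((⟨x, hx⟩ : A') : A' ⧸ A.subgroupOf A')
    rw [QuotientGroup.eq, Subgroup.mem_subgroupOf] at hi
    refine ⟨i, _, hi, ?_⟩
    push_cast
    group
  · rintro ⟨k, y, hy, rfl⟩
    exact A'.mul_mem (A'.pow_mem hg k) (hAA hy)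

/-- If the subgroup `A` of an `l`-group of index `l ^ a` is a product of `n` cyclic subgroups then
the group is a product of `n + a` cyclic subgroups. -/
theorem Cyc.chain [Finite G] {l : ℕ} [Fact l.Prime] (a : ℕ) : ∀ {m n : ℕ} (A : Subgroup G),
    Nat.card A = l ^ m → Nat.card G = l ^ (m + a) → Cyc n (fun x => x ∈ A) →
    Cyc (n + a) (fun _ : G => True) := by
  induction a with
  | zero =>
    intro m n A hA hG h
    have e : A = ⊤ := Subgroup.eq_top_of_card_eq A (by rw [hA, hG]; rfl)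
    subst e
    simpa using h
  | succ a ih =>
    intro m n A hA hG h
    have hl : IsPGroup l G := IsPGroup.of_card hG
    obtain ⟨A', hA', hle⟩ := Sylow.exists_subgroup_card_pow_prime_le l (n := m) (m := m + 1)
      (by rw [hG]; exact pow_dvd_pow _ (by omega)) A hA (Nat.le_succ m)
    obtain ⟨g, hg⟩ := step hl A A' hle hA hA'
    have h3 := ih (m := m + 1) (n := n + 1) A' hA' (by rw [hG]; congr 1; omega) ⟨g, _, h, hg⟩
    exact h3.mono (by omega)

/-- A finite subgroup on which `n` characters are faithful is a product of `n` cyclic subgroups. -/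
theorem cyc_of_char [Finite G] {L : Type} [Field L] (n : ℕ) : ∀ (B : Subgroup G)
    (χ : Fin n → G → L), (∀ i, χ i 1 = 1) →
    (∀ i, ∀ x ∈ B, ∀ y ∈ B, χ i (x * y) = χ i x * χ i y) →
    (∀ x ∈ B, (∀ i, χ i x = 1) → x = 1) → Cyc n (fun x => x ∈ B) := by
  induction n with
  | zero =>
    intro B χ _ _ h3 x
    refine ⟨fun hx => h3 x hx fun i => i.elim0, ?_⟩
    rintro rfl
    exact B.one_mem
  | succ n ih =>
    intro B χ h1 h2 h3
    let φ : B →* L :=
      { toFun := fun x => χ 0 x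
        map_one' := h1 0
        map_mul' := fun x y => h2 0 x x.2 y y.2 }
    have hfin : Finite φ.toHomUnits.range := by
      have := Set.finite_range φ.toHomUnits
      exact this.to_subtype
    have hcyc : IsCyclic φ.toHomUnits.range := isCyclic_subgroup_units φ.toHomUnits.range
    obtain ⟨⟨u, hu⟩, hgen⟩ := hcyc.exists_generator
    obtain ⟨a, rfl⟩ := hu
    refine ⟨a, fun x => x ∈ φ.ker.map B.subtype, ?_, ?_⟩
    · refine ih _ (fun i => χ i.succ) (fun i => h1 _) ?_ ?_
      · rintro i _ ⟨x, _, rfl⟩ _ ⟨y, _, rfl⟩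
        exact h2 _ x x.2 y y.2
      · rintro _ ⟨x, hx, rfl⟩ h
        refine h3 _ x.2 fun i => ?_
        rcases Fin.eq_zero_or_eq_succ i with rfl | ⟨j, rfl⟩
        · exact hx
        · exact h j
    · intro x
      constructor
      · intro hx
        have h4 := hgen ⟨φ.toHomUnits ⟨x, hx⟩, ⟨_, rfl⟩⟩
        rw [← mem_powers_iff_mem_zpowers] at h4
        obtain ⟨k, hk⟩ := h4
        have h5 : φ.toHomUnits a ^ k = φ.toHomUnits ⟨x, hx⟩ := congrArg Subtype.val hk
        refine ⟨k, (a : G) ^ (-(k : ℤ)) * x, ⟨a ^ (-(k : ℤ)) * ⟨x, hx⟩, ?_, ?_⟩, ?_⟩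
        · have h6 : φ.toHomUnits (a ^ (-(k : ℤ)) * ⟨x, hx⟩) = 1 := by
            rw [map_mul, map_zpow, ← h5, zpow_neg, zpow_natCast, inv_mul_cancel]
          have h7 := congrArg Units.val h6
          exact h7
        · rfl
        · rw [zpow_neg, zpow_natCast]
          group
      · rintro ⟨k, _, ⟨y, _, rfl⟩, rfl⟩
        exact B.mul_mem (B.pow_mem a.2 k) y.2

end Pool.Agent.H70G
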