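import Pool.Agent.GOr.Defs
import Pool.Agent.Grz.Delta0

/-!
# Families of groups with rational law, and definable domain and equality: definitions

`DRel R`: the relation `R` on `ℕ ^ ι`, `ι` finite, is definable by a bounded formula. `DMap f`: the
graph of the function `f` on `ℕ ^ ι` is definable by a bounded formula and `f` is bounded by a
polynomial.

`Fmt n s d k`: the data of a family of groups, indexed by `v ∈ ℕ ^ (n + 1)`; the field has `p ^ s`
elements, `p = v 0`, it is given by the coefficients `b` of the polynomial of a generator `t`; the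
elements of the groups are given by vectors in `K ^ d`, given by their `d s` coordinates in `[0, p)`;
`X` tells which vectors give an element of the group, `E` tells which vectors give the same element,
`F` are the coordinates of a product, with `k` parameters in `K` that have the coordinates `a`.

`Φ.Dom v`: the coordinates of the vectors that give an element of the group. `Φ.Pres v K t G cls`:
the data for `v` present the group `G`, `cls x` is the element given by `x`.

`PC g x`: `x` is in the product of the cyclic subgroups generated by the `g i`. `Tame k G`: every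
Sylow subgroup is normal or a product of `k` cyclic subgroups. `AbGen κ G`: `G` is abelian with `κ`
generators. `IsAff h`: the map `h : G → G` is an endomorphism times a constant.
-/

set_option autoImplicit false

noncomputable section

namespace Pool.Agent.H70G

open Pool.Agent.Grz Pool.Agent.PRc

/-- The relation `R` is definable by a bounded formula (for some numbering of the variables). -/
def DRel {ι : Type} (R : (ι → ℕ) → Prop) : Prop :=
  ∃ (n : ℕ) (e : ι ≃ Fin n), Delta0 n (fun v => R fun i => v (e i))

/-- The function `f` is in the class of the functions with definable graph and a polynomial bound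
(for some numbering of the variables). -/
def DMap {ι : Type} (f : (ι → ℕ) → ℕ) : Prop :=
  ∃ (n : ℕ) (e : ι ≃ Fin n), DFun n (fun v => f fun i => v (e i))

/-- The data of a family of groups over the fields with `p ^ s` elements, `p = v 0`. -/
structure Fmt (n s d k : ℕ) where
  /-- the coefficients of the polynomial `t ^ s + ∑ b_l t ^ l` of the generator -/
  b : Fin s → (Fin (n + 1) → ℕ) → ℕ
  /-- the coordinates of the parameters of the law -/
  a : Fin k × Fin s → (Fin (n + 1) → ℕ) → ℕ
  /-- the domain -/
  X : (Fin (n + 1) ⊕ Fin d × Fin s → ℕ) → Prop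
  /-- the equality -/
  E : (Fin (n + 1) ⊕ Fin d × Fin s ⊕ Fin d × Fin s → ℕ) → Prop
  /-- the law -/
  F : Fin d → FF (Fin d ⊕ Fin d ⊕ Fin k)
  b_def : ∀ l, DFun (n + 1) (b l)
  a_def : ∀ j, DFun (n + 1) (a j)
  X_def : DRel X
  E_def : DRel E
  F_prf : ∀ i, PRF (F i)

/-- the vector with the coordinates `x` -/
def vec {d s : ℕ} {K : Type} [Field K] (t : K) (x : Fin d × Fin s → ℕ) : Fin d → K :=
  fun i => GOr.elt t fun l => x (i, l)

variable {n s d k : ℕ}

/-- the coordinates of the vectors that give an element of the group -/
def Fmt.Dom (Φ : Fmt n s d k) (v : Fin (n + 1) → ℕ) : Set (Fin d × Fin s → ℕ) :=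
  {x | (∀ j, x j < v 0) ∧ Φ.X (Sum.elim v x)}

/-- The data for `v` present the group `G`: `K` is the field with `p ^ s` elements, `p = v 0`; each
element of the group is `cls x` for an `x ∈ Φ.Dom v`; for `x`, `y` in `Φ.Dom v` the vector given by
the law `F` has coordinates `z` in `Φ.Dom v` and `cls z = cls x * cls y`; and `E` holds for `x`, `y`
if and only if `cls x = cls y`. -/
structure Fmt.Pres (Φ : Fmt n s d k) (v : Fin (n + 1) → ℕ) (K : Type) [Field K] (t : K)
    (G : Type) [Group G] (cls : (Fin d × Fin s → ℕ) → G) : Prop where
  fld : GOr.IsField (v 0) s (fun l => Φ.b l v) K t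
  onto : ∀ g, ∃ x ∈ Φ.Dom v, cls x = g
  law : ∀ x ∈ Φ.Dom v, ∀ y ∈ Φ.Dom v, ∃ z ∈ Φ.Dom v,
    (∀ i, vec t z i = Φ.F i K (Sum.elim (vec t x) (Sum.elim (vec t y) (vec t fun j => Φ.a j v)))) ∧
    cls z = cls x * cls y
  eq : ∀ x ∈ Φ.Dom v, ∀ y ∈ Φ.Dom v,
    (Φ.E (Sum.elim v (Sum.elim x y)) ↔ cls x = cls y)

/-- `x` is in the product of the cyclic subgroups generated by the `g i`. -/
def PC {k : ℕ} {G : Type} [Group G] (g : Fin k → G) (x : G) : Prop :=
  ∃ e : Fin k → ℕ, (List.ofFn fun i => g i ^ e i).prod = x

/-- Each Sylow subgroup of `G` is normal or a product of `k` cyclic subgroups. -/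
def Tame (k : ℕ) (G : Type) [Group G] : Prop :=
  ∀ l : ℕ, l.Prime → ∃ P : Sylow l G, (P : Subgroup G).Normal ∨
    ∃ g : Fin k → G, ∀ x, x ∈ P ↔ PC g x

/-- `G` is abelian and generated by `κ` elements. -/
def AbGen (κ : ℕ) (G : Type) [Group G] : Prop :=
  (∀ x y : G, x * y = y * x) ∧ ∃ g : Fin κ → G, ∀ x, PC g x

/-- The map `h` is the product of an endomorphism and a constant (`G` abelian). -/
def IsAff {G : Type} [Group G] (h : G → G) : Prop := ∀ x y, h (x * y) * h 1 = h x * h y

end Pool.Agent.H70G
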