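import Pool.Agent.H70G.Fam

/-!
# Codes of the elements, in terms of coordinates
-/

set_option autoImplicit false

noncomputable section

namespace Pool.Agent.H70G

open Pool.Agent.PRc Pool.Agent.Grz Pool.Agent.ECD Pool.Agent.Cov Pool.Agent.PTr Pool.Agent.GOr
open scoped Classical

variable {r D e τ : ℕ} {Φ : Cd r D e} (x₀ : Pt Φ)
  {T : Fin τ → MvPolynomial (Fin (D + 1) ⊕ Fin (D + 1) ⊕ Fin e) ℤ}
  {L : (Fin τ → Prop) → Law (D + 1) e}
  (hL : ∀ (k : Type) [Field k] (c : Fin e → k) (x y : Fin (D + 1) → k),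
      ∃ z : kˣ, ∀ i, (L (pat T c x y)).ev c x y i = z * LF Φ.F i k (Sum.elim x (Sum.elim y c)))

/-- the family of groups with definable products -/
def gf : GFam r := (fam x₀ T L hL).toG

/-- the class of the vector with the given coordinates -/
def Pt.cn (x : Pt Φ) (y : Fin D → ℕ) : x.G := x.cd fun i => (y i : ZMod x.p)

/-- the coordinates of the vector with the code `z` -/
def Pt.rn (x : Pt Φ) (z : ℕ) : Fin D → ℕ := fun i => (dh (vc x.p (D + 1) z) i).val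

variable {m : ℕ} {σ : Fin r → (Fin m → ℕ) → ℕ}

theorem rn_def (hσ : ∀ i, DFun m (σ i)) {z : (Fin m → ℕ) → ℕ} (hz : DFun m z) (i : Fin D) :
    DFun m (fun u => (pt x₀ fun j => σ j u).rn (z u) i) :=
  vd_dh (Φ := Φ) (pt_comp x₀ hσ) hz i

theorem Pt.rn_lt (x : Pt Φ) (z : ℕ) (i : Fin D) : x.rn z i < x.p := ZMod.val_lt _

theorem Pt.cast_rn (x : Pt Φ) (z : ℕ) : (fun i => (x.rn z i : ZMod x.p)) =
    dh (vc x.p (D + 1) z) := by
  funext i
  exact ZMod.natCast_zmod_val _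

theorem rn_enc (v : Fin r → ℕ) (g : (pt x₀ v).G) :
    Φ.EE (pt x₀ v).v (fun i => ((pt x₀ v).rn ((gf x₀ hL).enc v g) i : ZMod (pt x₀ v).p))
      (fun i => ((pt x₀ v).rn ((gf x₀ hL).enc v g) i : ZMod (pt x₀ v).p)) ∧
    (pt x₀ v).cn ((pt x₀ v).rn ((gf x₀ hL).enc v g)) = g := by
  obtain ⟨h1, h2⟩ := (fam x₀ T L hL).enc_spec v g
  unfold Pt.cn
  rw [Pt.cast_rn]
  exact ⟨h1.2, h2⟩

theorem cn_def (hσ : ∀ i, DFun m (σ i)) {y : Fin D → (Fin m → ℕ) → ℕ} (hy : ∀ i, DFun m (y i)) :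
    DFun m (fun u => (gf x₀ hL).enc (fun j => σ j u)
      ((pt x₀ fun j => σ j u).cn fun i => y i u)) := by
  have hσ1 : ∀ i, DFun (m + 1) (fun w : Fin (m + 1) → ℕ => σ i (fun j => w j.succ)) :=
    fun i => (hσ i).weak
  have hx : ∀ i, DFun (m + 1) (fun w : Fin (m + 1) → ℕ =>
      ((y i (fun j => w j.succ) : ℕ) : ZMod (Φ.p (pt x₀ fun j => σ j fun l => w l.succ).v)).val) := by
    intro i
    simp only [ZMod.val_natCast]
    exact DFun.modAny (hy i).weak (Φ.hp.comp (pt_comp x₀ hσ1))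
  have hd := vd_dh (Φ := Φ) (pt_comp x₀ hσ1) (z := fun w => w 0) (DFun.proj 0)
  have k1 := Φ.ee_def (pt_comp x₀ hσ1)
    (x := fun w i => ((y i (fun j => w j.succ) : ℕ) :
      ZMod (Φ.p (pt x₀ fun j => σ j fun l => w l.succ).v)))
    (y := fun w i => ((y i (fun j => w j.succ) : ℕ) :
      ZMod (Φ.p (pt x₀ fun j => σ j fun l => w l.succ).v))) hx hx
  have k2 := Φ.ee_def (pt_comp x₀ hσ1)
    (x := fun w => dh (vc (Φ.p (pt x₀ fun j => σ j fun l => w l.succ).v) (D + 1) (w 0)))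
    (y := fun w i => ((y i (fun j => w j.succ) : ℕ) :
      ZMod (Φ.p (pt x₀ fun j => σ j fun l => w l.succ).v))) hd hx
  have k3 := (gf x₀ hL).gmem hσ1 (z := fun w => w 0) (DFun.proj 0)
  have k4 := Delta0.eqFun (DFun.proj (n := m + 1) 0) ((gf x₀ hL).gone hσ1)
  refine DFun.ofGraph (b := fun u => (gf x₀ hL).N (fun i => σ i u))
    ((gf x₀ hL).hN.comp hσ) (fun u => (gf x₀ hL).bd _ _) (((k1.and (k3.and k2)).or
      (k1.not.and k4)).of_iff fun w => ?_)
  set u : Fin m → ℕ := fun j => w j.succ with hu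
  set x : Pt Φ := pt x₀ fun j => σ j u with hxd
  by_cases h : Φ.EE x.v (fun i => ((y i u : ℕ) : ZMod x.p)) (fun i => ((y i u : ℕ) : ZMod x.p))
  · constructor
    · intro h1
      refine Or.inl ⟨h, ⟨_, h1.symm⟩, ?_⟩
      obtain ⟨h2, h3⟩ := rn_enc x₀ hL (fun j => σ j u) (x.cn fun i => y i u)
      rw [Pt.cast_rn] at h2
      unfold Pt.cn at h3
      rw [Pt.cast_rn] at h3
      have h4 := (x.cd_iff h2 h).1 h3
      have h5 : w 0 = (gf x₀ hL).enc (fun j => σ j u) (x.cn fun i => y i u) := h1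
      show Φ.EE x.v (dh (vc x.p (D + 1) (w 0))) _
      rw [h5]
      exact h4
    · rintro (⟨_, ⟨g, h1⟩, h2⟩ | ⟨h1, _⟩)
      · obtain ⟨h3, h4⟩ := rn_enc x₀ hL (fun j => σ j u) g
        unfold Pt.cn at h4
        rw [Pt.cast_rn] at h3 h4
        have h5 : (gf x₀ hL).enc (fun j => σ j u) g = w 0 := h1
        rw [h5] at h3 h4
        have h6 : x.cd (dh (vc x.p (D + 1) (w 0))) = x.cn fun i => y i u := x.cd_eq h2
        show w 0 = (gf x₀ hL).enc (fun j => σ j u) (x.cn fun i => y i u)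
        rw [← h6, ← h5]
        congr 1
        rw [h5]
        exact h4.symm
      · exact absurd h h1
  · have e1 : (x.cn fun i => y i u) = 1 := dif_neg h
    show w 0 = (gf x₀ hL).enc (fun j => σ j u) (x.cn fun i => y i u) ↔ _
    rw [e1]
    constructor
    · intro h1
      exact Or.inr ⟨h, h1⟩
    · rintro (⟨h1, _⟩ | ⟨_, h1⟩)
      · exact absurd h1 h
      · exact h1

end Pool.Agent.H70G
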