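import Pool.Agent.H70G.Base
import Pool.Agent.GOr.Top

/-!
# Coordinates over the prime field
-/

set_option autoImplicit false

noncomputable section

namespace Pool.Agent.H70G

open Polynomial Pool.Agent.PRc Pool.Agent.Grz Pool.Agent.ECD Pool.Agent.Cov Pool.Agent.FOG
  Pool.Agent.GOr
open scoped Classical

theorem DRel.subst {ι : Type} {R : (ι → ℕ) → Prop} (h : DRel R) {n : ℕ}
    {f : ι → (Fin n → ℕ) → ℕ} (hf : ∀ i, DFun n (f i)) : Delta0 n (fun v => R fun i => f i v) := by
  obtain ⟨m, e, h1⟩ := h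
  refine (h1.subst (h := fun j => f (e.symm j)) fun j => hf _).of_iff fun v => ?_
  simp only [Equiv.symm_apply_apply]

theorem DMap.of {ι : Type} [Finite ι] {f : (ι → ℕ) → ℕ}
    (h : ∀ {n : ℕ} {g : ι → (Fin n → ℕ) → ℕ}, (∀ i, DFun n (g i)) →
      DFun n (fun v => f fun i => g i v)) : DMap f := by
  obtain ⟨n, ⟨e⟩⟩ := Finite.exists_equiv_fin ι
  exact ⟨n, e, h fun i => DFun.proj (e i)⟩

/-- the polynomial is irreducible -/
def Irr (s : ℕ) (p : ℕ) (b : Fin s → ℕ) : Prop :=
  ∃ h : p.Prime, haveI := Fact.mk h;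
    Irreducible (X ^ s + ∑ l : Fin s, C ((b l : ℕ) : ZMod p) * X ^ (l : ℕ))

theorem irr_def (s : ℕ) {n : ℕ} {p : (Fin n → ℕ) → ℕ} {b : Fin s → (Fin n → ℕ) → ℕ}
    (hp : DFun n p) (hb : ∀ l, DFun n (b l)) : Delta0 n (fun v => Irr s (p v) fun l => b l v) :=
  prq_delta (CvD.irp_prq s) (a := b) hp hb

section

variable {q s : ℕ} {b : Fin s → ℕ} {K : Type} [Field K] {t : K}

/-- the value of a piecewise rational function in coordinates -/
theorem coords [hq : Fact q.Prime] {κ : Type} {F : FF κ} (hF : PRF F)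
    {QF : Fin s → FF ((κ × Fin s) ⊕ Fin s)}
    (hQ : ∀ (k : Type) [Field k] (h : k[X]) [Fact (Irreducible h)], h.Monic → h.natDegree = s →
        ∀ z : κ × Fin s → k,
          F (AdjoinRoot h) (fun i => PRc.ext h fun l => z (i, l)) =
            PRc.ext h fun l => QF l k (Sum.elim z fun l => h.coeff l))
    (h : IsField q s b K t) (z : κ × Fin s → ℕ) :
    F K (fun i => elt t fun l => z (i, l)) = elt t (fun l => (QF l (ZMod q)
      (Sum.elim (fun j => (z j : ZMod q)) fun l => (b l : ZMod q))).val) := by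
  obtain ⟨hi, f, hf⟩ := h.iso
  have e := hQ (ZMod q) (hp q s b) hp_monic hp_deg fun j => (z j : ZMod q)
  have e1 := congrArg f e
  rw [prf_iso hF f] at e1
  have e2 : (fun i => f (PRc.ext (hp q s b) fun l => (z (i, l) : ZMod q))) =
      fun i => elt t fun l => z (i, l) := funext fun i => hf _
  rw [e2] at e1
  rw [e1, ← hf]
  congr 1
  unfold el
  congr 1
  funext l
  rw [ZMod.natCast_zmod_val]
  congr 2
  funext l
  exact (hp_coeff l).symm

theorem elt_inj [hq : Fact q.Prime] (h : IsField q s b K t) {x y : Fin s → ℕ}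
    (hx : ∀ l, x l < q) (hy : ∀ l, y l < q) (e : elt t x = elt t y) : x = y := by
  obtain ⟨hi, f, hf⟩ := h.iso
  rw [← hf, ← hf] at e
  have e0 : el (hp q s b) x = el (hp q s b) y := f.injective e
  unfold el at e0
  have e1 : (fun l => (x l : ZMod q)) = fun l => (y l : ZMod q) :=
    ext_inj (h := hp q s b) hp_monic hp_deg e0
  funext l
  have e2 : (x l : ZMod q) = (y l : ZMod q) := congrFun e1 l
  have e3 := congrArg ZMod.val e2
  rwa [ZMod.val_natCast, ZMod.val_natCast, Nat.mod_eq_of_lt (hx l), Nat.mod_eq_of_lt (hy l)] at e3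

theorem IsField.irr (h : IsField q s b K t) : Irr s q b := by
  obtain ⟨hi, -⟩ := h.iso
  exact ⟨h.prime, hi.out⟩

end

end Pool.Agent.H70G
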