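import Pool.Agent.H70G.Cd
import Pool.Agent.GOr.Fam

/-!
# Families of groups over prime fields with definable domain and equality have definable products
-/

set_option autoImplicit false

noncomputable section

namespace Pool.Agent.H70G

open Pool.Agent.PRc Pool.Agent.Grz Pool.Agent.ECD Pool.Agent.Cov Pool.Agent.PTr Pool.Agent.GOr
open scoped Classical

variable {r D e : ℕ} {Φ : Cd r D e}

/-- good parameters -/
structure Pt (Φ : Cd r D e) where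
  v : Fin r → ℕ
  good : Φ.Good v

/-- the prime -/
abbrev Pt.p (x : Pt Φ) : ℕ := Φ.p x.v

theorem Pt.rel (x : Pt Φ) : PRel (Φ.EE x.v) (Φ.FF x.v) := x.good.2.1

/-- `v` if `v` is good, and `x₀` otherwise -/
def pt (x₀ : Pt Φ) (v : Fin r → ℕ) : Pt Φ := if h : Φ.Good v then ⟨v, h⟩ else x₀

theorem pt_def (x₀ : Pt Φ) (i : Fin r) : DFun r (fun v => (pt x₀ v).v i) := by
  have h : DFun r (fun v => if Φ.Good v then v i else x₀.v i) :=
    DFun.ite Φ.good_def (DFun.proj i) (DFun.const _)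
  have e : (fun v => (pt x₀ v).v i) = (fun v => if Φ.Good v then v i else x₀.v i) := by
    funext v
    unfold pt
    split_ifs <;> rfl
  rw [e]
  exact h

theorem pt_comp (x₀ : Pt Φ) {m : ℕ} {σ : Fin r → (Fin m → ℕ) → ℕ} (hσ : ∀ i, DFun m (σ i))
    (i : Fin r) : DFun m (fun u => (pt x₀ fun j => σ j u).v i) := (pt_def x₀ i).comp hσ

/-- the group of the parameters -/
abbrev Pt.G (x : Pt Φ) : Type := x.rel.Q

instance (x : Pt Φ) : Group x.G := x.rel.group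

/-- the class of a vector -/
def Pt.cd (x : Pt Φ) (u : Fin D → ZMod x.p) : x.G :=
  if h : Φ.EE x.v u u then x.rel.cl u h else 1

theorem Pt.cd_eq (x : Pt Φ) {u w : Fin D → ZMod x.p} (h : Φ.EE x.v u w) : x.cd u = x.cd w := by
  have h1 := x.rel.left h
  have h2 := x.rel.left (x.rel.symm _ _ h)
  unfold Pt.cd
  rw [dif_pos h1, dif_pos h2]
  exact (x.rel.cl_eq _ _).2 h

theorem Pt.cd_iff (x : Pt Φ) {u w : Fin D → ZMod x.p} (h1 : Φ.EE x.v u u) (h2 : Φ.EE x.v w w) :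
    x.cd u = x.cd w ↔ Φ.EE x.v u w := by
  unfold Pt.cd
  rw [dif_pos h1, dif_pos h2]
  exact x.rel.cl_eq _ _

theorem Pt.cd_mul (x : Pt Φ) {u w : Fin D → ZMod x.p} (h1 : Φ.EE x.v u u) (h2 : Φ.EE x.v w w) :
    x.cd (Φ.FF x.v u w) = x.cd u * x.cd w := by
  unfold Pt.cd
  rw [dif_pos h1, dif_pos h2, dif_pos (x.rel.mem h1 h2), x.rel.mul_cl]

/-- the class of a vector with homogeneous coordinates -/
def Pt.cls (x : Pt Φ) (u : Fin (D + 1) → ZMod x.p) : x.G := x.cd (dh u)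

/-- the set of representatives -/
def Pt.X (x : Pt Φ) : Set (Fin (D + 1) → ZMod x.p) :=
  {u | ¬ u 0 = 0 ∧ Φ.EE x.v (dh u) (dh u)}

theorem dh_cons {k : Type} [Field k] (u : Fin D → k) :
    dh (Fin.cons (1 : k) u : Fin (D + 1) → k) = u := by
  funext i
  simp [dh]

theorem Pt.onto (x : Pt Φ) (g : x.G) : ∃ u ∈ x.X, x.cls u = g := by
  obtain ⟨u, hu, rfl⟩ := x.rel.ind g
  refine ⟨Fin.cons 1 u, ⟨?_, ?_⟩, ?_⟩
  · simp
  · rw [dh_cons]
    exact hu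
  · unfold Pt.cls Pt.cd
    rw [dh_cons, dif_pos hu]

theorem Pt.eq_iff (x : Pt Φ) (u w : Fin (D + 1) → ZMod x.p) :
    (u ∈ x.X ∧ w ∈ x.X ∧ x.cls u = x.cls w) ↔
      ((¬ u 0 = 0 ∧ ¬ w 0 = 0) ∧ Φ.EE x.v (dh u) (dh w)) := by
  constructor
  · rintro ⟨hu, hw, h⟩
    exact ⟨⟨hu.1, hw.1⟩, (x.cd_iff hu.2 hw.2).1 h⟩
  · rintro ⟨⟨h1, h2⟩, h3⟩
    exact ⟨⟨h1, x.rel.left h3⟩, ⟨h2, x.rel.left (x.rel.symm _ _ h3)⟩, x.cd_eq h3⟩

theorem Pt.law (x : Pt Φ) {u w t : Fin (D + 1) → ZMod x.p} (hu : u ∈ x.X) (hw : w ∈ x.X)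
    {z : ZMod x.p} (hz : z ≠ 0) (h : ∀ i, t i = z * LF Φ.F i (ZMod x.p)
      (Sum.elim u (Sum.elim w fun k => (Φ.c k x.v : ZMod x.p)))) :
    t ∈ x.X ∧ x.cls t = x.cls u * x.cls w := by
  have e1 : dh t = Φ.FF x.v (dh u) (dh w) := by
    rw [dh_smul hz h]
    funext i
    show LF Φ.F i.succ (ZMod x.p) (Sum.elim u (Sum.elim w fun k => (Φ.c k x.v : ZMod x.p))) *
      (LF Φ.F 0 (ZMod x.p) (Sum.elim u (Sum.elim w fun k => (Φ.c k x.v : ZMod x.p))))⁻¹ = _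
    have e2 : LF Φ.F 0 (ZMod x.p)
      (Sum.elim u (Sum.elim w fun k => (Φ.c k x.v : ZMod x.p))) = 1 := rfl
    rw [e2, inv_one, mul_one]
    rfl
  refine ⟨⟨?_, ?_⟩, ?_⟩
  · rw [h 0]
    have e2 : LF Φ.F 0 (ZMod x.p)
      (Sum.elim u (Sum.elim w fun k => (Φ.c k x.v : ZMod x.p))) = 1 := rfl
    rw [e2, mul_one]
    exact hz
  · rw [e1]
    exact x.rel.mem hu.2 hw.2
  · unfold Pt.cls
    rw [e1]
    exact x.cd_mul hu.2 hw.2

section

variable (x₀ : Pt Φ) {m : ℕ} {σ : Fin r → (Fin m → ℕ) → ℕ}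

theorem vd_dh (hσ : ∀ i, DFun m (σ i)) {z : (Fin m → ℕ) → ℕ} (hz : DFun m z) (i : Fin D) :
    DFun m (fun u => (dh (vc (Φ.p fun i => σ i u) (D + 1) (z u)) i).val) :=
  Φ.vd_prf hσ (H := fun _ _ x => x (Fin.succ i) * (x 0)⁻¹) ((PRF.var _).mul (PRF.var _).inv)
    (T := fun u => vc (Φ.p fun i => σ i u) (D + 1) (z u)) (Φ.vd_vc hσ hz)

theorem ne_def (hσ : ∀ i, DFun m (σ i)) {z : (Fin m → ℕ) → ℕ} (hz : DFun m z) :
    Delta0 m (fun u => ¬ vc (Φ.p fun i => σ i u) (D + 1) (z u) 0 = 0) :=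
  (Delta0.eqFun (Φ.vd_vc hσ hz (0 : Fin (D + 1))) (DFun.const 0)).not.of_iff fun _ =>
    not_congr (ZMod.val_eq_zero _).symm

theorem X_def (hσ : ∀ i, DFun m (σ i)) {z : (Fin m → ℕ) → ℕ} (hz : DFun m z) :
    Delta0 m (fun u => vc (pt x₀ fun j => σ j u).p (D + 1) (z u) ∈
      (pt x₀ fun j => σ j u).X) :=
  (ne_def (Φ := Φ) (pt_comp x₀ hσ) hz).and (Φ.ee_def (pt_comp x₀ hσ)
    (vd_dh (Φ := Φ) (pt_comp x₀ hσ) hz) (vd_dh (Φ := Φ) (pt_comp x₀ hσ) hz))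

theorem E_def (hσ : ∀ i, DFun m (σ i)) {z z' : (Fin m → ℕ) → ℕ} (hz : DFun m z)
    (hz' : DFun m z') :
    Delta0 m (fun u => vc (pt x₀ fun j => σ j u).p (D + 1) (z u) ∈
      (pt x₀ fun j => σ j u).X ∧ vc (pt x₀ fun j => σ j u).p (D + 1) (z' u) ∈
      (pt x₀ fun j => σ j u).X ∧
      (pt x₀ fun j => σ j u).cls (vc (pt x₀ fun j => σ j u).p (D + 1) (z u)) =
      (pt x₀ fun j => σ j u).cls (vc (pt x₀ fun j => σ j u).p (D + 1) (z' u))) :=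
  (((ne_def (Φ := Φ) (pt_comp x₀ hσ) hz).and (ne_def (Φ := Φ) (pt_comp x₀ hσ) hz')).and
    (Φ.ee_def (pt_comp x₀ hσ) (vd_dh (Φ := Φ) (pt_comp x₀ hσ) hz)
      (vd_dh (Φ := Φ) (pt_comp x₀ hσ) hz'))).of_iff fun _ => Pt.eq_iff _ _ _

/-- the family of groups -/
def fam {τ : ℕ} (T : Fin τ → MvPolynomial (Fin (D + 1) ⊕ Fin (D + 1) ⊕ Fin e) ℤ)
    (L : (Fin τ → Prop) → Law (D + 1) e)
    (hL : ∀ (k : Type) [Field k] (c : Fin e → k) (x y : Fin (D + 1) → k),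
      ∃ z : kˣ, ∀ i, (L (pat T c x y)).ev c x y i = z * LF Φ.F i k (Sum.elim x (Sum.elim y c))) :
    CovFam r (D + 1) e τ where
  G := fun v => (pt x₀ v).G
  grp := fun v => inferInstance
  m := fun v => (pt x₀ v).p
  hm := Φ.hp.comp (pt_def x₀)
  mpos := fun v => (Φ.pr _).pos
  c := fun k v => Φ.c k (pt x₀ v).v
  hc := fun k => (Φ.hc k).comp (pt_def x₀)
  X := fun v => (pt x₀ v).X
  cls := fun v => (pt x₀ v).cls
  onto := fun v => (pt x₀ v).onto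
  T := T
  F := L
  law := by
    intro v x y hx hy
    obtain ⟨z, hz⟩ := hL (ZMod (pt x₀ v).p) (fun k => (Φ.c k (pt x₀ v).v : ZMod (pt x₀ v).p)) x y
    exact (pt x₀ v).law hx hy z.ne_zero hz
  dX := X_def x₀ (σ := fun i w => w i.succ) (fun i => DFun.proj _) (z := fun w => w 0)
    (DFun.proj 0)
  dE := E_def x₀ (σ := fun i w => w i.succ.succ) (fun i => DFun.proj _) (z := fun w => w 0)
    (z' := fun w => w 1) (DFun.proj 0) (DFun.proj 1)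

end

end Pool.Agent.H70G
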