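import Mathlib

/-!
# Groups given by a partial equivalence relation and an operation

`PRel E F`: `E` is a partial equivalence relation and `F` induces on the classes the law of a group.
(`Pool.Agent.GOr.NRel` without the condition on the nilpotency class.)
-/

set_option autoImplicit false

namespace Pool.Agent.H70G

/-- `E` is a partial equivalence relation, `F` induces the law of a group. -/
structure PRel {V : Type} (E : V → V → Prop) (F : V → V → V) : Prop where
  symm : ∀ x y, E x y → E y x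
  trans : ∀ x y z, E x y → E y z → E x z
  compat : ∀ x x' y y', E x x' → E y y' → E (F x y) (F x' y')
  assoc : ∀ x y z, E x x → E y y → E z z → E (F (F x y) z) (F x (F y z))
  unit : ∃ e, E e e ∧ ∀ x, E x x → E (F e x) x ∧ ∃ y, E y y ∧ E (F y x) e

variable {V : Type} {E : V → V → Prop} {F : V → V → V}

theorem PRel.left (h : PRel E F) {x y : V} (e : E x y) : E x x :=
  h.trans _ _ _ e (h.symm _ _ e)

/-- the equivalence relation on the domain -/
def PRel.setoid (h : PRel E F) : Setoid {x : V // E x x} where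
  r x y := E x y
  iseqv := ⟨fun x => x.2, fun e => h.symm _ _ e, fun e f => h.trans _ _ _ e f⟩

/-- the group -/
def PRel.Q (h : PRel E F) : Type := Quotient h.setoid

theorem PRel.mem (h : PRel E F) {x y : V} (hx : E x x) (hy : E y y) : E (F x y) (F x y) :=
  h.compat _ _ _ _ hx hy

/-- the class of an element of the domain -/
def PRel.cl (h : PRel E F) (x : V) (hx : E x x) : h.Q := Quotient.mk h.setoid ⟨x, hx⟩

theorem PRel.cl_eq (h : PRel E F) {x y : V} (hx : E x x) (hy : E y y) :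
    h.cl x hx = h.cl y hy ↔ E x y :=
  ⟨fun e => Quotient.exact e, fun e => Quotient.sound e⟩

theorem PRel.ind (h : PRel E F) (q : h.Q) : ∃ x hx, h.cl x hx = q := by
  obtain ⟨⟨x, hx⟩, rfl⟩ := Quotient.exists_rep q
  exact ⟨x, hx, rfl⟩

/-- the law -/
def PRel.op (h : PRel E F) (p q : h.Q) : h.Q :=
  Quotient.map₂ (sa := h.setoid) (sb := h.setoid) (sc := h.setoid)
    (fun (x y : {x : V // E x x}) => (⟨F x y, h.mem x.2 y.2⟩ : {x : V // E x x}))
    (fun _ _ e _ _ f => h.compat _ _ _ _ e f) p q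

theorem PRel.op_cl (h : PRel E F) {x y : V} (hx : E x x) (hy : E y y) :
    h.op (h.cl x hx) (h.cl y hy) = h.cl (F x y) (h.mem hx hy) := rfl

/-- the neutral element -/
noncomputable def PRel.e (h : PRel E F) : h.Q := h.cl h.unit.choose h.unit.choose_spec.1

theorem PRel.exists_iv (h : PRel E F) (p : h.Q) : ∃ q, h.op q p = h.e := by
  obtain ⟨x, hx, rfl⟩ := h.ind p
  obtain ⟨y, hy, e⟩ := (h.unit.choose_spec.2 x hx).2
  exact ⟨h.cl y hy, (h.cl_eq _ _).2 e⟩

noncomputable instance PRel.group (h : PRel E F) : Group h.Q :=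
  letI : Mul h.Q := ⟨h.op⟩
  letI : One h.Q := ⟨h.e⟩
  letI : Inv h.Q := ⟨fun p => (h.exists_iv p).choose⟩
  Group.ofLeftAxioms
    (by
      intro a b c
      obtain ⟨x, hx, rfl⟩ := h.ind a
      obtain ⟨y, hy, rfl⟩ := h.ind b
      obtain ⟨z, hz, rfl⟩ := h.ind c
      exact (h.cl_eq _ _).2 (h.assoc x y z hx hy hz))
    (by
      intro a
      obtain ⟨x, hx, rfl⟩ := h.ind a
      exact (h.cl_eq _ _).2 (h.unit.choose_spec.2 x hx).1)
    (fun a => (h.exists_iv a).choose_spec)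

theorem PRel.mul_cl (h : PRel E F) {x y : V} (hx : E x x) (hy : E y y) :
    h.cl x hx * h.cl y hy = h.cl (F x y) (h.mem hx hy) := rfl

/-- A group with representatives defines such a relation. -/
theorem prel_of {G : Type} [Group G] (cls : V → G)
    (h1 : ∀ g, ∃ x, E x x ∧ cls x = g)
    (h2 : ∀ x y, E x x → E y y → E (F x y) (F x y) ∧ cls (F x y) = cls x * cls y)
    (h3 : ∀ x y, E x y ↔ E x x ∧ E y y ∧ cls x = cls y) : PRel E F where
  symm x y e := by
    obtain ⟨a, b, c⟩ := (h3 x y).1 e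
    exact (h3 y x).2 ⟨b, a, c.symm⟩
  trans x y z e f := by
    obtain ⟨a, b, c⟩ := (h3 x y).1 e
    obtain ⟨a', b', c'⟩ := (h3 y z).1 f
    exact (h3 x z).2 ⟨a, b', c.trans c'⟩
  compat x x' y y' e f := by
    obtain ⟨a, b, c⟩ := (h3 x x').1 e
    obtain ⟨a', b', c'⟩ := (h3 y y').1 f
    refine (h3 _ _).2 ⟨(h2 x y a a').1, (h2 x' y' b b').1, ?_⟩
    rw [(h2 x y a a').2, (h2 x' y' b b').2, c, c']
  assoc x y z hx hy hz := by
    have a := h2 x y hx hy
    have b := h2 y z hy hz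
    refine (h3 _ _).2 ⟨(h2 _ _ a.1 hz).1, (h2 _ _ hx b.1).1, ?_⟩
    rw [(h2 _ _ a.1 hz).2, (h2 _ _ hx b.1).2, a.2, b.2, mul_assoc]
  unit := by
    obtain ⟨e, he, e1⟩ := h1 1
    refine ⟨e, he, fun x hx => ⟨?_, ?_⟩⟩
    · refine (h3 _ _).2 ⟨(h2 _ _ he hx).1, hx, ?_⟩
      rw [(h2 _ _ he hx).2, e1, one_mul]
    · obtain ⟨y, hy, e2⟩ := h1 (cls x)⁻¹
      refine ⟨y, hy, (h3 _ _).2 ⟨(h2 _ _ hy hx).1, he, ?_⟩⟩
      rw [(h2 _ _ hy hx).2, e1, e2, inv_mul_cancel]

/-- The group given by the relation is the given group. -/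
theorem PRel.iso (h : PRel E F) {G : Type} [Group G] (cls : V → G)
    (h1 : ∀ g, ∃ x, E x x ∧ cls x = g)
    (h2 : ∀ x y, E x x → E y y → E (F x y) (F x y) ∧ cls (F x y) = cls x * cls y)
    (h3 : ∀ x y, E x y ↔ E x x ∧ E y y ∧ cls x = cls y) :
    ∃ f : h.Q ≃* G, ∀ x hx, f (h.cl x hx) = cls x := by
  let f : h.Q → G := fun q => Quotient.lift
    (fun x : {x : V // E x x} => cls x) (fun x y e => ((h3 _ _).1 e).2.2) q
  have hf : ∀ x hx, f (h.cl x hx) = cls x := fun x hx => rfl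
  have hb : Function.Bijective f := by
    refine ⟨?_, ?_⟩
    · intro a b e
      obtain ⟨x, hx, rfl⟩ := h.ind a
      obtain ⟨y, hy, rfl⟩ := h.ind b
      rw [hf, hf] at e
      exact (h.cl_eq _ _).2 ((h3 _ _).2 ⟨hx, hy, e⟩)
    · intro g
      obtain ⟨x, hx, e⟩ := h1 g
      exact ⟨h.cl x hx, e⟩
  have hm : ∀ a b, f (a * b) = f a * f b := by
    intro a b
    obtain ⟨x, hx, rfl⟩ := h.ind a
    obtain ⟨y, hy, rfl⟩ := h.ind b
    rw [h.mul_cl, hf, hf, hf, (h2 x y hx hy).2]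
  exact ⟨MulEquiv.ofBijective (MulHom.mk f hm) hb, hf⟩

end Pool.Agent.H70G
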