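import Pool.Agent.H70G.TopIter
import Pool.Agent.ApC.Params

/-!
# Iterates of doubly exponential length
-/

set_option autoImplicit false

noncomputable section

namespace Pool.Agent.H70G

open Pool.Agent.PRc Pool.Agent.Grz Pool.Agent.ECD Pool.Agent.Cov Pool.Agent.FOG Pool.Agent.GOr
open scoped Classical

/-- the least solution -/
theorem find_def {n : ℕ} {b : (Fin n → ℕ) → ℕ} (hb : DFun n b)
    {C : ℕ → (Fin n → ℕ) → Prop} (hC : Delta0 (n + 1) (fun w => C (w 0) (fun i => w i.succ))) :
    ∃ u : (Fin n → ℕ) → ℕ, DFun n u ∧ (∀ v, u v ≤ b v) ∧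
      ∀ v, (∃ x, x ≤ b v ∧ C x v) → C (u v) v := by
  classical
  let u : (Fin n → ℕ) → ℕ := fun v => if h : ∃ x, x ≤ b v ∧ C x v then Nat.find h else 0
  have hu : ∀ v, u v ≤ b v := by
    intro v
    by_cases h : ∃ x, x ≤ b v ∧ C x v
    · simp only [u, dif_pos h]
      exact (Nat.find_spec h).1
    · simp only [u, dif_neg h]
      exact Nat.zero_le _
  refine ⟨u, DFun.ofGraph hb hu ?_, hu, fun v h => ?_⟩
  · have h0 : DFun (n + 1) (fun w => w 0) := DFun.proj 0
    have hC2 : Delta0 (n + 1 + 1) (fun w => w 0 = w 1 ∨ ¬ C (w 0) (fun i => w i.succ.succ)) := by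
      refine (Delta0.eqFun (DFun.proj 0) (DFun.proj 1)).or (Delta0.not ?_)
      have h1 := hC.rename (n := n + 1 + 1) (Fin.cons 0 fun i => i.succ.succ)
      exact h1
    have hC3 : Delta0 (n + 1 + 1) (fun w => C (w 0) (fun i => w i.succ.succ)) := by
      have h1 := hC.rename (n := n + 1 + 1) (Fin.cons 0 fun i => i.succ.succ)
      exact h1
    have hA := ((Delta0.leFun h0 hb.weak).and hC).and
      (Delta0.ballFun (n := n + 1) (b := fun w => w 0)
        (P := fun x w => x = w 0 ∨ ¬ C x (fun i => w i.succ)) h0 hC2)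
    have hB := (Delta0.eqFun h0 (DFun.const 0)).and
      (Delta0.bexFun (n := n + 1) (b := fun w => b (fun i => w i.succ))
        (P := fun x w => C x (fun i => w i.succ)) hb.weak hC3).not
    refine (hA.or hB).of_iff fun w => ?_
    by_cases h : ∃ x, x ≤ b (fun i => w i.succ) ∧ C x (fun i => w i.succ)
    · have hu1 : u (fun i => w i.succ) = Nat.find h := dif_pos h
      rw [hu1]
      constructor
      · intro e
        rw [e]
        refine Or.inl ⟨Nat.find_spec h, fun x hx => ?_⟩
        rcases hx.lt_or_eq with h2 | h2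
        · right
          intro h3
          exact Nat.find_min h h2 ⟨h2.le.trans (Nat.find_spec h).1, h3⟩
        · exact Or.inl h2
      · rintro (⟨⟨h1, h2⟩, h3⟩ | ⟨-, h2⟩)
        · refine le_antisymm ?_ (Nat.find_min' h ⟨h1, h2⟩)
          by_contra h4
          push Not at h4
          rcases h3 _ h4.le with h5 | h5
          · exact h4.ne h5
          · exact h5 (Nat.find_spec h).2
        · exact absurd h h2
    · have hu1 : u (fun i => w i.succ) = 0 := dif_neg h
      rw [hu1]
      constructor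
      · intro e
        exact Or.inr ⟨e, h⟩
      · rintro (⟨⟨h1, h2⟩, -⟩ | ⟨e, -⟩)
        · exact absurd ⟨_, h1, h2⟩ h
        · exact e
  · simp only [u, dif_pos h]
    exact (Nat.find_spec h).2

theorem min_pow_def {n : ℕ} {a t M : (Fin n → ℕ) → ℕ} (ha : DFun n a) (ht : DFun n t)
    (hM : DFun n M) : DFun n (fun u => min (a u ^ t u) (M u)) := by
  have hc : DFun n fun u => Nat.clog (a u) (M u) := DFun.comp2 ApC.clog_def ha hM
  have hb : ∀ u, a u ^ min (t u) (Nat.clog (a u) (M u)) ≤ a u * M u + 1 := by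
    intro u
    by_cases h1 : a u ≤ 1
    · rw [Nat.clog_of_left_le_one h1, Nat.min_zero, pow_zero]
      exact Nat.le_add_left _ _
    · by_cases h2 : M u ≤ 1
      · rw [Nat.clog_of_right_le_one h2, Nat.min_zero, pow_zero]
        exact Nat.le_add_left _ _
      · have h3 := Nat.pow_pred_clog_lt_self (b := a u) (by omega) (x := M u) (by omega)
        have h4 := Nat.clog_pos (b := a u) (n := M u) (by omega) (by omega)
        calc a u ^ min (t u) (Nat.clog (a u) (M u)) ≤ a u ^ Nat.clog (a u) (M u) :=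
              Nat.pow_le_pow_right (by omega) (Nat.min_le_right _ _)
          _ = a u * a u ^ (Nat.clog (a u) (M u)).pred := by
              rw [← Nat.pow_succ', Nat.succ_pred_eq_of_pos h4]
          _ ≤ a u * M u + 1 := (Nat.mul_le_mul_left _ h3.le).trans (Nat.le_succ _)
  have hq := DFun.ite (Delta0.leFun ha (DFun.const 1))
    (DFun.ite (Delta0.eqFun ht (DFun.const 0)) (DFun.const 1) ha)
    (ApC.pow_def ha (DFun.min ht hc) ((ha.mul hM).add (DFun.const 1)) hb)
  refine dfun_congr (DFun.min hq hM) fun u => ?_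
  by_cases h1 : a u ≤ 1
  · rw [if_pos h1]
    congr 1
    rcases Nat.eq_zero_or_pos (t u) with h2 | h2
    · rw [if_pos h2, h2, pow_zero]
    · rw [if_neg h2.ne']
      rcases (show a u = 0 ∨ a u = 1 by omega) with h3 | h3
      · rw [h3, zero_pow h2.ne']
      · rw [h3, one_pow]
  · rw [if_neg h1]
    rcases Nat.le_total (t u) (Nat.clog (a u) (M u)) with h2 | h2
    · rw [Nat.min_eq_left h2]
    · rw [Nat.min_eq_right h2]
      have h3 := Nat.le_pow_clog (b := a u) (by omega) (M u)
      have h4 : a u ^ Nat.clog (a u) (M u) ≤ a u ^ t u := Nat.pow_le_pow_right (by omega) h2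
      rw [Nat.min_eq_right (h3.trans h4), Nat.min_eq_right h3]

private theorem exists_per {G : Type} [Finite G] (h : G → G) (x : G) {M : ℕ}
    (hM : Nat.card G ≤ M) : ∃ P, P ≤ M ∧ h^[M + (P + 1)] x = h^[M] x := by
  have : ∃ i j : Fin (M + 1), i < j ∧ h^[i] x = h^[j] x := by
    by_contra hc
    push Not at hc
    have hinj : Function.Injective fun i : Fin (M + 1) => h^[i] x := by
      intro i j hij
      rcases lt_trichotomy i j with h1 | h1 | h1
      · exact absurd hij (hc i j h1)
      · exact h1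
      · exact absurd hij.symm (hc j i h1)
    have := Nat.card_le_card_of_injective _ hinj
    rw [Nat.card_fin] at this
    omega
  obtain ⟨i, j, hij, e⟩ := this
  have h1 : (i : ℕ) < j := hij
  have h2 := j.2
  refine ⟨j - i - 1, by omega, ?_⟩
  rw [show M + ((j : ℕ) - i - 1 + 1) = (M - i) + j by omega, Function.iterate_add_apply, ← e,
    ← Function.iterate_add_apply]
  congr 2
  omega

private theorem iter_mod {G : Type} (h : G → G) (x : G) {M Q n : ℕ} (hQ : 0 < Q)
    (hp : h^[M + Q] x = h^[M] x) (hn : M ≤ n) :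
    h^[M + (n % Q + (Q - M % Q)) % Q] x = h^[n] x := by
  obtain ⟨k, rfl⟩ := Nat.exists_eq_add_of_le hn
  have hper : Function.IsPeriodicPt h Q (h^[M] x) := by
    show h^[Q] (h^[M] x) = h^[M] x
    rw [← Function.iterate_add_apply, Nat.add_comm]
    exact hp
  have e : ((M + k) % Q + (Q - M % Q)) % Q = k % Q := by
    have h1 : M % Q < Q := Nat.mod_lt _ hQ
    have h2 : ((M + k) % Q + (Q - M % Q)) % Q = ((M + k) + (Q - M % Q)) % Q := Nat.mod_add_mod _ _ _
    rw [h2]
    have h3 := Nat.div_add_mod M Q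
    have h4 : M + k + (Q - M % Q) = k + Q * (M / Q + 1) := by
      rw [Nat.mul_add, Nat.mul_one]
      omega
    rw [h4, Nat.add_mul_mod_self_left]
  rw [e, Nat.add_comm, Function.iterate_add_apply, hper.iterate_mod_apply,
    ← Function.iterate_add_apply, Nat.add_comm]

variable {n s d k : ℕ}

private theorem surj {Φ : Fmt n s d k} {v : Fin (n + 1) → ℕ} {K : Type} [Field K] {t : K}
    {G : Type} [Group G] {cls : (Fin d × Fin s → ℕ) → G} (h : Φ.Pres v K t G cls) :
    Function.Surjective (fun x : Fin d × Fin s → Fin (v 0) => cls fun j => (x j : ℕ)) := by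
  intro g
  obtain ⟨x, hx, rfl⟩ := h.onto g
  exact ⟨fun j => ⟨x j, hx.1 j⟩, rfl⟩

private theorem card_bd {Φ : Fmt n s d k} {v : Fin (n + 1) → ℕ} {K : Type} [Field K] {t : K}
    {G : Type} [Group G] {cls : (Fin d × Fin s → ℕ) → G} (h : Φ.Pres v K t G cls) :
    Nat.card G ≤ v 0 ^ (d * s) := by
  refine (Nat.card_le_card_of_surjective _ (surj h)).trans (le_of_eq ?_)
  rw [Nat.card_fun, Nat.card_eq_fintype_card, Fintype.card_fin, Nat.card_eq_fintype_card,
    Fintype.card_prod, Fintype.card_fin, Fintype.card_fin]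

/-- **Iterates of definable affine maps of doubly exponential length.** -/
theorem top_iter2 (Φ : Fmt n s d k) (κ : ℕ) (m : ℕ) (σ : Fin (n + 1) → (Fin m → ℕ) → ℕ)
    (H : Fin d × Fin s → (Fin m ⊕ Fin d × Fin s → ℕ) → ℕ) (x : Fin d × Fin s → (Fin m → ℕ) → ℕ)
    (b t : (Fin m → ℕ) → ℕ) (hσ : ∀ i, DFun m (σ i)) (hH : ∀ j, DMap (H j))
    (hx : ∀ j, DFun m (x j)) (hb : DFun m b) (ht : DFun m t) :
    ∃ Z : Fin d × Fin s → (Fin m → ℕ) → ℕ, (∀ j, DFun m (Z j)) ∧
      ∀ (u : Fin m → ℕ) (K : Type) [Field K] (a : K) (G : Type) [Group G]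
        (cls : (Fin d × Fin s → ℕ) → G), Φ.Pres (fun i => σ i u) K a G cls → AbGen κ G →
        ∀ h : G → G, IsAff h →
        (∀ y ∈ Φ.Dom (fun i => σ i u), (fun j => H j (Sum.elim u y)) ∈ Φ.Dom (fun i => σ i u) ∧
          cls (fun j => H j (Sum.elim u y)) = h (cls y)) →
        (fun j => x j u) ∈ Φ.Dom (fun i => σ i u) →
        (fun j => Z j u) ∈ Φ.Dom (fun i => σ i u) ∧
          cls (fun j => Z j u) = h^[b u ^ t u] (cls fun j => x j u) := by
  obtain ⟨Z0, hZ0, h1⟩ := top_iter Φ κ (m + 1) (fun i w => σ i fun j => w j.succ)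
    (fun j w => H j (Sum.elim (fun i => w (.inl i.succ)) fun i => w (.inr i)))
    (fun j w => x j fun i => w i.succ) (fun w => w 0) (fun i => (hσ i).weak)
    (fun j => DMap.of fun {n' g} hg => by
      refine dfun_congr ((hH j).subst (g := Sum.elim (fun i => g (.inl i.succ))
        fun i => g (.inr i)) ?_) fun v => congrArg (H j) (funext ?_)
      · rintro (i | i)
        · exact hg _
        · exact hg _
      · rintro (i | i) <;> rfl) (fun j => (hx j).weak) (DFun.proj 0)
  have hZ1 : ∀ {m' : ℕ} {τ : (Fin m' → ℕ) → ℕ} {ρ : Fin m → (Fin m' → ℕ) → ℕ} (j : Fin d × Fin s),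
      DFun m' τ → (∀ i, DFun m' (ρ i)) →
      DFun m' fun w => Z0 j (Fin.cons (τ w) fun i => ρ i w) := by
    intro m' τ ρ j hτ hρ
    refine dfun_congr ((hZ0 j).comp (h := Fin.cons τ ρ) fun i => ?_) fun w =>
      congrArg (Z0 j) (funext fun i => ?_)
    · refine Fin.cases ?_ (fun i => ?_) i
      · exact hτ
      · exact hρ i
    · refine Fin.cases ?_ (fun i => ?_) i <;> rfl
  obtain ⟨M, hMe⟩ : ∃ M : (Fin m → ℕ) → ℕ, M = fun u => σ 0 u ^ (d * s) := ⟨_, rfl⟩
  have hM : DFun m M := by
    rw [hMe]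
    exact PTr.DFun.powConst (hσ 0) _
  obtain ⟨per, hper, hperle, hperR⟩ := find_def (n := m) (b := M) hM
    (C := fun P u => Φ.E (Sum.elim (fun i => σ i u) (Sum.elim
      (fun j => Z0 j (Fin.cons (M u + (P + 1)) u)) fun j => Z0 j (Fin.cons (M u) u)))) (by
      have h2 := DRel.subst Φ.E_def (n := m + 1) (f := Sum.elim
        (fun i w => σ i fun i => w i.succ) (Sum.elim
        (fun j w => Z0 j (Fin.cons (M (fun i => w i.succ) + (w 0 + 1)) fun i => w i.succ))
        fun j w => Z0 j (Fin.cons (M fun i => w i.succ) fun i => w i.succ))) (by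
          rintro (i | j | j)
          · exact (hσ i).weak
          · exact hZ1 j (hM.weak.add ((DFun.proj 0).add (DFun.const 1))) fun i => DFun.proj _
          · exact hZ1 j hM.weak fun i => DFun.proj _)
      refine h2.of_iff fun w => iff_of_eq (congrArg Φ.E (funext ?_))
      rintro (i | j | j) <;> rfl)
  obtain ⟨N, hNe⟩ : ∃ N : (Fin m → ℕ) → ℕ, N = fun u =>
    if M u ≤ min (b u ^ t u) (M u) then M u + (b u ^ t u % (per u + 1) + (per u + 1 - M u % (per u + 1)))
      % (per u + 1) else min (b u ^ t u) (M u) := ⟨_, rfl⟩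
  have hN : DFun m N := by
    rw [hNe]
    have hQ : DFun m fun u => per u + 1 := hper.add (DFun.const 1)
    exact DFun.ite (Delta0.leFun hM (min_pow_def hb ht hM))
      (hM.add (DFun.mod ((pow_mod_def hb ht hQ fun _ => Nat.succ_pos _).add
        (hQ.sub (DFun.mod hM hper))) hper)) (min_pow_def hb ht hM)
  refine ⟨fun j u => Z0 j (Fin.cons (N u) u), fun j => hZ1 j hN fun i => DFun.proj i, ?_⟩
  intro u K _ a G _ cls hP hA h hh hHh hxu
  have h2 := fun τ => h1 (Fin.cons τ u) K a G cls hP hA h hh hHh hxu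
  refine ⟨(h2 _).1, (h2 _).2.trans ?_⟩
  show h^[N u] (cls fun j => x j u) = h^[b u ^ t u] (cls fun j => x j u)
  have h3 : ∀ τ, cls (fun j => Z0 j (Fin.cons τ u)) = h^[τ] (cls fun j => x j u) :=
    fun τ => (h2 τ).2
  have hcard : Nat.card G ≤ M u := by
    rw [hMe]
    exact card_bd hP
  have hGf : Finite G := Finite.of_surjective _ (surj hP)
  have h4 : h^[M u + (per u + 1)] (cls fun j => x j u) = h^[M u] (cls fun j => x j u) := by
    obtain ⟨P, hPM, hPe⟩ := exists_per h (cls fun j => x j u) hcard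
    have h5 := hperR u ⟨P, hPM, (hP.eq _ (h2 _).1 _ (h2 _).1).2 (by rw [h3, h3, hPe])⟩
    have h6 := (hP.eq _ (h2 _).1 _ (h2 _).1).1 h5
    rwa [h3, h3] at h6
  rw [hNe]
  dsimp only
  by_cases hc : M u ≤ min (b u ^ t u) (M u)
  · rw [if_pos hc]
    exact iter_mod h _ (Nat.succ_pos _) h4 (hc.trans (Nat.min_le_left _ _))
  · rw [if_neg hc, Nat.min_eq_left]
    by_contra h5
    push Not at h5
    exact hc (Nat.le_min.2 ⟨h5.le, le_rfl⟩)

end Pool.Agent.H70G
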