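import Pool.Agent.H70G.Wt

/-!
# Sections of linear groups over finite fields are tame
-/

set_option autoImplicit false

namespace Pool.Agent.H70G

open Module

private theorem cyc_bot {G : Type} [Group G] : Cyc 0 (fun x : G => x ∈ (⊥ : Subgroup G)) :=
  fun _ => Subgroup.mem_bot

/-- All `l`-subgroups of `GL r K`, `K` with `p ^ s` elements, are products of a bounded number of
cyclic subgroups. -/
theorem cyc_linear {r s p l : ℕ} (hp : p.Prime) [hlf : Fact l.Prime] {K : Type} [Field K]
    [Finite K] (hK : Nat.card K = p ^ s) {P : Type} [Group P] (hl : IsPGroup l P)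
    (i : P →* GL (Fin r) K) (hi : Function.Injective i) :
    Cyc (s * (r * r) + (r + r ^ r)) (fun _ : P => True) := by
  have hfin : Finite P := Finite.of_injective i hi
  by_cases hlp : l = p
  · subst hlp
    obtain ⟨m, hm⟩ := IsPGroup.iff_card.1 hl
    have h1 : Nat.card P ≤ l ^ (s * (r * r)) := by
      have h2 : Function.Injective fun x : P => ((i x : GL (Fin r) K) : Matrix (Fin r) (Fin r) K) :=
        fun x y h => hi (Units.ext h)
      refine (Nat.card_le_card_of_injective _ h2).trans (le_of_eq ?_)
      show Nat.card (Fin r → Fin r → K) = _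
      rw [Nat.card_fun, Nat.card_fun, hK, Nat.card_fin, ← pow_mul, ← pow_mul]
    rw [hm] at h1
    have h3 : m ≤ s * (r * r) := (Nat.pow_le_pow_iff_right hp.one_lt).1 h1
    refine (Cyc.chain (l := l) m (m := 0) (n := 0) (⊥ : Subgroup P) ?_ ?_ cyc_bot).mono ?_
    · rw [Subgroup.card_bot, pow_zero]
    · rw [hm, zero_add]
    · omega
  · let L := AlgebraicClosure K
    have hpK : ((p : ℕ) : K) = 0 := by
      have : Fintype K := Fintype.ofFinite K
      have h1 := FiniteField.cast_card_eq_zero K
      rw [← Nat.card_eq_fintype_card, hK, Nat.cast_pow] at h1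
      exact eq_zero_of_pow_eq_zero h1
    have hlK : ((l : ℕ) : K) ≠ 0 := by
      intro h
      obtain ⟨q, hq⟩ := CharP.exists K
      have h1 : q ∣ l := (CharP.cast_eq_zero_iff K q l).1 h
      have h2 : q ∣ p := (CharP.cast_eq_zero_iff K q p).1 hpK
      have h3 : q ∣ 1 := by
        have := Nat.dvd_gcd h1 h2
        rwa [(Nat.coprime_primes hlf.out hp).2 hlp] at this
      have h4 : ((1 : ℕ) : K) = 0 := (CharP.cast_eq_zero_iff K q 1).2 h3
      rw [Nat.cast_one] at h4
      exact one_ne_zero h4
    have hlL : ((l : ℕ) : L) ≠ 0 := by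
      intro h
      apply hlK
      apply (algebraMap K L).injective
      rw [map_natCast, h, map_zero]
    let f : P →* Module.End L (Fin r → L) :=
      ((Matrix.toLinAlgEquiv' (R := L) (n := Fin r)).toAlgHom.toRingHom.toMonoidHom.comp
        ((RingHom.mapMatrix (m := Fin r) (algebraMap K L)).toMonoidHom.comp
          ((Units.coeHom (Matrix (Fin r) (Fin r) K)).comp i)))
    have hf : Function.Injective f := by
      intro x y h
      have h1 : Matrix.toLinAlgEquiv' (R := L) (n := Fin r)
          ((i x : Matrix (Fin r) (Fin r) K).map (algebraMap K L)) =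
          Matrix.toLinAlgEquiv' ((i y : Matrix (Fin r) (Fin r) K).map (algebraMap K L)) := h
      have h2 := (Matrix.toLinAlgEquiv' (R := L) (n := Fin r)).injective h1
      have h3 : (i x : Matrix (Fin r) (Fin r) K) = i y :=
        Matrix.map_injective (algebraMap K L).injective h2
      exact hi (Units.ext h3)
    have h5 := cyc_of_rep hl hlL f hf
    rw [Module.finrank_fin_fun] at h5
    exact h5.mono (Nat.le_add_left _ _)

/-- **Sections of linear groups over finite fields are tame.** -/
theorem tame_linear (r s : ℕ) : ∃ κ : ℕ, ∀ (p : ℕ) (K : Type) [Field K], p.Prime →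
    Nat.card K = p ^ s → ∀ (H : Subgroup (GL (Fin r) K)) (G : Type) [Group G] (φ : H →* G),
    Function.Surjective φ → Tame κ G := by
  refine ⟨s * (r * r) + (r + r ^ r), fun p K _ hp hK H G _ φ hφ l hl => ?_⟩
  have : Fact l.Prime := ⟨hl⟩
  have hKf : Finite K := Nat.finite_of_card_ne_zero (by rw [hK]; exact (pow_pos hp.pos s).ne')
  have hGf : Finite G := Finite.of_surjective φ hφ
  let P : Sylow l H := default
  have h1 := cyc_linear (r := r) hp hK P.isPGroup' (H.subtype.comp (P : Subgroup H).subtype)
    (by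
      rw [MonoidHom.coe_comp]
      exact H.subtype_injective.comp (P : Subgroup H).subtype_injective)
  obtain ⟨g, hg⟩ := h1.pc
  refine ⟨P.mapSurjective hφ, Or.inr ⟨fun i => φ (g i), fun x => ?_⟩⟩
  have e1 : ∀ e : Fin (s * (r * r) + (r + r ^ r)) → ℕ,
      (List.ofFn fun i => φ (g i) ^ e i).prod = φ ((List.ofFn fun i => g i ^ e i).prod : P) := by
    intro e
    have h2 : φ ((List.ofFn fun i => g i ^ e i).prod : P) =
        (φ.comp (P : Subgroup H).subtype) (List.ofFn fun i => g i ^ e i).prod := rfl
    rw [h2, map_list_prod, List.map_ofFn]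
    congr 1
    refine congrArg List.ofFn (funext fun i => ?_)
    show φ (g i) ^ e i = (φ.comp (P : Subgroup H).subtype) (g i ^ e i)
    rw [map_pow]
    rfl
  have e2 : x ∈ P.mapSurjective hφ ↔ ∃ y ∈ P, φ y = x := by
    show x ∈ ((P.mapSurjective hφ : Sylow l G) : Subgroup G) ↔ _
    rw [Sylow.coe_mapSurjective]
    rfl
  rw [e2]
  constructor
  · rintro ⟨y, hy, rfl⟩
    obtain ⟨e, he⟩ := (hg ⟨y, hy⟩).1 trivial
    exact ⟨e, by rw [e1, he]⟩
  · rintro ⟨e, he⟩
    rw [e1] at he
    exact ⟨_, Subtype.mem _, he⟩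

end Pool.Agent.H70G
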