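import Pool.Agent.Cov.Defs
import Pool.Agent.ECD.IntTree

/-!
# Families of monoids whose elements are represented by vectors over `ℤ/m`

The same as `Pool.Agent.Cov.CovFam`, for monoids.
-/

set_option autoImplicit false

namespace Pool.Agent.H70G

open Finset Pool.Agent.Grz Pool.Agent.GAvg Pool.Agent.PTr Pool.Agent.MTr Pool.Agent.LPC
  Pool.Agent.ECD Pool.Agent.Cov

/-- A family of monoids whose elements are represented, not uniquely, by vectors over `ℤ/m`. -/
structure CovMon (r d e τ : ℕ) where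
  /-- the monoids -/
  G : (Fin r → ℕ) → Type
  grp : ∀ v, Monoid (G v)
  /-- the modulus -/
  m : (Fin r → ℕ) → ℕ
  hm : DFun r m
  mpos : ∀ v, 0 < m v
  /-- the parameters -/
  c : Fin e → (Fin r → ℕ) → ℕ
  hc : ∀ k, DFun r (c k)
  /-- the representatives -/
  X : ∀ v, Set (Fin d → ZMod (m v))
  /-- the element that is represented by a vector -/
  cls : ∀ v, (Fin d → ZMod (m v)) → G v
  onto : ∀ v g, ∃ x ∈ X v, cls v x = g
  /-- the polynomials which determine the piece -/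
  T : Fin τ → MvPolynomial (Fin d ⊕ Fin d ⊕ Fin e) ℤ
  /-- the law on the pieces -/
  F : (Fin τ → Prop) → Law d e
  law : ∀ v (x y : Fin d → ZMod (m v)), x ∈ X v → y ∈ X v →
    (F (pat T (fun k => (c k v : ZMod (m v))) x y)).ev (fun k => (c k v : ZMod (m v))) x y ∈ X v ∧
    cls v ((F (pat T (fun k => (c k v : ZMod (m v))) x y)).ev
      (fun k => (c k v : ZMod (m v))) x y) = (letI := grp v; cls v x * cls v y)
  /-- the codes of representatives are definable -/
  dX : Delta0 (r + 1) (fun w => vc (m fun i => w i.succ) d (w 0) ∈ X (fun i => w i.succ))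
  /-- equality of classes of representatives is definable -/
  dE : Delta0 (r + 1 + 1) (fun w =>
    vc (m fun i => w i.succ.succ) d (w 0) ∈ X (fun i => w i.succ.succ) ∧
    vc (m fun i => w i.succ.succ) d (w 1) ∈ X (fun i => w i.succ.succ) ∧
    cls (fun i => w i.succ.succ) (vc (m fun i => w i.succ.succ) d (w 0)) =
      cls (fun i => w i.succ.succ) (vc (m fun i => w i.succ.succ) d (w 1)))

attribute [instance] CovMon.grp

variable {r d e τ : ℕ} (Φ : CovMon r d e τ)

theorem CovMon.exists_code (v : Fin r → ℕ) (g : Φ.G v) :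
    ∃ z, vc (Φ.m v) d z ∈ Φ.X v ∧ Φ.cls v (vc (Φ.m v) d z) = g := by
  obtain ⟨x, hx, h⟩ := Φ.onto v g
  refine ⟨vcode x, ?_⟩
  rw [vc_vcode (Φ.mpos v)]
  exact ⟨hx, h⟩

open scoped Classical in
/-- the code of an element: the least code of a representative -/
noncomputable def CovMon.enc (v : Fin r → ℕ) (g : Φ.G v) : ℕ := Nat.find (Φ.exists_code v g)

theorem CovMon.enc_spec (v : Fin r → ℕ) (g : Φ.G v) : vc (Φ.m v) d (Φ.enc v g) ∈ Φ.X v ∧
    Φ.cls v (vc (Φ.m v) d (Φ.enc v g)) = g := by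
  classical
  unfold CovMon.enc
  convert Nat.find_spec (Φ.exists_code v g)

theorem CovMon.enc_min (v : Fin r → ℕ) (g : Φ.G v) {z : ℕ} (h1 : vc (Φ.m v) d z ∈ Φ.X v)
    (h2 : Φ.cls v (vc (Φ.m v) d z) = g) : Φ.enc v g ≤ z := by
  classical
  unfold CovMon.enc
  convert Nat.find_min' (Φ.exists_code v g) ⟨h1, h2⟩

theorem CovMon.enc_inj (v : Fin r → ℕ) : Function.Injective (Φ.enc v) := by
  intro g h e
  rw [← (Φ.enc_spec v g).2, ← (Φ.enc_spec v h).2, e]

theorem CovMon.enc_lt (v : Fin r → ℕ) (g : Φ.G v) : Φ.enc v g < Φ.m v ^ d := by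
  obtain ⟨x, hx, h⟩ := Φ.onto v g
  refine (Φ.enc_min v g (z := vcode x) ?_ ?_).trans_lt (vcode_lt (Φ.mpos v) x)
  · rwa [vc_vcode (Φ.mpos v)]
  · rwa [vc_vcode (Φ.mpos v)]

/-- the codes of the elements are definable -/
theorem CovMon.mem : Delta0 (r + 1) (fun w => ∃ g, Φ.enc (fun i => w i.succ) g = w 0) := by
  have h1 : Delta0 (r + 1) (fun w => ∀ z, z ≤ w 0 → (z < w 0 →
      ¬ (vc (Φ.m fun i => w i.succ) d z ∈ Φ.X (fun i => w i.succ) ∧
        vc (Φ.m fun i => w i.succ) d (w 0) ∈ Φ.X (fun i => w i.succ) ∧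
        Φ.cls (fun i => w i.succ) (vc (Φ.m fun i => w i.succ) d z) =
          Φ.cls (fun i => w i.succ) (vc (Φ.m fun i => w i.succ) d (w 0))))) := by
    refine Delta0.ballFun (P := fun z w => z < w 0 →
      ¬ (vc (Φ.m fun i => w i.succ) d z ∈ Φ.X (fun i => w i.succ) ∧
        vc (Φ.m fun i => w i.succ) d (w 0) ∈ Φ.X (fun i => w i.succ) ∧
        Φ.cls (fun i => w i.succ) (vc (Φ.m fun i => w i.succ) d z) =
          Φ.cls (fun i => w i.succ) (vc (Φ.m fun i => w i.succ) d (w 0)))) (DFun.proj 0) ?_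
    exact (Delta0.ltFun (DFun.proj 0) (DFun.proj 1)).imp Φ.dE.not
  refine (Φ.dX.and h1).of_iff fun w => ?_
  constructor
  · rintro ⟨g, hg⟩
    have h2 := Φ.enc_spec (fun i => w i.succ) g
    rw [hg] at h2
    refine ⟨h2.1, fun z _ hz h3 => ?_⟩
    have h4 := Φ.enc_min (fun i => w i.succ) g h3.1 (h3.2.2.trans h2.2)
    rw [hg] at h4
    omega
  · rintro ⟨h2, h3⟩
    refine ⟨Φ.cls _ (vc (Φ.m fun i => w i.succ) d (w 0)), ?_⟩
    have h4 := Φ.enc_min (fun i => w i.succ) _ h2 rfl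
    have h5 := Φ.enc_spec (fun i => w i.succ) (Φ.cls _ (vc (Φ.m fun i => w i.succ) d (w 0)))
    by_contra h6
    exact h3 _ h4 (lt_of_le_of_ne h4 h6) ⟨h5.1, h2, h5.2⟩


theorem ltr_mon {r d e τ : ℕ} (Φ : CovMon r d e τ) (v : Fin r → ℕ) (leaf : ℕ → Fin d → ℤ)
    (g : ℕ → Φ.G v) (hleaf : ∀ s, (fun i => ((leaf s i : ℤ) : ZMod (Φ.m v))) ∈ Φ.X v ∧
      Φ.cls v (fun i => ((leaf s i : ℤ) : ZMod (Φ.m v))) = g s)
    {h E : ℕ} (hE : ∀ j s, j < h → s < 2 ^ (h - 1 - j) →
      PcOK Φ.F Φ.T (fun k => (Φ.c k v : ℤ)) leaf h E (Φ.m v) j s) :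
    ∀ j s, j ≤ h → s < 2 ^ (h - j) →
      (fun i => ((ltr Φ.F (fun k => (Φ.c k v : ℤ)) leaf h E j s i : ℤ) : ZMod (Φ.m v))) ∈
        Φ.X v ∧
      Φ.cls v (fun i => ((ltr Φ.F (fun k => (Φ.c k v : ℤ)) leaf h E j s i : ℤ) :
        ZMod (Φ.m v))) = ((List.range (2 ^ j)).map fun i => g (s * 2 ^ j + i)).prod := by
  intro j
  induction j with
  | zero =>
    intro s _ _
    have h1 := hleaf s
    simpa [ltr, tr] using h1
  | succ j ih =>
    intro s hj hs
    have hs1 : 2 * s < 2 ^ (h - j) ∧ 2 * s + 1 < 2 ^ (h - j) := by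
      have e1 : h - j = (h - (j + 1)) + 1 := by omega
      rw [e1, pow_succ]
      omega
    obtain ⟨hx1, hx2⟩ := ih (2 * s) (by omega) hs1.1
    obtain ⟨hy1, hy2⟩ := ih (2 * s + 1) (by omega) hs1.2
    have hok := hE j s (by omega) (by rwa [show h - 1 - j = h - (j + 1) by omega])
    set c : Fin e → ℤ := fun k => (Φ.c k v : ℤ) with hc
    set f : ℤ →+* ZMod (Φ.m v) := Int.castRingHom (ZMod (Φ.m v)) with hf
    set x : Fin d → ZMod (Φ.m v) := fun i => f (ltr Φ.F c leaf h E j (2 * s) i) with hx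
    set y : Fin d → ZMod (Φ.m v) := fun i => f (ltr Φ.F c leaf h E j (2 * s + 1) i) with hy
    obtain ⟨hz1, hz2⟩ := Φ.law v x y hx1 hy1
    have hlaw : lawOf Φ.F (pc τ h E j s) =
        Φ.F (pat Φ.T (fun k => (Φ.c k v : ZMod (Φ.m v))) x y) := by
      refine lawOf_eq Φ.F fun k => (hok k).trans ?_
      rw [← ZMod.intCast_zmod_eq_zero_iff_dvd]
      show f _ = 0 ↔ _
      rw [aeval_map, pat]
      refine iff_of_eq (congrArg (· = 0) ?_)
      congr 2
      funext k
      rcases k with k | k | k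
      · rfl
      · rfl
      · simp [hf, hc]
    have hprod : ((List.range (2 ^ (j + 1))).map fun i => g (s * 2 ^ (j + 1) + i)).prod =
        ((List.range (2 ^ j)).map fun i => g (2 * s * 2 ^ j + i)).prod *
          ((List.range (2 ^ j)).map fun i => g ((2 * s + 1) * 2 ^ j + i)).prod := by
      rw [show 2 ^ (j + 1) = 2 ^ j + 2 ^ j by ring, List.range_add, List.map_append,
        List.prod_append, List.map_map]
      congr 2
      · refine List.map_congr_left fun i _ => ?_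
        congr 1
        ring
      · refine List.map_congr_left fun i _ => ?_
        simp only [Function.comp_apply]
        congr 1
        ring
    have hval : (fun i => ((ltr Φ.F c leaf h E (j + 1) s i : ℤ) : ZMod (Φ.m v))) =
        (Φ.F (pat Φ.T (fun k => (Φ.c k v : ZMod (Φ.m v))) x y)).ev
          (fun k => (Φ.c k v : ZMod (Φ.m v))) x y := by
      funext i
      show f ((lawOf Φ.F (pc τ h E j s)).ev c (ltr Φ.F c leaf h E j (2 * s))
        (ltr Φ.F c leaf h E j (2 * s + 1)) i) = _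
      rw [ev_map, hlaw]
      congr 2
      funext k
      simp [hf, hc]
    rw [hval]
    refine ⟨hz1, hz2.trans ?_⟩
    rw [hprod, ← hx2, ← hy2]
    rfl

end Pool.Agent.H70G
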