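import Pool.Agent.H70G.MProd
import Pool.Agent.ECD.GLCode

/-!
# Products of logarithmic length of square matrices over `ℤ/m`
-/

set_option autoImplicit false

namespace Pool.Agent.H70G

open Finset Pool.Agent.Grz Pool.Agent.GAvg Pool.Agent.PTr Pool.Agent.MTr Pool.Agent.LPC
  Pool.Agent.ECD Pool.Agent.Cov

/-- the matrix with the given coordinates -/
def mx {n : ℕ} {R : Type} (x : Fin (n * n) → R) : Matrix (Fin n) (Fin n) R :=
  fun i j => x (finProdFinEquiv (i, j))

/-- the law -/
noncomputable def mLaw (n : ℕ) : Law (n * n) 0 := fun i => ∑ j : Fin n,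
  MvPolynomial.X (Sum.inl (finProdFinEquiv ((finProdFinEquiv.symm i).1, j))) *
    MvPolynomial.X (Sum.inr (Sum.inl (finProdFinEquiv (j, (finProdFinEquiv.symm i).2))))

theorem mLaw_ev {n : ℕ} {R : Type} [CommRing R] (c : Fin 0 → R) (x y : Fin (n * n) → R) :
    mx ((mLaw n).ev c x y) = mx x * mx y := by
  ext a b
  show (mLaw n).ev c x y (finProdFinEquiv (a, b)) = _
  unfold Law.ev mLaw
  rw [Equiv.symm_apply_apply, map_sum, Matrix.mul_apply]
  refine Finset.sum_congr rfl fun j _ => ?_
  rw [map_mul, MvPolynomial.aeval_X, MvPolynomial.aeval_X]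
  rfl

theorem mx_inj {n : ℕ} {R : Type} {x y : Fin (n * n) → R} (h : mx x = mx y) : x = y := by
  funext i
  obtain ⟨⟨a, b⟩, rfl⟩ := finProdFinEquiv.surjective i
  exact congrFun (congrFun h a) b

theorem mx_surj {n : ℕ} {R : Type} (A : Matrix (Fin n) (Fin n) R) :
    mx (fun i => A (finProdFinEquiv.symm i).1 (finProdFinEquiv.symm i).2) = A := by
  ext a b
  show A (finProdFinEquiv.symm (finProdFinEquiv (a, b))).1
    (finProdFinEquiv.symm (finProdFinEquiv (a, b))).2 = A a b
  rw [Equiv.symm_apply_apply]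

/-- the digits of a code are definable -/
theorem vcd {n' D : ℕ} {M z : (Fin n' → ℕ) → ℕ} (hM : DFun n' M) (hz : DFun n' z) (i : Fin D) :
    DFun n' (fun u => (vc (M u + 1) D (z u) i).val) := by
  have h1 := DFun.modPos (DFun.divPos hz (DFun.powConst (hM.add (DFun.const 1)) (i : ℕ))
    (fun u => pow_pos (Nat.succ_pos _) _)) (hM.add (DFun.const 1)) (fun u => Nat.succ_pos _)
  have e : (fun u => (vc (M u + 1) D (z u) i).val) = fun u =>
      z u / (M u + 1) ^ (i : ℕ) % (M u + 1) := by
    funext u
    unfold vc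
    rw [ZMod.val_natCast]
  rw [e]
  exact h1

theorem veq {n' D : ℕ} {M : (Fin n' → ℕ) → ℕ} {x y : ∀ u : Fin n' → ℕ, Fin D → ZMod (M u + 1)}
    (hx : ∀ i, DFun n' (fun u => (x u i).val)) (hy : ∀ i, DFun n' (fun u => (y u i).val)) :
    Delta0 n' (fun u => x u = y u) := by
  have h1 : Delta0 n' (fun u => ∀ i : Fin D, (x u i).val = (y u i).val) := by
    induction D with
    | zero => exact (Delta0.leFun (DFun.const 0) (DFun.const 0)).of_iff fun u =>
        ⟨fun _ => le_rfl, fun _ i => i.elim0⟩
    | succ D ih =>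
      have h2 := ih (x := fun u i => x u i.succ) (y := fun u i => y u i.succ)
        (fun i => hx i.succ) fun i => hy i.succ
      refine ((Delta0.eqFun (hx 0) (hy 0)).and h2).of_iff fun u => ?_
      exact Fin.forall_fin_succ
  refine h1.of_iff fun u => ?_
  constructor
  · intro h i
    rw [h]
  · intro h
    funext i
    exact ZMod.val_injective _ (h i)

/-- the monoid of the `n × n` matrices over `ℤ/(M + 1)` -/
noncomputable def matMon (n : ℕ) : CovMon 1 (n * n) 0 0 where
  G v := Matrix (Fin n) (Fin n) (ZMod (v 0 + 1))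
  grp v := inferInstance
  m v := v 0 + 1
  hm := (DFun.proj 0).add (DFun.const 1)
  mpos v := Nat.succ_pos _
  c k := k.elim0
  hc k := k.elim0
  X v := Set.univ
  cls v x := mx x
  onto v A := ⟨_, Set.mem_univ _, mx_surj A⟩
  T k := k.elim0
  F _ := mLaw n
  law v x y _ _ := ⟨Set.mem_univ _, mLaw_ev _ _ _⟩
  dX := (Delta0.leFun (DFun.const 0) (DFun.const 0)).of_iff fun w =>
    ⟨fun _ => le_rfl, fun _ => Set.mem_univ _⟩
  dE := by
    refine (veq (n' := 1 + 1 + 1) (D := n * n) (M := fun w => w (Fin.succ (Fin.succ 0)))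
      (x := fun w => vc (w (Fin.succ (Fin.succ 0)) + 1) (n * n) (w 0))
      (y := fun w => vc (w (Fin.succ (Fin.succ 0)) + 1) (n * n) (w 1))
      (vcd (DFun.proj _) (DFun.proj _)) (vcd (DFun.proj _) (DFun.proj _))).of_iff fun w => ?_
    constructor
    · rintro ⟨_, _, h⟩
      exact mx_inj h
    · intro h
      exact ⟨Set.mem_univ _, Set.mem_univ _, congrArg mx h⟩

variable {n k : ℕ} {M : (Fin k → ℕ) → ℕ}

/-- the entries are definable if the code is -/
theorem mat_entry (hM : DFun k M) {A : ∀ u : Fin k → ℕ, Matrix (Fin n) (Fin n) (ZMod (M u + 1))}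
    (hA : DFun k (fun u => (matMon n).enc (fun _ => M u) (A u))) (i j : Fin n) :
    DFun k (fun u => (A u i j).val) := by
  have h1 := vcd (D := n * n) hM hA (finProdFinEquiv (i, j))
  have e : (fun u => (A u i j).val) = fun u => (vc (M u + 1) (n * n)
      ((matMon n).enc (fun _ => M u) (A u)) (finProdFinEquiv (i, j))).val := by
    funext u
    have h2 := ((matMon n).enc_spec (fun _ => M u) (A u)).2
    exact congrArg ZMod.val (congrFun (congrFun h2.symm i) j)
  rw [e]
  exact h1

/-- the code is definable if the entries are -/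
theorem mat_enc (hM : DFun k M) {A : ∀ u : Fin k → ℕ, Matrix (Fin n) (Fin n) (ZMod (M u + 1))}
    (hA : ∀ i j, DFun k (fun u => (A u i j).val)) :
    DFun k (fun u => (matMon n).enc (fun _ => M u) (A u)) := by
  have hσ : ∀ i : Fin (1 + 1), DFun (k + 1) ((Fin.cons (fun w => w 0)
      (fun (_ : Fin 1) w => M fun j => w j.succ) :
        Fin (1 + 1) → (Fin (k + 1) → ℕ) → ℕ) i) := by
    intro i
    refine Fin.cases ?_ (fun i => ?_) i
    · exact DFun.proj 0
    · exact hM.weak
  have h1 : Delta0 (k + 1) (fun w => ∃ g, (matMon n).enc (fun _ => M fun j => w j.succ) g = w 0) :=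
    (matMon n).mem.subst hσ
  have h2 := veq (n' := k + 1) (D := n * n) (M := fun w => M fun j => w j.succ)
    (x := fun w => vc (M (fun j => w j.succ) + 1) (n * n) (w 0))
    (y := fun w i => A (fun j => w j.succ) (finProdFinEquiv.symm i).1
      (finProdFinEquiv.symm i).2) (vcd hM.weak (DFun.proj 0)) (fun i => (hA _ _).weak)
  refine DFun.ofGraph (b := fun u => (M u + 1) ^ (n * n))
    (DFun.powConst (hM.add (DFun.const 1)) _)
    (fun u => ((matMon n).enc_lt (fun _ => M u) (A u)).le) ((h1.and h2).of_iff fun w => ?_)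
  constructor
  · intro h
    refine ⟨⟨_, h.symm⟩, ?_⟩
    have h3 := ((matMon n).enc_spec (fun _ => M fun j => w j.succ) (A fun j => w j.succ)).2
    rw [← h] at h3
    refine mx_inj ?_
    rw [mx_surj]
    exact h3
  · rintro ⟨⟨g, hg⟩, h⟩
    have h3 := ((matMon n).enc_spec (fun _ => M fun j => w j.succ) g).2
    rw [hg] at h3
    have h4 : mx (vc (M (fun j => w j.succ) + 1) (n * n) (w 0)) = g := h3
    rw [h, mx_surj] at h4
    rw [h4]
    exact hg.symm

theorem mat_mul (hM : DFun k M) {A B : ∀ u : Fin k → ℕ, Matrix (Fin n) (Fin n) (ZMod (M u + 1))}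
    (hA : ∀ i j, DFun k (fun u => (A u i j).val)) (hB : ∀ i j, DFun k (fun u => (B u i j).val))
    (i j : Fin n) : DFun k (fun u => ((A u * B u) i j).val) := by
  have h1 : DFun k (fun u => (∑ l : Fin n, (A u i l).val * (B u l j).val) % (M u + 1)) :=
    DFun.modPos (DFun.finSum univ fun l => (hA i l).mul (hB l j)) (hM.add (DFun.const 1))
      fun u => Nat.succ_pos _
  have e : (fun u => ((A u * B u) i j).val) = fun u =>
      (∑ l : Fin n, (A u i l).val * (B u l j).val) % (M u + 1) := by
    funext u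
    rw [← ZMod.val_natCast]
    congr 1
    rw [Matrix.mul_apply]
    push_cast
    refine Finset.sum_congr rfl fun l _ => ?_
    rw [ZMod.natCast_zmod_val, ZMod.natCast_zmod_val]
  rw [e]
  exact h1

/-- powers with small exponents -/
theorem pow_small (hM : DFun k M) {A : ∀ u : Fin k → ℕ, Matrix (Fin n) (Fin n) (ZMod (M u + 1))}
    (hA : ∀ i j, DFun k (fun u => (A u i j).val)) {t L : (Fin k → ℕ) → ℕ} (ht : DFun k t)
    (hL : DFun k L) (htL : ∀ u, t u ≤ lg (L u) + 1) (i j : Fin n) :
    DFun k (fun u => ((A u ^ t u) i j).val) := by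
  classical
  have h1 : ∀ i j, DFun (k + 1) (fun w : Fin (k + 1) → ℕ =>
      ((if w 0 < t (fun j => w j.succ) then A (fun j => w j.succ) else 1) i j).val) := by
    intro i j
    have h2 : DFun (k + 1) (fun w : Fin (k + 1) → ℕ =>
        if w 0 < t (fun j => w j.succ) then (A (fun j => w j.succ) i j).val else
          (if i = j then 1 % (M (fun j => w j.succ) + 1) else 0)) := by
      refine DFun.ite (Delta0.ltFun (DFun.proj 0) ht.weak) (hA i j).weak ?_
      by_cases hij : i = j
      · simp only [if_pos hij]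
        exact (DFun.const 1).mod hM.weak
      · simp only [if_neg hij]
        exact DFun.const 0
    refine (show (fun w : Fin (k + 1) → ℕ =>
      ((if w 0 < t (fun j => w j.succ) then A (fun j => w j.succ) else 1) i j).val) = _ from
        ?_) ▸ h2
    funext w
    split_ifs with h3 h4
    · rfl
    · rw [h4, Matrix.one_apply_eq, ZMod.val_one_eq_one_mod]
    · rw [Matrix.one_apply_ne h4, ZMod.val_zero]
  have h2 := (matMon n).prod2 (n := k) (σ := fun _ u => M u)
    (P := fun u s => if s < t u then A u else 1) (h := fun u => lg (t u) + 1) (M := L)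
    (fun _ => hM) (mat_enc (k := k + 1) (M := fun w => M fun j => w j.succ) hM.weak h1)
    ((DFun.lg ht).add (DFun.const 1)) hL (fun u => by
      have h3 := htL u
      rcases Nat.eq_zero_or_pos (t u) with h0 | h0
      · rw [h0]
        have h4 : lg 0 = 0 := by decide
        rw [h4]
        omega
      · have h4 : 2 ^ lg (t u) ≤ t u := Nat.pow_log_le_self 2 h0.ne'
        rw [pow_succ]
        omega)
  refine mat_entry (A := fun u => A u ^ t u) hM ?_ i j
  refine (show (fun u => (matMon n).enc (fun _ => M u) (A u ^ t u)) = _ from ?_) ▸ h2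
  funext u
  congr 1
  have h3 : ((List.range (t u)).map fun _ => A u).prod = A u ^ t u := by
    rw [List.map_const', List.prod_replicate, List.length_range]
  rw [← h3]
  exact (prod_trunc (fun _ => A u) (lt_two_pow_lg (t u)).le).symm

end Pool.Agent.H70G
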