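import Pool.Agent.H70G.Defs

/-!
# Maximal abelian normal subgroups of finite `l`-groups
-/

set_option autoImplicit false

namespace Pool.Agent.H70G

variable {G : Type} [Group G]

/-- A finite `l`-group has an abelian normal subgroup that contains its centralizer. -/
theorem exists_max [Finite G] {l : ℕ} [Fact l.Prime] (hl : IsPGroup l G) :
    ∃ A : Subgroup G, A.Normal ∧ (∀ x ∈ A, ∀ y ∈ A, x * y = y * x) ∧
      ∀ g, (∀ a ∈ A, g * a = a * g) → g ∈ A := by
  let S : Set (Subgroup G) := {A | A.Normal ∧ ∀ x ∈ A, ∀ y ∈ A, x * y = y * x}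
  have hS : (⊥ : Subgroup G) ∈ S := by
    refine ⟨inferInstance, fun x hx y hy => ?_⟩
    rw [Subgroup.mem_bot] at hx hy
    rw [hx, hy]
  obtain ⟨A, hA⟩ := (Set.toFinite S).exists_maximal ⟨_, hS⟩
  obtain ⟨⟨hN, hab⟩, hmax⟩ := hA
  refine ⟨A, hN, hab, fun g0 hg0 => ?_⟩
  by_contra hg
  let C : Subgroup G := Subgroup.centralizer (A : Set G)
  have hgC : g0 ∈ C := by
    rw [Subgroup.mem_centralizer_iff]
    exact fun a ha => (hg0 a ha).symm
  let π : G →* G ⧸ A := QuotientGroup.mk' A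
  have hπ : Function.Surjective π := QuotientGroup.mk'_surjective A
  have hCn : C.Normal := inferInstance
  let C' : Subgroup (G ⧸ A) := C.map π
  have hC'n : C'.Normal := hCn.map π hπ
  have hQ : IsPGroup l (G ⧸ A) := hl.to_quotient A
  have hne : Nat.card C' ≠ 1 := by
    intro h
    have h1 : (⟨π g0, g0, hgC, rfl⟩ : C') = 1 := by
      have := (Nat.card_eq_one_iff_unique.1 h).1
      exact Subsingleton.elim _ _
    have h2 : π g0 = 1 := congrArg Subtype.val h1
    exact hg ((QuotientGroup.eq_one_iff g0).1 h2)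
  have hdvd : l ∣ Nat.card C' := (hQ.to_subgroup C').card_eq_or_dvd.resolve_left hne
  let _ : MulAction (G ⧸ A) C' := MulAction.compHom C' (MulAut.conjNormal (H := C'))
  have h1 : (1 : C') ∈ MulAction.fixedPoints (G ⧸ A) C' := by
    intro q
    show MulAut.conjNormal q (1 : C') = 1
    exact map_one _
  obtain ⟨⟨b, hb⟩, hbf, hb1⟩ := hQ.exists_fixed_point_of_prime_dvd_card_of_fixed_point C' hdvd h1
  have hbc : ∀ q : G ⧸ A, q * b * q⁻¹ = b := by
    intro q
    have h2 : MulAut.conjNormal q (⟨b, hb⟩ : C') = ⟨b, hb⟩ := hbf q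
    have h3 := congrArg Subtype.val h2
    rwa [MulAut.conjNormal_apply] at h3
  obtain ⟨x, hxC, rfl⟩ := hb
  have hxC' : ∀ a ∈ A, a * x = x * a := Subgroup.mem_centralizer_iff.1 hxC
  have hxA : x ∉ A := fun h => hb1 (Subtype.ext ((QuotientGroup.eq_one_iff x).2 h).symm)
  let B : Subgroup G := (Subgroup.zpowers (π x)).comap π
  have hBel : ∀ y ∈ B, ∃ (k : ℤ), ∃ a ∈ A, y = x ^ k * a := by
    rintro y ⟨k, hk⟩
    refine ⟨k, (x ^ k)⁻¹ * y, ?_, by group⟩
    rw [← QuotientGroup.eq]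
    have h4 : π x ^ k = π y := hk
    rw [← map_zpow] at h4
    exact h4
  have hAB : A ≤ B := by
    intro a ha
    show π a ∈ Subgroup.zpowers (π x)
    have h5 : π a = 1 := (QuotientGroup.eq_one_iff a).2 ha
    rw [h5]
    exact Subgroup.one_mem _
  have hBn : B.Normal := by
    refine ⟨fun y hy g => ?_⟩
    obtain ⟨k, hk⟩ := hy
    refine ⟨k, ?_⟩
    have h4 : π x ^ k = π y := hk
    show π x ^ k = π (g * y * g⁻¹)
    rw [map_mul, map_mul, map_inv, ← h4, ← conj_zpow, hbc]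
  have hcx : ∀ (k : ℤ), ∀ a ∈ A, a * x ^ k = x ^ k * a := fun k a ha =>
    (Commute.zpow_right (hxC' a ha) k)
  have hBab : ∀ y ∈ B, ∀ z ∈ B, y * z = z * y := by
    intro y hy z hz
    obtain ⟨k, a, ha, rfl⟩ := hBel y hy
    obtain ⟨j, c, hc, rfl⟩ := hBel z hz
    have e1 := hcx j a ha
    have e2 := hcx k c hc
    calc x ^ k * a * (x ^ j * c) = x ^ k * (a * x ^ j) * c := by group
      _ = x ^ k * (x ^ j * a) * c := by rw [e1]
      _ = x ^ k * x ^ j * (a * c) := by group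
      _ = x ^ j * x ^ k * (c * a) := by rw [hab a ha c hc, ← zpow_add, ← zpow_add, add_comm]
      _ = x ^ j * (x ^ k * c) * a := by group
      _ = x ^ j * (c * x ^ k) * a := by rw [e2]
      _ = x ^ j * c * (x ^ k * a) := by group
  have hBA : B ≤ A := hmax ⟨hBn, hBab⟩ hAB
  exact hxA (hBA (Subgroup.mem_zpowers (π x)))

end Pool.Agent.H70G
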