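import Mathlib

/-!
# Nilpotency of a finite group in terms of the elements of `l`-power order
-/

set_option autoImplicit false

namespace Pool.Agent.H70G

private theorem pow_of_mem {G : Type*} [Group G] [Finite G] {l e : ℕ} (hl : l.Prime)
    (h : Nat.card G < l ^ (e + 1)) {P : Subgroup G} (hP : IsPGroup l P) {g : G} (hg : g ∈ P) :
    g ^ l ^ e = 1 := by
  obtain ⟨k, hk⟩ := hP ⟨g, hg⟩
  have h2 : g ^ l ^ k = 1 := by
    have := congrArg Subtype.val hk
    simpa using this
  obtain ⟨a, -, ha⟩ := (Nat.dvd_prime_pow hl).1 (orderOf_dvd_of_pow_eq_one h2)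
  have h3 : l ^ a ≤ Nat.card G := by
    rw [← ha]
    exact Nat.le_of_dvd Nat.card_pos (orderOf_dvd_natCard g)
  have h4 : a < e + 1 := (Nat.pow_lt_pow_iff_right hl.one_lt).1 (h3.trans_lt h)
  rw [← orderOf_dvd_iff_pow_eq_one, ha]
  exact pow_dvd_pow _ (by omega)

private theorem mem_of_pow {G : Type*} [Group G] [Finite G] {l e : ℕ} (hl : l.Prime)
    (P : Sylow l G) (hn : P.Normal) {g : G} (hg : g ^ l ^ e = 1) : g ∈ P := by
  have : Fact l.Prime := ⟨hl⟩
  have hz : IsPGroup l (Subgroup.zpowers g) := by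
    rw [IsPGroup.iff_orderOf]
    rintro ⟨x, hx⟩
    obtain ⟨k, rfl⟩ := Subgroup.mem_zpowers_iff.1 hx
    have h1 : (g ^ k) ^ l ^ e = 1 := by
      rw [← zpow_natCast, ← zpow_mul, mul_comm, zpow_mul, zpow_natCast, hg, one_zpow]
    have h2 : orderOf (g ^ k) ∣ l ^ e := orderOf_dvd_of_pow_eq_one h1
    obtain ⟨a, -, ha⟩ := (Nat.dvd_prime_pow hl).1 h2
    exact ⟨a, by rw [Subgroup.orderOf_mk, ha]⟩
  obtain ⟨Q, hQ⟩ := hz.exists_le_sylow
  have hQP : Q = P := by
    have := P.unique_of_normal hn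
    exact Subsingleton.elim _ _
  rw [← hQP]
  exact hQ (Subgroup.mem_zpowers g)

/-- A finite group with at most `B` elements is nilpotent if and only if, for every prime number
`l ≤ B`, the elements `g` with `g ^ (l ^ e) = 1`, `e = log_l B`, are closed under products. -/
theorem nil_iff {G : Type*} [Group G] [Finite G] {B : ℕ} (hB : Nat.card G ≤ B) :
    Group.IsNilpotent G ↔ ∀ l, l ≤ B → l.Prime → ∀ g h : G, g ^ l ^ Nat.log l B = 1 →
      h ^ l ^ Nat.log l B = 1 → (g * h) ^ l ^ Nat.log l B = 1 := by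
  have hlt : ∀ l : ℕ, l.Prime → Nat.card G < l ^ (Nat.log l B + 1) := fun l hl =>
    hB.trans_lt (Nat.lt_pow_succ_log_self hl.one_lt B)
  constructor
  · intro hG l _ hl g h hg hh
    have : Fact l.Prime := ⟨hl⟩
    let P : Sylow l G := default
    have hn : P.Normal := inferInstance
    exact pow_of_mem hl (hlt l hl) P.isPGroup' (P.mul_mem (mem_of_pow hl P hn hg)
      (mem_of_pow hl P hn hh))
  · intro H
    refine (Group.isNilpotent_of_finite_tfae.out 0 3).2 ?_
    intro l hl P
    have key : ∀ g h : G, g ^ l ^ Nat.log l B = 1 → h ^ l ^ Nat.log l B = 1 →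
        (g * h) ^ l ^ Nat.log l B = 1 := by
      rcases Nat.lt_or_ge B l with h0 | h0
      · rw [Nat.log_of_lt h0]
        intro g h hg hh
        rw [pow_zero, pow_one] at *
        rw [hg, hh, one_mul]
      · exact H l h0 hl.out
    let T : Subgroup G :=
      { carrier := {g | g ^ l ^ Nat.log l B = 1}
        mul_mem' := fun {g h} hg hh => key g h hg hh
        one_mem' := one_pow _
        inv_mem' := fun {g} (hg : g ^ l ^ Nat.log l B = 1) => by
          show g⁻¹ ^ l ^ Nat.log l B = 1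
          rw [inv_pow, hg, inv_one] }
    have hT : IsPGroup l T := fun g => ⟨Nat.log l B, Subtype.ext g.2⟩
    have hle : P.toSubgroup ≤ T := fun g hg => pow_of_mem hl.out (hlt l hl.out) P.isPGroup' hg
    have e : T = P := P.is_maximal' hT hle
    have hn : T.Normal := ⟨fun g (hg : g ^ l ^ Nat.log l B = 1) c => by
      show (c * g * c⁻¹) ^ l ^ Nat.log l B = 1
      rw [conj_pow, hg, mul_one, mul_inv_cancel]⟩
    rwa [e] at hn

end Pool.Agent.H70G
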