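import Pool.Agent.H70G.Defs

/-!
# Finite nilpotent groups are tame
-/

set_option autoImplicit false

namespace Pool.Agent.H70G

/-- In a finite nilpotent group all Sylow subgroups are normal. -/
theorem tame_of_nilpotent (k : ℕ) {G : Type} [Group G] [Finite G] (h : Group.IsNilpotent G) :
    Tame k G := by
  intro l hl
  have : Fact l.Prime := ⟨hl⟩
  exact ⟨default, Or.inl inferInstance⟩

end Pool.Agent.H70G
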