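import Pool.Agent.H70G.TopIter

/-!
# Products of polylogarithmic length
-/

set_option autoImplicit false

noncomputable section

namespace Pool.Agent.H70G

open Pool.Agent.Grz Pool.Agent.ECD

variable {n s d k : ℕ}

private theorem blocks {G : Type} [Group G] (B : ℕ) (p : ℕ → G) (n : ℕ) : ∀ l, l ≤ n * B →
    ((List.range n).map fun j => ((List.range (min B (l - j * B))).map fun i =>
      p (j * B + i)).prod).prod = ((List.range l).map p).prod := by
  induction n with
  | zero =>
    intro l hl
    have : l = 0 := by omega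
    subst this
    simp
  | succ n ih =>
    intro l hl
    rw [Nat.succ_mul] at hl
    rw [List.range_succ, List.map_append, List.prod_append, List.map_singleton,
      List.prod_singleton]
    rcases Nat.le_total l (n * B) with h | h
    · rw [ih l h, Nat.sub_eq_zero_of_le h, Nat.min_zero, List.range_zero, List.map_nil,
        List.prod_nil, mul_one]
    · obtain ⟨k, rfl⟩ := Nat.exists_eq_add_of_le h
      have hk : k ≤ B := by omega
      rw [Nat.add_sub_cancel_left, Nat.min_eq_right hk, List.range_add, List.map_append,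
        List.prod_append, ← ih (n * B) le_rfl, List.map_map]
      congr 2
      refine List.map_congr_left fun j hj => ?_
      have hj' : j < n := List.mem_range.1 hj
      have h1 : (j + 1) * B ≤ n * B := Nat.mul_le_mul_right B hj'
      rw [Nat.succ_mul] at h1
      rw [Nat.min_eq_left (by omega), Nat.min_eq_left (by omega)]

/-- **Products of polylogarithmic length.** -/
theorem top_plog (Φ : Fmt n s d k) (c : ℕ) : ∀ (m : ℕ) (σ : Fin (n + 1) → (Fin m → ℕ) → ℕ)
    (P : Fin d × Fin s → (Fin (m + 1) → ℕ) → ℕ) (l M : (Fin m → ℕ) → ℕ),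
    (∀ i, DFun m (σ i)) → (∀ j, DFun (m + 1) (P j)) → DFun m l → DFun m M →
    (∀ u, l u ≤ (Nat.log 2 (M u) + 1) ^ c) → ∃ Z : Fin d × Fin s → (Fin m → ℕ) → ℕ,
      (∀ j, DFun m (Z j)) ∧
      ∀ (u : Fin m → ℕ) (K : Type) [Field K] (a : K) (G : Type) [Group G]
        (cls : (Fin d × Fin s → ℕ) → G), Φ.Pres (fun i => σ i u) K a G cls →
        (∀ i, i < l u → (fun j => P j (Fin.cons i u)) ∈ Φ.Dom fun i => σ i u) →
        (fun j => Z j u) ∈ Φ.Dom (fun i => σ i u) ∧ cls (fun j => Z j u) =
          ((List.range (l u)).map fun i => cls fun j => P j (Fin.cons i u)).prod := by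
  obtain ⟨_, _, _, _, _, _, _, _, _, hlog, _⟩ := top Φ 0
  induction c with
  | zero =>
    intro m σ P l M hσ hP hl hM hlM
    refine hlog m σ P l M hσ hP hl hM fun u => (hlM u).trans ?_
    rw [pow_zero]
    exact Nat.le_add_left _ _
  | succ c ih =>
    intro m σ P l M hσ hP hl hM hlM
    have hL : DFun m fun u => Nat.log 2 (M u) + 1 := (PTr.DFun.lg hM).add (DFun.const 1)
    have hB : DFun m fun u => (Nat.log 2 (M u) + 1) ^ c := PTr.DFun.powConst hL c
    have hP' : ∀ j, DFun (m + 2) fun w : Fin (m + 2) → ℕ =>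
        P j (Fin.cons (w 1 * (Nat.log 2 (M fun i => w i.succ.succ) + 1) ^ c + w 0)
          fun i => w i.succ.succ) := by
      intro j
      refine dfun_congr ((hP j).comp (h := Fin.cons
        (fun w : Fin (m + 2) → ℕ => w 1 * (Nat.log 2 (M fun i => w i.succ.succ) + 1) ^ c + w 0)
        fun i w => w i.succ.succ) fun i => ?_) fun w => congrArg (P j) (funext fun i => ?_)
      · refine Fin.cases ?_ (fun i => ?_) i
        · exact ((DFun.proj 1).mul hB.weak.weak).add (DFun.proj 0)
        · exact DFun.proj _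
      · refine Fin.cases ?_ (fun i => ?_) i <;> rfl
    obtain ⟨Z', hZ', h1⟩ := ih (m + 1) (fun i w => σ i fun j => w j.succ) _
      (fun w => min ((Nat.log 2 (M fun j => w j.succ) + 1) ^ c)
        (l (fun j => w j.succ) - w 0 * (Nat.log 2 (M fun j => w j.succ) + 1) ^ c))
      (fun w => M fun j => w j.succ) (fun i => (hσ i).weak) hP'
      (DFun.min hB.weak (hl.weak.sub ((DFun.proj 0).mul hB.weak))) hM.weak
      (fun w => Nat.min_le_left _ _)
    obtain ⟨Z, hZ, h2⟩ := hlog m σ Z' _ M hσ hZ' hL hM fun _ => le_rfl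
    refine ⟨Z, hZ, fun u K _ a G _ cls hPr hu => ?_⟩
    have h3 : ∀ j, (fun i => Z' i (Fin.cons j u)) ∈ Φ.Dom (fun i => σ i u) ∧
        cls (fun i => Z' i (Fin.cons j u)) = ((List.range (min ((Nat.log 2 (M u) + 1) ^ c)
          (l u - j * (Nat.log 2 (M u) + 1) ^ c))).map fun i => cls fun b =>
            P b (Fin.cons (j * (Nat.log 2 (M u) + 1) ^ c + i) u)).prod := by
      intro j
      refine h1 (Fin.cons j u) K a G cls hPr fun i hi => ?_
      refine hu (j * (Nat.log 2 (M u) + 1) ^ c + i) ?_
      have h4 : i < l u - j * (Nat.log 2 (M u) + 1) ^ c := lt_of_lt_of_le hi (Nat.min_le_right _ _)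
      omega
    obtain ⟨h5, h6⟩ := h2 u K a G cls hPr fun j _ => (h3 j).1
    refine ⟨h5, h6.trans ?_⟩
    rw [← blocks ((Nat.log 2 (M u) + 1) ^ c) (fun i => cls fun b => P b (Fin.cons i u))
      (Nat.log 2 (M u) + 1) (l u) (by
        have := hlM u
        rw [pow_succ, mul_comm] at this
        exact this)]
    congr 1
    exact List.map_congr_left fun j _ => (h3 j).2

end Pool.Agent.H70G
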