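import Pool.Agent.H70G.Lin

/-!
# Sections of groups with a bounded normal series are tame
-/

set_option autoImplicit false

namespace Pool.Agent.H70G

open Module

/-- `G` is a homomorphic image of a subgroup of `G'`. -/
def Sec (G' G : Type) [Group G'] [Group G] : Prop :=
  ∃ (H : Subgroup G') (φ : H →* G), Function.Surjective φ

/-- `G` has a series of `n` steps, each subgroup normal in the next one, in which each factor is
abelian with `r` generators or a section of `GL r K`. -/
def Ser (K : Type) [Field K] (r : ℕ) : ℕ → (G : Type) → [Group G] → Prop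
  | 0, G, _ => ∀ x : G, x = 1
  | n + 1, G, _ => ∃ (N : Subgroup G) (_ : N.Normal), Ser K r n N ∧
      (AbGen r (G ⧸ N) ∨ Sec (GL (Fin r) K) (G ⧸ N))

/-- All `l`-subgroups of `G` are products of `κ` cyclic subgroups. -/
def LC (κ : ℕ) (G : Type) [Group G] : Prop :=
  ∀ (l : ℕ) [Fact l.Prime] (P : Subgroup G), IsPGroup l P → Cyc κ (fun _ : P => True)

variable {G : Type} [Group G]

theorem Cyc.congr {n : ℕ} {B C : G → Prop} (h : Cyc n B) (e : ∀ x, B x ↔ C x) : Cyc n C := by
  have : B = C := funext fun x => propext (e x)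
  exact this ▸ h

theorem Cyc.map {n : ℕ} {B : G → Prop} (h : Cyc n B) {G' : Type} [Group G'] (φ : G →* G') :
    Cyc n (fun y : G' => ∃ x, B x ∧ φ x = y) := by
  induction n generalizing B with
  | zero =>
    intro y
    constructor
    · rintro ⟨x, hx, rfl⟩
      rw [(h x).1 hx, map_one]
    · rintro rfl
      exact ⟨1, (h 1).2 rfl, map_one _⟩
  | succ n ih =>
    obtain ⟨g, B', h1, h2⟩ := h
    refine ⟨φ g, _, ih h1, fun y => ?_⟩
    constructor
    · rintro ⟨x, hx, rfl⟩
      obtain ⟨k, z, hz, rfl⟩ := (h2 x).1 hx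
      exact ⟨k, φ z, ⟨z, hz, rfl⟩, by rw [map_mul, map_pow]⟩
    · rintro ⟨k, _, ⟨z, hz, rfl⟩, rfl⟩
      exact ⟨g ^ k * z, (h2 _).2 ⟨k, z, hz, rfl⟩, by rw [map_mul, map_pow]⟩

theorem Cyc.map_top {n : ℕ} (h : Cyc n (fun _ : G => True)) {G' : Type} [Group G'] (φ : G →* G')
    (hφ : Function.Surjective φ) : Cyc n (fun _ : G' => True) :=
  (h.map φ).congr fun y => ⟨fun _ => trivial, fun _ => by
    obtain ⟨x, rfl⟩ := hφ y
    exact ⟨x, trivial, rfl⟩⟩

theorem Cyc.comap {Q : Type} [Group Q] (π : G →* Q) (hπ : Function.Surjective π) {a : ℕ}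
    (ha : Cyc a (fun x => x ∈ π.ker)) {b : ℕ} {B : Q → Prop} (h : Cyc b B) :
    Cyc (a + b) (fun x => B (π x)) := by
  induction b generalizing B with
  | zero => exact ha.congr fun x => (h (π x)).symm
  | succ b ih =>
    obtain ⟨g, B', h1, h2⟩ := h
    obtain ⟨g, rfl⟩ := hπ g
    refine ⟨g, _, ih h1, fun x => ?_⟩
    refine (h2 (π x)).trans ?_
    constructor
    · rintro ⟨k, y, hy, hxy⟩
      refine ⟨k, (g ^ k)⁻¹ * x, ?_, by group⟩
      have e : π ((g ^ k)⁻¹ * x) = y := by
        rw [map_mul, hxy, map_inv, map_pow]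
        group
      show B' (π ((g ^ k)⁻¹ * x))
      rw [e]
      exact hy
    · rintro ⟨k, y, hy, rfl⟩
      exact ⟨k, π y, hy, by rw [map_mul, map_pow]⟩

theorem LC.of_injective {κ : ℕ} (h : LC κ G) {H : Type} [Group H] (i : H →* G)
    (hi : Function.Injective i) : LC κ H := by
  intro l hl P hP
  have h1 := h l (P.map i) (hP.map i)
  let e : P ≃* P.map i := P.equivMapOfInjective i hi
  exact h1.map_top e.symm.toMonoidHom e.symm.surjective

theorem LC.mono {κ κ' : ℕ} (h : LC κ G) (hk : κ ≤ κ') : LC κ' G :=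
  fun l _ P hP => (h l P hP).mono hk

theorem LC.of_surjective [Finite G] {κ : ℕ} (h : LC κ G) {Q : Type} [Group Q] (π : G →* Q)
    (hπ : Function.Surjective π) : LC κ Q := by
  intro l hl P hP
  have : Finite Q := Finite.of_surjective π hπ
  let H : Subgroup G := P.comap π
  let f : H →* P := π.subgroupComap P
  have hf : Function.Surjective f := by
    rintro ⟨y, hy⟩
    obtain ⟨x, rfl⟩ := hπ y
    exact ⟨⟨x, hy⟩, rfl⟩
  let S : Sylow l H := default
  have h2 : LC κ H := h.of_injective H.subtype H.subtype_injective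
  have h3 := h2 l (S : Subgroup H) S.isPGroup'
  have h4 : ((S.mapSurjective hf : Sylow l P) : Subgroup P) = ⊤ := by
    have h5 : IsPGroup l (⊤ : Subgroup P) := hP.of_equiv (Subgroup.topEquiv (G := P)).symm
    exact ((S.mapSurjective hf).is_maximal' h5 le_top).symm
  refine h3.map_top (f.comp (S : Subgroup H).subtype) ?_
  intro y
  have hy : y ∈ ((S.mapSurjective hf : Sylow l P) : Subgroup P) := by
    rw [h4]
    exact Subgroup.mem_top y
  rw [Sylow.coe_mapSurjective] at hy
  obtain ⟨x, hx, rfl⟩ := hy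
  exact ⟨⟨x, hx⟩, rfl⟩

theorem LC.ext {a b : ℕ} (N : Subgroup G) [N.Normal] (ha : LC a N) (hb : LC b (G ⧸ N)) :
    LC (a + b) G := by
  intro l hl P hP
  let π : P →* G ⧸ N := (QuotientGroup.mk' N).comp P.subtype
  have h1 := hb l π.range (hP.of_surjective π.rangeRestrict π.rangeRestrict_surjective)
  have h2 : IsPGroup l (P.subgroupOf N) := by
    let j : P.subgroupOf N →* P :=
      { toFun := fun x => ⟨(x : N), x.2⟩
        map_one' := rfl
        map_mul' := fun _ _ => rfl }
    refine hP.of_injective j ?_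
    intro x y h
    have := congrArg Subtype.val h
    exact Subtype.ext (Subtype.ext this)
  have h3 := ha l (P.subgroupOf N) h2
  let j : P.subgroupOf N →* P :=
    { toFun := fun x => ⟨(x : N), x.2⟩
      map_one' := rfl
      map_mul' := fun _ _ => rfl }
  have h4 := h3.map j
  have h5 : Cyc a (fun x => x ∈ π.rangeRestrict.ker) := by
    refine h4.congr fun x => ?_
    rw [MonoidHom.ker_rangeRestrict, MonoidHom.mem_ker]
    have e : π x = 1 ↔ (x : G) ∈ N := QuotientGroup.eq_one_iff (x : G)
    rw [e]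
    constructor
    · rintro ⟨y, _, rfl⟩
      exact (y : N).2
    · intro hx
      exact ⟨⟨⟨x, hx⟩, x.2⟩, trivial, rfl⟩
  exact (Cyc.comap π.rangeRestrict π.rangeRestrict_surjective h5 h1).congr fun _ => Iff.rfl

theorem lc_cyclic [Finite G] [IsCyclic G] : LC 1 G := by
  intro l hl P hP
  obtain ⟨u, hu⟩ := IsCyclic.exists_generator (α := P)
  refine ⟨u, fun x => x = 1, fun _ => Iff.rfl, fun x => ⟨fun _ => ?_, fun _ => trivial⟩⟩
  have h := hu x
  rw [← mem_powers_iff_mem_zpowers] at h
  obtain ⟨k, hk⟩ := h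
  exact ⟨k, 1, rfl, by rw [mul_one]; exact hk.symm⟩

/-- All `l`-subgroups of an abelian group with `r` generators are products of `r` cyclic
subgroups. -/
theorem lc_ab (r : ℕ) : ∀ (G : Type) [Group G] [Finite G], (∀ x y : G, x * y = y * x) →
    ∀ g : Fin r → G, (∀ x, PC g x) → LC r G := by
  induction r with
  | zero =>
    intro G _ _ _ g hg l hl P hP x
    refine ⟨fun _ => ?_, fun _ => trivial⟩
    obtain ⟨e, he⟩ := hg x
    refine Subtype.ext ?_
    rw [← he]
    simp
  | succ r ih =>
    intro G _ _ hab g hg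
    let N : Subgroup G := Subgroup.zpowers (g 0)
    have hN : N.Normal := by
      refine ⟨fun n hn x => ?_⟩
      rw [hab x n, mul_inv_cancel_right]
      exact hn
    have h1 : LC 1 N := lc_cyclic
    have h2 : LC r (G ⧸ N) := by
      refine ih (G ⧸ N) ?_ (fun i => QuotientGroup.mk' N (g i.succ)) ?_
      · intro x y
        obtain ⟨x, rfl⟩ := QuotientGroup.mk'_surjective N x
        obtain ⟨y, rfl⟩ := QuotientGroup.mk'_surjective N y
        rw [← map_mul, ← map_mul, hab]
      · intro x
        obtain ⟨x, rfl⟩ := QuotientGroup.mk'_surjective N x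
        obtain ⟨e, he⟩ := hg x
        refine ⟨fun i => e i.succ, ?_⟩
        have h3 : QuotientGroup.mk' N (g 0) = 1 :=
          (QuotientGroup.eq_one_iff (g 0)).2 (Subgroup.mem_zpowers (g 0))
        rw [← he, List.ofFn_succ, List.prod_cons, map_mul, map_pow, h3, one_pow, one_mul,
          map_list_prod, List.map_ofFn]
        congr 1
    exact (LC.ext N h1 h2).mono (by omega)

/-- All `l`-subgroups of `GL r K` are products of a bounded number of cyclic subgroups. -/
theorem lc_linear {r s p : ℕ} (hp : p.Prime) {K : Type} [Field K] [Finite K]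
    (hK : Nat.card K = p ^ s) : LC (s * (r * r) + (r + r ^ r)) (GL (Fin r) K) :=
  fun _ _ P hP => cyc_linear hp hK hP P.subtype P.subtype_injective

theorem LC.sec [Finite G] {κ : ℕ} (h : LC κ G) {G' : Type} [Group G'] (hS : Sec G G') :
    LC κ G' := by
  obtain ⟨H, φ, hφ⟩ := hS
  exact (h.of_injective H.subtype H.subtype_injective).of_surjective φ hφ

theorem LC.tame [Finite G] {κ : ℕ} (h : LC κ G) : Tame κ G := by
  intro l hl
  have : Fact l.Prime := ⟨hl⟩
  let P : Sylow l G := default
  obtain ⟨g, hg⟩ := (h l (P : Subgroup G) P.isPGroup').pc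
  refine ⟨P, Or.inr ⟨fun i => g i, fun x => ?_⟩⟩
  have e1 : ∀ e : Fin κ → ℕ,
      (List.ofFn fun i => (g i : G) ^ e i).prod = ((List.ofFn fun i => g i ^ e i).prod : P) := by
    intro e
    have h2 : (((List.ofFn fun i => g i ^ e i).prod : P) : G) =
        (P : Subgroup G).subtype (List.ofFn fun i => g i ^ e i).prod := rfl
    rw [h2, map_list_prod, List.map_ofFn]
    rfl
  constructor
  · intro hx
    obtain ⟨e, he⟩ := (hg ⟨x, hx⟩).1 trivial
    exact ⟨e, by rw [e1, he]⟩
  · rintro ⟨e, he⟩
    rw [e1] at he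
    rw [← he]
    exact Subtype.mem _

theorem lc_ser {r s p : ℕ} (hp : p.Prime) {K : Type} [Field K] [Finite K]
    (hK : Nat.card K = p ^ s) (n : ℕ) : ∀ (G : Type) [Group G] [Finite G], Ser K r n G →
    LC (n * (s * (r * r) + (r + r ^ r))) G := by
  induction n with
  | zero =>
    intro G _ _ h l hl P hP
    rw [Nat.zero_mul]
    exact fun x => ⟨fun _ => Subtype.ext (h x), fun _ => trivial⟩
  | succ n ih =>
    intro G _ _ h
    obtain ⟨N, hN, h1, h2⟩ := h
    have h3 := ih N h1
    have h4 : LC (s * (r * r) + (r + r ^ r)) (G ⧸ N) := by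
      rcases h2 with ⟨hab, g, hg⟩ | h2
      · exact (lc_ab r (G ⧸ N) hab g hg).mono (by omega)
      · exact (lc_linear hp hK).sec h2
    have h5 := LC.ext N h3 h4
    rwa [Nat.succ_mul]

/-- **Sections of groups with a bounded series are tame.** -/
theorem tame_ser (r s : ℕ) : ∃ κ : ℕ, ∀ (p : ℕ) (K : Type) [Field K], p.Prime →
    Nat.card K = p ^ s → ∀ (G' G : Type) [Group G'] [Group G] [Finite G'], Ser K r r G' →
    Sec G' G → Tame κ G := by
  refine ⟨r * (s * (r * r) + (r + r ^ r)), fun p K _ hp hK G' G _ _ _ h hS => ?_⟩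
  have hKf : Finite K := Nat.finite_of_card_ne_zero (by rw [hK]; exact (pow_pos hp.pos s).ne')
  have hGf : Finite G := by
    obtain ⟨H, φ, hφ⟩ := hS
    exact Finite.of_surjective φ hφ
  exact ((lc_ser hp hK r G' h).sec hS).tame

end Pool.Agent.H70G
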