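import Pool.Agent.H70G.Nil

/-!
# Certificates for Sylow subgroups
-/

set_option autoImplicit false

namespace Pool.Agent.H70G

/-- `S` is an `l`-subgroup that is not a proper normal subgroup of index `l` in a subgroup -/
def Cert {G : Type} [Group G] (l n : ℕ) (S : G → Prop) : Prop :=
  S 1 ∧ (∀ x y, S x → S y → S (x * y)) ∧ (∀ x, S x → x ^ n = 1) ∧
    ∀ g, ¬ S g → (∀ x, S x → S (g * x * g⁻¹)) → ¬ S (g ^ l)

theorem pow_of_mem' {G : Type} [Group G] [Finite G] {l e : ℕ} (hl : l.Prime)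
    (h : Nat.card G < l ^ (e + 1)) {P : Subgroup G} (hP : IsPGroup l P) {g : G} (hg : g ∈ P) :
    g ^ l ^ e = 1 := by
  obtain ⟨k, hk⟩ := hP ⟨g, hg⟩
  have h2 : g ^ l ^ k = 1 := by
    have := congrArg Subtype.val hk
    simpa using this
  obtain ⟨a, -, ha⟩ := (Nat.dvd_prime_pow hl).1 (orderOf_dvd_of_pow_eq_one h2)
  have h3 : l ^ a ≤ Nat.card G := by
    rw [← ha]
    exact Nat.le_of_dvd Nat.card_pos (orderOf_dvd_natCard g)
  have h4 : a < e + 1 := (Nat.pow_lt_pow_iff_right hl.one_lt).1 (h3.trans_lt h)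
  rw [← orderOf_dvd_iff_pow_eq_one, ha]
  exact pow_dvd_pow _ (by omega)

theorem zpow_pgroup {G : Type} [Group G] {l e : ℕ} (hl : l.Prime) {g : G}
    (hg : g ^ l ^ e = 1) : IsPGroup l (Subgroup.zpowers g) := by
  have : Fact l.Prime := ⟨hl⟩
  rw [IsPGroup.iff_orderOf]
  rintro ⟨x, hx⟩
  obtain ⟨k, rfl⟩ := Subgroup.mem_zpowers_iff.1 hx
  have h1 : (g ^ k) ^ l ^ e = 1 := by
    rw [← zpow_natCast, ← zpow_mul, mul_comm, zpow_mul, zpow_natCast, hg, one_zpow]
  have h2 : orderOf (g ^ k) ∣ l ^ e := orderOf_dvd_of_pow_eq_one h1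
  obtain ⟨a, -, ha⟩ := (Nat.dvd_prime_pow hl).1 h2
  exact ⟨a, by rw [Subgroup.orderOf_mk, ha]⟩

/-- the subgroup -/
def certSub {G : Type} [Group G] {n : ℕ} {S : G → Prop} (h1 : S 1)
    (h2 : ∀ x y, S x → S y → S (x * y)) (h3 : ∀ x, S x → x ^ (n + 1) = 1) : Subgroup G where
  carrier := {x | S x}
  mul_mem' := fun {x y} hx hy => h2 x y hx hy
  one_mem' := h1
  inv_mem' := fun {x} hx => by
    have h4 : ∀ k : ℕ, S (x ^ k) := by
      intro k
      induction k with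
      | zero => rw [pow_zero]; exact h1
      | succ k ih => rw [pow_succ]; exact h2 _ _ ih hx
    have h5 : x⁻¹ = x ^ n := by
      have h6 := h3 x hx
      rw [pow_succ] at h6
      exact (eq_inv_of_mul_eq_one_left h6).symm
    show S x⁻¹
    rw [h5]
    exact h4 n

theorem cert_iff {G : Type} [Group G] [Finite G] {B l : ℕ} (hB : Nat.card G ≤ B)
    (hl : l.Prime) (S : G → Prop) :
    Cert l (l ^ Nat.log l B) S ↔ ∃ P : Sylow l G, ∀ x, x ∈ P ↔ S x := by
  have hF : Fact l.Prime := ⟨hl⟩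
  have hlt : Nat.card G < l ^ (Nat.log l B + 1) :=
    hB.trans_lt (Nat.lt_pow_succ_log_self hl.one_lt B)
  constructor
  · rintro ⟨h1, h2, h3, h4⟩
    obtain ⟨n, hn⟩ : ∃ n, l ^ Nat.log l B = n + 1 :=
      ⟨_, (Nat.succ_pred_eq_of_pos (Nat.pow_pos hl.pos)).symm⟩
    have h3' : ∀ x, S x → x ^ (n + 1) = 1 := by
      rw [← hn]
      exact h3
    let H : Subgroup G := certSub h1 h2 h3'
    have hHS : ∀ x, x ∈ H ↔ S x := fun x => Iff.rfl
    have hH : IsPGroup l H := fun x => ⟨Nat.log l B, Subtype.ext (h3 _ x.2)⟩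
    obtain ⟨Q, hQ⟩ := hH.exists_le_sylow
    by_cases e : H = Q
    · refine ⟨Q, fun x => ?_⟩
      rw [← hHS, e]
      exact Iff.rfl
    exfalso
    obtain ⟨m, hm⟩ := IsPGroup.iff_card.1 hH
    have hlt' : l ^ m < Nat.card Q := by
      rw [← hm]
      refine lt_of_le_of_ne (Subgroup.card_le_of_le hQ) fun h => e ?_
      exact Subgroup.eq_of_le_of_card_ge hQ h.ge
    rw [Q.card_eq_multiplicity] at hlt'
    have hlt'' := (Nat.pow_lt_pow_iff_right hl.one_lt).1 hlt'
    have hdvd : l ^ (m + 1) ∣ Nat.card G :=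
      (pow_dvd_pow l hlt'').trans (Nat.ordProj_dvd _ _)
    obtain ⟨K, hK, hHK⟩ := Sylow.exists_subgroup_card_pow_succ hdvd hm
    have hidx : (H.subgroupOf K).index = l := by
      have h5 := Subgroup.card_mul_index (H.subgroupOf K)
      rw [Nat.card_congr (Subgroup.subgroupOfEquivOfLe hHK).toEquiv, hm, hK, pow_succ] at h5
      exact Nat.eq_of_mul_eq_mul_left (Nat.pow_pos hl.pos) h5
    have hnorm : (H.subgroupOf K).Normal := by
      refine Subgroup.normal_of_index_eq_minFac_card ?_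
      rw [hidx, hK, hl.pow_minFac (Nat.succ_ne_zero m)]
    obtain ⟨g, hgK, hgH⟩ : ∃ g ∈ K, g ∉ H := by
      by_contra h5
      push Not at h5
      have h6 : H = K := le_antisymm hHK h5
      rw [h6, hK] at hm
      have h7 := Nat.pow_right_injective hl.two_le hm
      omega
    refine h4 g hgH (fun x hx => ?_) ?_
    · exact hnorm.conj_mem ⟨x, hHK hx⟩ hx ⟨g, hgK⟩
    · have h5 := pow_card_eq_one' (x := (QuotientGroup.mk ⟨g, hgK⟩ : K ⧸ H.subgroupOf K))
      rw [← Subgroup.index_eq_card, hidx, ← QuotientGroup.mk_pow, QuotientGroup.eq_one_iff] at h5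
      exact h5
  · rintro ⟨P, hP⟩
    refine ⟨(hP 1).1 P.one_mem, fun x y hx hy => (hP _).1 (P.mul_mem ((hP x).2 hx)
      ((hP y).2 hy)), fun x hx => pow_of_mem' hl hlt P.isPGroup' ((hP x).2 hx), ?_⟩
    intro g hg hn hgl
    have h5 : g ^ l ^ (Nat.log l B + 1) = 1 := by
      rw [pow_succ', pow_mul]
      exact pow_of_mem' hl hlt P.isPGroup' ((hP _).2 hgl)
    have h6 := (zpow_pgroup hl h5).inf_normalizer_sylow P
    have h7 : g ∈ Subgroup.zpowers g ⊓ Subgroup.normalizer (P : Set G) := by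
      refine ⟨Subgroup.mem_zpowers g, ?_⟩
      refine Subgroup.mem_normalizer_fintype fun x hx => ?_
      exact (hP _).2 (hn x ((hP x).1 hx))
    rw [h6] at h7
    exact hg ((hP g).1 h7.2)

end Pool.Agent.H70G
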