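import Pool.Agent.H70G.Tame
import Pool.Agent.H70G.Defs
import Pool.Agent.H70G.NilDef
import Pool.Agent.Cov.Defs

/-!
# Orders of groups whose Sylow subgroups are normal or products of few cyclic subgroups
-/

set_option autoImplicit false

noncomputable section

namespace Pool.Agent.H70G

open Finset Pool.Agent.Grz Pool.Agent.GAvg Pool.Agent.PTr Pool.Agent.MTr Pool.Agent.LPC
  Pool.Agent.ECD
open scoped Classical

theorem pc_zero {G : Type} [Group G] (g : Fin 0 → G) (x : G) : PC g x ↔ 1 = x := by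
  unfold PC
  constructor
  · rintro ⟨e, h⟩
    simpa using h
  · intro h
    exact ⟨fun _ => 0, by simpa using h⟩

theorem pc_succ {k : ℕ} {G : Type} [Group G] [Finite G] {B : ℕ} (hB : Nat.card G ≤ B)
    (g : Fin (k + 1) → G) (x : G) :
    PC g x ↔ ∃ a, a ≤ B ∧ PC (fun i => g i.succ) ((g 0 ^ a)⁻¹ * x) := by
  unfold PC
  constructor
  · rintro ⟨e, h⟩
    rw [List.ofFn_succ, List.prod_cons] at h
    refine ⟨e 0 % orderOf (g 0), ?_, fun i => e i.succ, ?_⟩
    · exact ((Nat.mod_lt _ (orderOf_pos _)).le.trans (orderOf_le_card (x := g 0))).trans hB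
    · rw [pow_mod_orderOf, ← h, inv_mul_cancel_left]
  · rintro ⟨a, -, e, h⟩
    refine ⟨Fin.cons a e, ?_⟩
    rw [List.ofFn_succ, List.prod_cons]
    simp only [Fin.cons_zero, Fin.cons_succ]
    rw [h, mul_inv_cancel_left]

variable {r : ℕ} (Γ : GFam r)

theorem pc_def (k : ℕ) : ∀ {n : ℕ} {σ : Fin r → (Fin n → ℕ) → ℕ}, (∀ i, DFun n (σ i)) →
    ∀ {g : ∀ u : Fin n → ℕ, Fin k → Γ.G (fun i => σ i u)}
      {x : ∀ u : Fin n → ℕ, Γ.G (fun i => σ i u)},
    (∀ i, DFun n (fun u => Γ.enc _ (g u i))) → DFun n (fun u => Γ.enc _ (x u)) →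
    Delta0 n (fun u => PC (g u) (x u)) := by
  induction k with
  | zero =>
    intro n σ hσ g x hg hx
    exact (Γ.geq (Γ.gone hσ) hx).of_iff fun u => pc_zero _ _
  | succ k ih =>
    intro n σ hσ g x hg hx
    have hσ1 : ∀ i, DFun (n + 1) (fun w : Fin (n + 1) → ℕ => σ i (fun j => w j.succ)) :=
      fun i => (hσ i).weak
    have h1 := Delta0.bexFun (n := n) (b := fun u => Γ.N (fun i => σ i u) + 1)
      (P := fun a u => PC (fun i => g u i.succ) ((g u 0 ^ a)⁻¹ * x u))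
      ((Γ.hN.comp hσ).add (DFun.const 1))
      (ih hσ1 (g := fun w i => g (fun j => w j.succ) i.succ)
        (x := fun w => (g (fun j => w j.succ) 0 ^ w 0)⁻¹ * x (fun j => w j.succ))
        (fun i => (hg i.succ).weak)
        (Γ.gmul hσ1 (P := fun w => (g (fun j => w j.succ) 0 ^ w 0)⁻¹)
          (Q := fun w => x (fun j => w j.succ))
          (Γ.ginv hσ1 (Γ.gpow hσ1 (g := fun w => g (fun j => w j.succ) 0) (hg 0).weak
            (DFun.proj 0))) hx.weak))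
    exact h1.of_iff fun u => pc_succ (Γ.card_le _) _ _

/-- the function `l ^ log_l B` -/
def lam (l B : ℕ) : ℕ := if l.Prime ∧ 1 ≤ B then l ^ Nat.log l B else 1

theorem lam_def {n : ℕ} {l y : (Fin n → ℕ) → ℕ} (hl : DFun n l) (hy : DFun n y) :
    DFun n (fun v => lam (l v) (y v)) := by
  have h := ApC.log_def hl hy
  unfold lam
  exact h

/-- the elements with the codes `w / (N + 1) ^ i % (N + 1)` -/
def gs (k : ℕ) (v : Fin r → ℕ) (w : ℕ) (i : Fin k) : Γ.G v :=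
  Γ.dec v (w / (Γ.N v + 1) ^ (i : ℕ) % (Γ.N v + 1))

/-- the sets that may be Sylow subgroups -/
def SS (k : ℕ) (v : Fin r → ℕ) (l w : ℕ) (x : Γ.G v) : Prop :=
  (w = 0 ∧ x ^ lam l (Γ.N v + 1) = 1) ∨ (¬ w = 0 ∧ PC (gs Γ k v (w - 1)) x)

section

variable {n : ℕ} {σ : Fin r → (Fin n → ℕ) → ℕ} {l w : (Fin n → ℕ) → ℕ}

theorem gs_def (k : ℕ) (hσ : ∀ i, DFun n (σ i)) (hw : DFun n w) (i : Fin k) :
    DFun n (fun u => Γ.enc _ (gs Γ k (fun i => σ i u) (w u) i)) := by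
  have hN : DFun n (fun u => Γ.N (fun i => σ i u) + 1) := (Γ.hN.comp hσ).add (DFun.const 1)
  exact Γ.gdec hσ (DFun.modAny (PTr.DFun.divPos hw (PTr.DFun.powConst hN (i : ℕ))
    fun u => pow_pos (Nat.succ_pos _) _) hN)

theorem ss_def (k : ℕ) (hσ : ∀ i, DFun n (σ i)) (hl : DFun n l) (hw : DFun n w)
    {x : ∀ u : Fin n → ℕ, Γ.G (fun i => σ i u)} (hx : DFun n (fun u => Γ.enc _ (x u))) :
    Delta0 n (fun u => SS Γ k (fun i => σ i u) (l u) (w u) (x u)) := by
  have hN : DFun n (fun u => Γ.N (fun i => σ i u) + 1) := (Γ.hN.comp hσ).add (DFun.const 1)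
  have h0 : Delta0 n (fun u => w u = 0) := Delta0.eqFun hw (DFun.const 0)
  exact (h0.and (Γ.geq (Γ.gpow hσ hx (lam_def hl hN)) (Γ.gone hσ))).or
    (h0.not.and (pc_def Γ k hσ (fun i => gs_def Γ k hσ (hw.sub (DFun.const 1)) i) hx))

theorem cert_def (k : ℕ) (hσ : ∀ i, DFun n (σ i)) (hl : DFun n l) (hw : DFun n w) :
    Delta0 n (fun u => Cert (l u) (lam (l u) (Γ.N (fun i => σ i u) + 1))
      (SS Γ k (fun i => σ i u) (l u) (w u))) := by
  have hσ1 : ∀ i, DFun (n + 1) (fun w : Fin (n + 1) → ℕ => σ i (fun j => w j.succ)) :=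
    fun i => (hσ i).weak
  have hσ2 : ∀ i, DFun (n + 1 + 1) (fun w : Fin (n + 1 + 1) → ℕ =>
    σ i (fun j => w j.succ.succ)) := fun i => (hσ i).weak.weak
  have k1 : Delta0 n (fun u => SS Γ k (fun i => σ i u) (l u) (w u) 1) :=
    ss_def Γ k hσ hl hw (x := fun u => (1 : Γ.G (fun i => σ i u))) (Γ.gone hσ)
  -- products
  have y2 := Γ.gdec (σ := fun i w => σ i (fun j => w j.succ.succ)) hσ2
    (z := fun w : Fin (n + 1 + 1) → ℕ => w 0) (DFun.proj 0)
  have x2 := Γ.gdec (σ := fun i w => σ i (fun j => w j.succ.succ)) hσ2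
    (z := fun w : Fin (n + 1 + 1) → ℕ => w (Fin.succ 0)) (DFun.proj _)
  have k2 : Delta0 n (fun u => ∀ x y : Γ.G (fun i => σ i u),
      SS Γ k (fun i => σ i u) (l u) (w u) x → SS Γ k (fun i => σ i u) (l u) (w u) y →
      SS Γ k (fun i => σ i u) (l u) (w u) (x * y)) := by
    refine Γ.gall hσ (A := fun u x => ∀ y : Γ.G (fun i => σ i u),
      SS Γ k (fun i => σ i u) (l u) (w u) x → SS Γ k (fun i => σ i u) (l u) (w u) y →
      SS Γ k (fun i => σ i u) (l u) (w u) (x * y)) ?_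
    refine Γ.gall hσ1 (A := fun t y =>
      SS Γ k (fun i => σ i (fun j => t j.succ)) (l (fun j => t j.succ)) (w (fun j => t j.succ))
        (Γ.dec _ (t 0)) →
      SS Γ k (fun i => σ i (fun j => t j.succ)) (l (fun j => t j.succ)) (w (fun j => t j.succ))
        y →
      SS Γ k (fun i => σ i (fun j => t j.succ)) (l (fun j => t j.succ)) (w (fun j => t j.succ))
        (Γ.dec _ (t 0) * y)) ?_
    exact (ss_def Γ k hσ2 hl.weak.weak hw.weak.weak x2).imp
      ((ss_def Γ k hσ2 hl.weak.weak hw.weak.weak y2).imp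
        (ss_def Γ k hσ2 hl.weak.weak hw.weak.weak (Γ.gmul hσ2 x2 y2)))
  have x1 := Γ.gdec (σ := fun i w => σ i (fun j => w j.succ)) hσ1
    (z := fun w : Fin (n + 1) → ℕ => w 0) (DFun.proj 0)
  have k3 : Delta0 n (fun u => ∀ x : Γ.G (fun i => σ i u),
      SS Γ k (fun i => σ i u) (l u) (w u) x →
      x ^ lam (l u) (Γ.N (fun i => σ i u) + 1) = 1) := by
    refine Γ.gall hσ (A := fun u x => SS Γ k (fun i => σ i u) (l u) (w u) x →
      x ^ lam (l u) (Γ.N (fun i => σ i u) + 1) = 1) ?_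
    exact (ss_def Γ k hσ1 hl.weak hw.weak x1).imp (Γ.geq (Γ.gpow hσ1 x1
      (lam_def hl.weak ((Γ.hN.comp hσ1).add (DFun.const 1)))) (Γ.gone hσ1))
  have k4 : Delta0 n (fun u => ∀ g : Γ.G (fun i => σ i u),
      ¬ SS Γ k (fun i => σ i u) (l u) (w u) g →
      (∀ x, SS Γ k (fun i => σ i u) (l u) (w u) x →
        SS Γ k (fun i => σ i u) (l u) (w u) (g * x * g⁻¹)) →
      ¬ SS Γ k (fun i => σ i u) (l u) (w u) (g ^ l u)) := by
    refine Γ.gall hσ (A := fun u g => ¬ SS Γ k (fun i => σ i u) (l u) (w u) g →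
      (∀ x, SS Γ k (fun i => σ i u) (l u) (w u) x →
        SS Γ k (fun i => σ i u) (l u) (w u) (g * x * g⁻¹)) →
      ¬ SS Γ k (fun i => σ i u) (l u) (w u) (g ^ l u)) ?_
    refine (ss_def Γ k hσ1 hl.weak hw.weak x1).not.imp (Delta0.imp ?_
      (ss_def Γ k hσ1 hl.weak hw.weak (Γ.gpow hσ1 x1 hl.weak)).not)
    refine Γ.gall hσ1 (A := fun t x =>
      SS Γ k (fun i => σ i (fun j => t j.succ)) (l (fun j => t j.succ)) (w (fun j => t j.succ))
        x →
      SS Γ k (fun i => σ i (fun j => t j.succ)) (l (fun j => t j.succ)) (w (fun j => t j.succ))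
        (Γ.dec _ (t 0) * x * (Γ.dec _ (t 0))⁻¹)) ?_
    exact (ss_def Γ k hσ2 hl.weak.weak hw.weak.weak y2).imp
      (ss_def Γ k hσ2 hl.weak.weak hw.weak.weak (Γ.gmul hσ2 (Γ.gmul hσ2 x2 y2)
        (Γ.ginv hσ2 x2)))
  exact k1.and (k2.and (k3.and k4))

end

end Pool.Agent.H70G
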