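import Pool.Agent.H70G.Trans
import Pool.Agent.PtC.Final

/-!
# Arithmetic in families of groups with rational law: main theorem
-/

set_option autoImplicit false

noncomputable section

namespace Pool.Agent.H70G

open Pool.Agent.PRc Pool.Agent.Grz Pool.Agent.ECD Pool.Agent.Cov Pool.Agent.FOG Pool.Agent.GOr
open scoped Classical

variable {n s d k : ℕ}

private theorem card_bd {Φ : Fmt n s d k} {v : Fin (n + 1) → ℕ} {K : Type} [Field K] {t : K}
    {G : Type} [Group G] {cls : (Fin d × Fin s → ℕ) → G} (h : Φ.Pres v K t G cls) :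
    Nat.card G ≤ v 0 ^ (d * s) := by
  have hs : Function.Surjective (fun x : Fin d × Fin s → Fin (v 0) =>
      cls fun j => (x j : ℕ)) := by
    intro g
    obtain ⟨x, hx, rfl⟩ := h.onto g
    exact ⟨fun j => ⟨x j, hx.1 j⟩, rfl⟩
  refine (Nat.card_le_card_of_surjective _ hs).trans (le_of_eq ?_)
  rw [Nat.card_fun, Nat.card_eq_fintype_card, Fintype.card_fin, Nat.card_eq_fintype_card,
    Fintype.card_prod, Fintype.card_fin, Fintype.card_fin]

/-- **Arithmetic in families of groups with rational law.** -/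
theorem top (Φ : Fmt n s d k) (κ : ℕ) :
    ∃ (N : (Fin (n + 1) → ℕ) → ℕ) (O : (Fin (n + 1) ⊕ Fin d × Fin s → ℕ) → ℕ)
      (W : Fin d × Fin s → (Fin (n + 1) ⊕ Fin d × Fin s ⊕ Fin 2 → ℕ) → ℕ),
      DFun (n + 1) N ∧
      (∀ m : (Fin n → ℕ) → ℕ, DFun n m →
        DFun n (fun u => ∏ p ∈ (m u).primeFactors, N (Fin.cons p u))) ∧
      DMap O ∧ (∀ j, DMap (W j)) ∧
      (∀ (v : Fin (n + 1) → ℕ) (K : Type) [Field K] (t : K) (G : Type) [Group G]
        (cls : (Fin d × Fin s → ℕ) → G), Φ.Pres v K t G cls →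
        (∀ x ∈ Φ.Dom v, O (Sum.elim v x) = orderOf (cls x) ∧ ∀ a e : ℕ,
          (fun j => W j (Sum.elim v (Sum.elim x ![a, e]))) ∈ Φ.Dom v ∧
          cls (fun j => W j (Sum.elim v (Sum.elim x ![a, e]))) = cls x ^ (a ^ e)) ∧
        (Tame κ G → N v = Nat.card G)) ∧
      (∀ v : Fin (n + 1) → ℕ, (¬ ∃ (K : Type) (_ : Field K) (t : K) (G : Type) (_ : Group G)
        (cls : (Fin d × Fin s → ℕ) → G), Φ.Pres v K t G cls ∧ Tame κ G) → N v = 0) ∧
      (∀ (m : ℕ) (σ : Fin (n + 1) → (Fin m → ℕ) → ℕ) (P : Fin d × Fin s → (Fin (m + 1) → ℕ) → ℕ)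
        (l M : (Fin m → ℕ) → ℕ), (∀ i, DFun m (σ i)) → (∀ j, DFun (m + 1) (P j)) → DFun m l →
        DFun m M → (∀ u, l u ≤ Nat.log 2 (M u) + 1) → ∃ Z : Fin d × Fin s → (Fin m → ℕ) → ℕ,
        (∀ j, DFun m (Z j)) ∧
        ∀ (u : Fin m → ℕ) (K : Type) [Field K] (t : K) (G : Type) [Group G]
          (cls : (Fin d × Fin s → ℕ) → G), Φ.Pres (fun i => σ i u) K t G cls →
          (∀ i, i < l u → (fun j => P j (Fin.cons i u)) ∈ Φ.Dom fun i => σ i u) →
          (fun j => Z j u) ∈ Φ.Dom (fun i => σ i u) ∧ cls (fun j => Z j u) =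
            ((List.range (l u)).map fun i => cls fun j => P j (Fin.cons i u)).prod) ∧
      Delta0 (n + 1) (fun v => ∃ (K : Type) (_ : Field K) (t : K) (G : Type) (_ : Group G)
        (cls : (Fin d × Fin s → ℕ) → G), Φ.Pres v K t G cls) := by
  rcases Nat.eq_zero_or_pos s with hs | hs
  · have hno : ∀ (v : Fin (n + 1) → ℕ) (K : Type) [Field K] (t : K) (G : Type) [Group G]
        (cls : (Fin d × Fin s → ℕ) → G), ¬ Φ.Pres v K t G cls := fun v K _ t G _ cls h => by
      have := h.fld.pos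
      omega
    refine ⟨fun _ => 0, fun _ => 0, fun _ _ => 0, DFun.const 0, fun m hm => ?_,
      DMap.of fun _ => DFun.const 0, fun _ => DMap.of fun _ => DFun.const 0, ?_,
      fun _ _ => rfl, ?_, ?_⟩
    · refine PtC.dfun_prodPF (g := fun _ _ => 0) (B := fun _ => 1) (DFun.const 0) hm
        (DFun.const 1) fun v => ?_
      exact Finset.prod_le_one' fun _ _ => Nat.zero_le _
    · intro v K _ t G _ cls h
      exact absurd h (hno v K t G cls)
    · intro m σ P l M _ _ _ _ _
      exact ⟨fun _ _ => 0, fun _ => DFun.const 0,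
        fun u K _ t G _ cls h => absurd h (hno _ K t G cls)⟩
    · refine (Delta0.ltFun (DFun.const 0) (DFun.const 0)).of_iff fun v => ?_
      constructor
      · rintro ⟨K, _, t, G, _, cls, h⟩
        exact absurd h (hno v K t G cls)
      · intro h
        exact absurd h (lt_irrefl 0)
  have hex := fun i => prf_ext (Φ.F_prf i) s hs
  choose QF hQ hE' using hex
  have hE : HE Φ QF := hE'
  obtain ⟨N, O, W, hN, hO, hW, h1, h2, h3, h4⟩ := (toCd Φ QF hQ).main κ
  have hyx : ∀ {v : Fin (n + 1) → ℕ}, (v 0).Prime → ∀ x ∈ Φ.Dom v,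
      (∀ i, (fun i => x (finProdFinEquiv.symm i)) i < (toCd Φ QF hQ).p v) ∧
      (toCd Φ QF hQ).X v (fun i => x (finProdFinEquiv.symm i)) := by
    intro v hv x hx
    refine ⟨fun i => ?_, ?_⟩
    · rw [toCd_p hv]
      exact hx.1 _
    · have h5 := hx.2
      show Φ.X (Sum.elim v fun j => x (finProdFinEquiv.symm (finProdFinEquiv j)))
      simp only [Equiv.symm_apply_apply]
      exact h5
  have hcl : ∀ {v : Fin (n + 1) → ℕ} (y : Fin (d * s) → ℕ),
      (∀ i, y i < (toCd Φ QF hQ).p v) →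
      cv (fun i => (y i : ZMod ((toCd Φ QF hQ).p v))) = fun j => y (finProdFinEquiv j) := by
    intro v y hy
    funext j
    unfold cv
    rw [ZMod.val_natCast, Nat.mod_eq_of_lt (hy _)]
  refine ⟨fun v => min (N v) (v 0 ^ (d * s)),
    fun w => O (fun i => w (.inl i)) fun i => w (.inr (finProdFinEquiv.symm i)),
    fun j w => W (fun i => w (.inl i)) (fun i => w (.inr (.inl (finProdFinEquiv.symm i))))
      (w (.inr (.inr 0))) (w (.inr (.inr 1))) (finProdFinEquiv j),
    DFun.min hN (PTr.DFun.powConst (DFun.proj 0) _), ?_, ?_, ?_, ?_, ?_, ?_, ?_⟩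
  · intro m hm
    refine PtC.dfun_prodPF (g := fun p u => min (N (Fin.cons p u))
      ((Fin.cons p u : Fin (n + 1) → ℕ) 0 ^ (d * s))) (B := fun u => m u ^ (d * s) + 1)
      ?_ hm ((PTr.DFun.powConst hm _).add (DFun.const 1)) ?_
    · have h5 := DFun.min hN (PTr.DFun.powConst (DFun.proj (n := n + 1) 0) (d * s))
      have e : (fun w : Fin (n + 1) → ℕ => min (N (Fin.cons (w 0) fun i => w i.succ))
          ((Fin.cons (w 0) (fun i => w i.succ) : Fin (n + 1) → ℕ) 0 ^ (d * s))) =
          fun w => min (N w) (w 0 ^ (d * s)) := by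
        funext w
        have e1 : (Fin.cons (w 0) (fun i => w i.succ) : Fin (n + 1) → ℕ) = w :=
          Fin.cons_self_tail w
        rw [e1]
      rw [e]
      exact h5
    · intro u
      rcases Nat.eq_zero_or_pos (m u) with h0 | h0
      · rw [h0, Nat.primeFactors_zero, Finset.prod_empty]
        exact Nat.le_add_left 1 _
      · calc _ ≤ ∏ p ∈ (m u).primeFactors, p ^ (d * s) :=
              Finset.prod_le_prod' fun p _ => min_le_right _ _
          _ = (∏ p ∈ (m u).primeFactors, p) ^ (d * s) := Finset.prod_pow _ _ _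
          _ ≤ m u ^ (d * s) :=
              Nat.pow_le_pow_left (Nat.le_of_dvd h0 (Nat.prod_primeFactors_dvd _)) _
          _ ≤ m u ^ (d * s) + 1 := Nat.le_succ _
  · exact DMap.of fun {_ g} hg => hO (fun i => hg (.inl i)) fun i => hg (.inr _)
  · exact fun j => DMap.of fun {_ g} hg => hW (fun i => hg (.inl i)) (fun i => hg (.inr (.inl _)))
      (hg (.inr (.inr 0))) (hg (.inr (.inr 1))) _
  · intro v K _ t G _ cls h
    have hv := h.fld.prime
    obtain ⟨h5, h6⟩ := h1 v G _ (pres_rep (hQ := hQ) hE h)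
    refine ⟨fun x hx => ?_, fun hT => ?_⟩
    · obtain ⟨h7, h8⟩ := hyx hv x hx
      obtain ⟨h9, h10⟩ := h5 _ h7 h8
      have e0 : cv (fun i => ((x (finProdFinEquiv.symm i) : ℕ) :
          ZMod ((toCd Φ QF hQ).p v))) = x := by
        rw [hcl _ h7]
        funext j
        exact congrArg x (Equiv.symm_apply_apply _ _)
      rw [e0] at h9
      refine ⟨h9, fun a e => ?_⟩
      obtain ⟨h11, h12, h13⟩ := h10 a e
      rw [e0, hcl _ h11] at h13
      refine ⟨⟨fun j => ?_, h12⟩, h13⟩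
      have h14 := h11 (finProdFinEquiv j)
      rw [toCd_p hv] at h14
      exact h14
    · show min (N v) (v 0 ^ (d * s)) = Nat.card G
      rw [h6 hT]
      exact min_eq_left (card_bd h)
  · intro v hv
    have h5 : N v = 0 := h2 v fun ⟨G, _, cls, h6, h7⟩ => hv (by
      obtain ⟨K, _, t, h8⟩ := rep_pres hE h6
      exact ⟨K, inferInstance, t, G, inferInstance, _, h8, h7⟩)
    show min (N v) (v 0 ^ (d * s)) = 0
    rw [h5, Nat.zero_min]
  · intro m σ P l M hσ hP hl hM hlM
    obtain ⟨Z, hZ, h5⟩ := h3 (P := fun i => P (finProdFinEquiv.symm i)) hσ (fun i => hP _)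
      hl hM hlM
    refine ⟨fun j => Z (finProdFinEquiv j), fun j => hZ _, ?_⟩
    intro u K _ t G _ cls h hu
    have hv := h.fld.prime
    obtain ⟨h6, h7, h8⟩ := h5 u G _ (pres_rep (hQ := hQ) hE h) fun i hi => hyx hv _ (hu i hi)
    rw [hcl _ h6] at h8
    refine ⟨⟨fun j => ?_, h7⟩, h8.trans ?_⟩
    · have h14 := h6 (finProdFinEquiv j)
      rw [toCd_p hv] at h14
      exact h14
    · congr 1
      refine List.map_congr_left fun i hi => congrArg cls ?_
      rw [hcl _ (hyx hv _ (hu i (List.mem_range.1 hi))).1]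
      funext j
      simp only [Equiv.symm_apply_apply]
  · refine h4.of_iff fun v => ?_
    constructor
    · rintro ⟨K, _, t, G, _, cls, h⟩
      exact (pres_rep (hQ := hQ) hE h).iso.choose
    · intro h
      obtain ⟨K, _, t, h8⟩ := rep_pres hE (Pt.rep ⟨v, h⟩)
      exact ⟨K, inferInstance, t, _, inferInstance, _, h8⟩

end Pool.Agent.H70G
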