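import Pool.Agent.H70G.Top
import Pool.Agent.H70G.BaseIter

/-!
# Iterates of definable affine maps: main theorem
-/

set_option autoImplicit false

noncomputable section

namespace Pool.Agent.H70G

open Pool.Agent.PRc Pool.Agent.Grz Pool.Agent.ECD Pool.Agent.Cov Pool.Agent.FOG Pool.Agent.GOr
open scoped Classical

variable {n s d k : ℕ}

theorem DMap.subst {ι : Type} {f : (ι → ℕ) → ℕ} (h : DMap f) {n : ℕ}
    {g : ι → (Fin n → ℕ) → ℕ} (hg : ∀ i, DFun n (g i)) : DFun n (fun v => f fun i => g i v) := by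
  obtain ⟨m, e, h1⟩ := h
  refine dfun_congr (h1.comp (h := fun j => g (e.symm j)) fun j => hg _) fun v => ?_
  simp only [Equiv.symm_apply_apply]

/-- **Iterates of definable affine maps.** -/
theorem top_iter (Φ : Fmt n s d k) (κ : ℕ) (m : ℕ) (σ : Fin (n + 1) → (Fin m → ℕ) → ℕ)
    (H : Fin d × Fin s → (Fin m ⊕ Fin d × Fin s → ℕ) → ℕ) (x : Fin d × Fin s → (Fin m → ℕ) → ℕ)
    (t : (Fin m → ℕ) → ℕ) (hσ : ∀ i, DFun m (σ i)) (hH : ∀ j, DMap (H j))
    (hx : ∀ j, DFun m (x j)) (ht : DFun m t) : ∃ Z : Fin d × Fin s → (Fin m → ℕ) → ℕ,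
      (∀ j, DFun m (Z j)) ∧
      ∀ (u : Fin m → ℕ) (K : Type) [Field K] (a : K) (G : Type) [Group G]
        (cls : (Fin d × Fin s → ℕ) → G), Φ.Pres (fun i => σ i u) K a G cls → AbGen κ G →
        ∀ h : G → G, IsAff h →
        (∀ y ∈ Φ.Dom (fun i => σ i u), (fun j => H j (Sum.elim u y)) ∈ Φ.Dom (fun i => σ i u) ∧
          cls (fun j => H j (Sum.elim u y)) = h (cls y)) →
        (fun j => x j u) ∈ Φ.Dom (fun i => σ i u) →
        (fun j => Z j u) ∈ Φ.Dom (fun i => σ i u) ∧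
          cls (fun j => Z j u) = h^[t u] (cls fun j => x j u) := by
  rcases Nat.eq_zero_or_pos s with hs | hs
  · refine ⟨fun _ _ => 0, fun _ => DFun.const 0, fun u K _ a G _ cls h => ?_⟩
    have := h.fld.pos
    omega
  have hex := fun i => prf_ext (Φ.F_prf i) s hs
  choose QF hQ hE' using hex
  have hE : HE Φ QF := hE'
  obtain ⟨Z, hZ, key⟩ := (toCd Φ QF hQ).iter κ (σ := σ)
    (H := fun i u y => H (finProdFinEquiv.symm i) (Sum.elim u fun j => y (finProdFinEquiv j)))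
    (x := fun i => x (finProdFinEquiv.symm i)) (t := t) hσ (fun i {m' ρ y} hρ hy => by
      refine dfun_congr ((hH (finProdFinEquiv.symm i)).subst
        (g := Sum.elim ρ fun j => y (finProdFinEquiv j)) ?_) fun w => congrArg (H _) (funext ?_)
      · rintro (j | j)
        · exact hρ j
        · exact hy _
      · rintro (j | j) <;> rfl) (fun i => hx _) ht
  refine ⟨fun j => Z (finProdFinEquiv j), fun j => hZ _, ?_⟩
  intro u K _ a G _ cls hP hA h hh hHh hxu
  have hv := hP.fld.prime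
  have hp : (toCd Φ QF hQ).p (fun i => σ i u) = σ 0 u := toCd_p hv
  -- vectors of coordinates
  have hyx : ∀ y ∈ Φ.Dom (fun i => σ i u),
      (∀ i, (fun i => y (finProdFinEquiv.symm i)) i < (toCd Φ QF hQ).p fun i => σ i u) ∧
      (toCd Φ QF hQ).X (fun i => σ i u) (fun i => y (finProdFinEquiv.symm i)) := by
    intro y hy
    refine ⟨fun i => ?_, ?_⟩
    · rw [hp]
      exact hy.1 _
    · have h5 := hy.2
      show Φ.X (Sum.elim (fun i => σ i u) fun j => y (finProdFinEquiv.symm (finProdFinEquiv j)))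
      simp only [Equiv.symm_apply_apply]
      exact h5
  have hxy : ∀ y : Fin (d * s) → ℕ, (∀ i, y i < (toCd Φ QF hQ).p fun i => σ i u) →
      (toCd Φ QF hQ).X (fun i => σ i u) y →
      (fun j => y (finProdFinEquiv j)) ∈ Φ.Dom (fun i => σ i u) := by
    intro y hy hX
    refine ⟨fun j => ?_, hX⟩
    have h1 := hy (finProdFinEquiv j)
    rw [hp] at h1
    exact h1
  have hcl : ∀ (y : Fin (d * s) → ℕ), (∀ i, y i < (toCd Φ QF hQ).p fun i => σ i u) →
      cv (fun i => (y i : ZMod ((toCd Φ QF hQ).p fun i => σ i u))) =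
        fun j => y (finProdFinEquiv j) := by
    intro y hy
    funext j
    unfold cv
    rw [ZMod.val_natCast, Nat.mod_eq_of_lt (hy _)]
  obtain ⟨h7, h8⟩ := hyx _ hxu
  obtain ⟨h1, h2, h3⟩ := key u G _ (pres_rep (hQ := hQ) hE hP) hA h hh (fun y hy hX => by
    obtain ⟨h4, h5⟩ := hHh _ (hxy y hy hX)
    obtain ⟨h9, h10⟩ := hyx _ h4
    refine ⟨h9, h10, ?_⟩
    rw [hcl _ h9, hcl _ hy, ← h5]
    congr 1
    funext j
    rw [Equiv.symm_apply_apply]) h7 h8
  refine ⟨hxy _ h1 h2, ?_⟩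
  rw [hcl _ h1, hcl _ h7] at h3
  rw [h3]
  congr 2
  funext j
  simp only [Equiv.symm_apply_apply]

end Pool.Agent.H70G
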