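import Pool.Agent.H70G.Cvt

/-!
# Presentations over the extension and over the prime field
-/

set_option autoImplicit false

noncomputable section

namespace Pool.Agent.H70G

open Pool.Agent.PRc Pool.Agent.Grz Pool.Agent.ECD Pool.Agent.Cov Pool.Agent.FOG Pool.Agent.GOr
open scoped Classical

variable {n s d k : ℕ} {Φ : Fmt n s d k}
  {QF : Fin d → Fin s → FF (((Fin d ⊕ Fin d ⊕ Fin k) × Fin s) ⊕ Fin s)}
  {hQ : ∀ i l, PRF (QF i l)}

/-- the property of the law in coordinates -/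
def HE (Φ : Fmt n s d k)
    (QF : Fin d → Fin s → FF (((Fin d ⊕ Fin d ⊕ Fin k) × Fin s) ⊕ Fin s)) : Prop :=
  ∀ i (k' : Type) [Field k'] (h : Polynomial k') [Fact (Irreducible h)],
      h.Monic → h.natDegree = s → ∀ z : (Fin d ⊕ Fin d ⊕ Fin k) × Fin s → k',
        Φ.F i (AdjoinRoot h) (fun i => PRc.ext h fun l => z (i, l)) =
          PRc.ext h fun l => QF i l k' (Sum.elim z fun l => h.coeff l)

/-- the coordinates of a vector over the prime field -/
def cv {p : ℕ} (x : Fin (d * s) → ZMod p) : Fin d × Fin s → ℕ :=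
  fun j => (x (finProdFinEquiv j)).val

/-- the vector over the prime field with the given coordinates -/
def vz (p : ℕ) (x : Fin d × Fin s → ℕ) : Fin (d * s) → ZMod p :=
  fun j => (x (finProdFinEquiv.symm j) : ZMod p)

theorem cv_vz {p : ℕ} {x : Fin d × Fin s → ℕ} (h : ∀ j, x j < p) : cv (vz p x) = x := by
  funext j
  unfold cv vz
  rw [Equiv.symm_apply_apply, ZMod.val_natCast, Nat.mod_eq_of_lt (h j)]

theorem vz_cv {p : ℕ} [NeZero p] (x : Fin (d * s) → ZMod p) : vz p (cv x) = x := by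
  funext j
  show (((x (finProdFinEquiv (finProdFinEquiv.symm j))).val : ℕ) : ZMod p) = x j
  rw [Equiv.apply_symm_apply, ZMod.natCast_zmod_val]

theorem cv_lt {p : ℕ} [NeZero p] (x : Fin (d * s) → ZMod p) (j) : cv x j < p := ZMod.val_lt _

theorem mem_dom {v : Fin (n + 1) → ℕ} (hv : (v 0).Prime)
    (x : Fin (d * s) → ZMod ((toCd Φ QF hQ).p v)) :
    cv x ∈ Φ.Dom v ↔ (toCd Φ QF hQ).X v fun i => (x i).val := by
  constructor
  · rintro ⟨_, h⟩
    exact h
  · intro h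
    exact ⟨fun j => lt_of_lt_of_eq (cv_lt x j) (toCd_p hv), h⟩

theorem pres_rep (hE : HE Φ QF) {v : Fin (n + 1) → ℕ} {K : Type} [Field K] {t : K} {G : Type}
    [Group G] {cls : (Fin d × Fin s → ℕ) → G} (h : Φ.Pres v K t G cls) :
    (toCd Φ QF hQ).Rep v G fun x => cls (cv x) := by
  have hv := h.fld.prime
  have hf : IsField ((toCd Φ QF hQ).p v) s (fun l => Φ.b l v) K t := by
    rw [toCd_p hv]
    exact h.fld
  refine ⟨IsField.irr h.fld, fun g => ?_, fun x y hx hy => ?_, fun x y hx hy => ?_⟩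
  · obtain ⟨x, hx, rfl⟩ := h.onto g
    have e : cv (vz ((toCd Φ QF hQ).p v) x) = x := cv_vz fun j => by
      rw [toCd_p hv]
      exact hx.1 j
    refine ⟨vz _ x, (mem_dom hv _).1 ?_, ?_⟩
    · rw [e]
      exact hx
    · rw [e]
  · obtain ⟨z, hz, h1, h2⟩ := h.law _ ((mem_dom hv x).2 hx) _ ((mem_dom hv y).2 hy)
    have e : z = cv ((toCd Φ QF hQ).FF v x y) := by
      funext j
      have h3 := (h1 j.1).trans (law_coords hE hf x y j.1)
      have h4 := elt_inj hf (x := fun l => z (j.1, l))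
        (y := fun l => ((toCd Φ QF hQ).FF v x y (finProdFinEquiv (j.1, l))).val)
        (fun l => by rw [toCd_p hv]; exact hz.1 _) (fun l => ZMod.val_lt _) h3
      exact congrFun h4 j.2
    rw [e] at hz h2
    exact ⟨(mem_dom hv _).1 hz, h2⟩
  · exact h.eq _ ((mem_dom hv x).2 hx) _ ((mem_dom hv y).2 hy)

theorem rep_pres (hE : HE Φ QF) {v : Fin (n + 1) → ℕ} {G : Type} [Group G]
    {cls : (Fin (d * s) → ZMod ((toCd Φ QF hQ).p v)) → G} (h : (toCd Φ QF hQ).Rep v G cls) :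
    ∃ (K : Type) (_ : Field K) (t : K), Φ.Pres v K t G fun x => cls (vz _ x) := by
  obtain ⟨hv, hi⟩ := h.ok
  have := Fact.mk hv
  have : Fact (Irreducible (hp (v 0) s fun l => Φ.b l v)) := ⟨hi⟩
  have h0 : IsField (v 0) s (fun l => Φ.b l v) (AdjoinRoot (hp (v 0) s fun l => Φ.b l v))
    (AdjoinRoot.root (hp (v 0) s fun l => Φ.b l v)) := isField_root
  refine ⟨AdjoinRoot (hp (v 0) s fun l => Φ.b l v), inferInstance, AdjoinRoot.root _, ?_⟩
  generalize (AdjoinRoot.root (hp (v 0) s fun l => Φ.b l v)) = t at h0 ⊢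
  have hf : IsField ((toCd Φ QF hQ).p v) s (fun l => Φ.b l v)
      (AdjoinRoot (hp (v 0) s fun l => Φ.b l v)) t := by
    rw [toCd_p hv]
    exact h0
  have hx : ∀ x ∈ Φ.Dom v, cv (vz ((toCd Φ QF hQ).p v) x) = x := fun x hx => cv_vz fun j => by
    rw [toCd_p hv]
    exact hx.1 j
  have hX : ∀ x ∈ Φ.Dom v, (toCd Φ QF hQ).X v fun i => (vz ((toCd Φ QF hQ).p v) x i).val := by
    intro x hx'
    refine (mem_dom hv _).1 ?_
    rw [hx x hx']
    exact hx'
  refine ⟨h0, fun g => ?_, fun x hx' y hy' => ?_, fun x hx' y hy' => ?_⟩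
  · obtain ⟨x, hx', rfl⟩ := h.onto g
    refine ⟨cv x, (mem_dom hv x).2 hx', ?_⟩
    rw [vz_cv]
  · obtain ⟨h1, h2⟩ := h.law _ _ (hX x hx') (hX y hy')
    refine ⟨cv ((toCd Φ QF hQ).FF v (vz _ x) (vz _ y)), (mem_dom hv _).2 h1, fun i => ?_, ?_⟩
    · have h3 := law_coords hE hf (vz _ x) (vz _ y) i
      have e1 := hx x hx'
      have e2 := hx y hy'
      unfold cv at e1 e2
      rw [e1, e2] at h3
      exact h3.symm
    · rw [vz_cv]
      exact h2
  · have h1 := h.eq _ _ (hX x hx') (hX y hy')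
    rw [← h1]
    show _ ↔ Φ.E (Sum.elim v (Sum.elim (cv (vz _ x)) (cv (vz _ y))))
    rw [hx x hx', hx y hy']

end Pool.Agent.H70G
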