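import Pool.Agent.H70G.Cyc
import Pool.Agent.H70G.MaxAb

/-!
# Finite `l`-subgroups of linear groups
-/

set_option autoImplicit false

namespace Pool.Agent.H70G

open Module Module.End
open scoped Classical

variable {G : Type} [Group G]

/-- A finite `l`-group of automorphisms of a vector space of dimension `r` over an algebraically
closed field of characteristic other than `l` is a product of `r + r ^ r` cyclic subgroups. -/
theorem cyc_of_rep [Finite G] {l : ℕ} [hlf : Fact l.Prime] (hl : IsPGroup l G) {L : Type} [Field L]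
    [IsAlgClosed L] (hlL : (l : L) ≠ 0) {V : Type} [AddCommGroup V] [Module L V]
    [FiniteDimensional L V] (f : G →* Module.End L V) (hf : Function.Injective f) :
    Cyc (finrank L V + finrank L V ^ finrank L V) (fun _ : G => True) := by
  have hlp : l.Prime := hlf.out
  obtain ⟨A, hN, hab, hself⟩ := exists_max hl
  obtain ⟨N, hNc⟩ := IsPGroup.iff_card.1 hl
  have hNL : ((Nat.card G : ℕ) : L) ≠ 0 := by
    rw [hNc, Nat.cast_pow]
    exact pow_ne_zero _ hlL
  -- semisimplicity
  have hss : ∀ g : G, (f g).IsFinitelySemisimple := by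
    intro g
    refine IsSemisimple.isFinitelySemisimple ?_
    refine isSemisimple_of_squarefree_aeval_eq_zero
      (p := Polynomial.X ^ (Nat.card G) - Polynomial.C (1 : L))
      (Polynomial.separable_X_pow_sub_C (1 : L) hNL one_ne_zero).squarefree ?_
    rw [map_sub, map_pow, Polynomial.aeval_X, Polynomial.aeval_C, map_one, ← map_pow,
      pow_card_eq_one', map_one, sub_self]
  let F : A → Module.End L V := fun a => f a
  let E : (A → L) → Submodule L V := fun χ => ⨅ a, (F a).maxGenEigenspace (χ a)
  have hE : ∀ χ v, v ∈ E χ ↔ ∀ a : A, f a v = χ a • v := by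
    intro χ v
    show v ∈ (⨅ a, (F a).maxGenEigenspace (χ a)) ↔ _
    rw [Submodule.mem_iInf]
    refine forall_congr' fun a => ?_
    rw [(hss a).maxGenEigenspace_eq_eigenspace, mem_eigenspace_iff]
  have hcomm : ∀ a b : A, Commute (F a) (F b) := by
    intro a b
    show f a * f b = f b * f a
    rw [← map_mul, ← map_mul, hab a a.2 b b.2]
  have htop : ⨆ χ, E χ = ⊤ := iSup_iInf_maxGenEigenspace_eq_top_of_iSup_maxGenEigenspace_eq_top_of_commute
    F (fun a b _ => hcomm a b) fun a => iSup_maxGenEigenspace_eq_top (F a)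
  have hind : iSupIndep E := independent_iInf_maxGenEigenspace_of_forall_mapsTo F
    fun a b φ => mapsTo_maxGenEigenspace_of_comm (hcomm b a) φ
  let W := {χ // E χ ≠ ⊥}
  have hWf : Finite W := (WellFoundedGT.finite_ne_bot_of_iSupIndep hind).to_subtype
  have : Fintype W := Fintype.ofFinite W
  have hWc : Nat.card W ≤ finrank L V := by
    rw [Nat.card_eq_fintype_card]
    exact hind.subtype_ne_bot_le_finrank
  -- operators that agree on the weight spaces
  have hext : ∀ x y : G, (∀ χ : W, ∀ v ∈ E χ.1, f x v = f y v) → x = y := by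
    intro x y h
    refine hf (LinearMap.ext fun v => ?_)
    have hv : v ∈ ⨆ χ, E χ := by rw [htop]; exact Submodule.mem_top
    refine Submodule.iSup_induction E (motive := fun v => f x v = f y v) hv ?_ ?_ ?_
    · intro χ w hw
      by_cases hχ : E χ = ⊥
      · rw [hχ, Submodule.mem_bot] at hw
        rw [hw, map_zero, map_zero]
      · exact h ⟨χ, hχ⟩ w hw
    · rw [map_zero, map_zero]
    · intro v w h1 h2
      rw [map_add, map_add, h1, h2]
  -- the action on the weights
  let c : G → A → A := fun g a => ⟨g⁻¹ * a * g, by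
    have := hN.conj_mem a a.2 g⁻¹
    rwa [inv_inv] at this⟩
  have hmul : ∀ x y : G, ∀ v : V, f (x * y) v = f x (f y v) := fun x y v => by
    rw [map_mul]
    rfl
  have hact : ∀ g : G, ∀ χ : W, E (fun a => χ.1 (c g a)) ≠ ⊥ := by
    intro g χ
    obtain ⟨v, hv, hv0⟩ := (Submodule.ne_bot_iff _).1 χ.2
    refine (Submodule.ne_bot_iff _).2 ⟨f g v, ?_, ?_⟩
    · rw [hE]
      intro a
      rw [← hmul, show (a : G) * g = g * (c g a) by show (a : G) * g = g * (g⁻¹ * a * g); group,
        hmul, (hE _ _).1 hv, map_smul]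
    · intro h0
      apply hv0
      have h1 : f (g⁻¹ * g) v = 0 := by rw [hmul, h0, map_zero]
      rwa [inv_mul_cancel, map_one] at h1
  let Θ : G → W → W := fun g χ => ⟨fun a => χ.1 (c g a), hact g χ⟩
  have hΘ : ∀ g h : G, Θ g = Θ h → h * g⁻¹ ∈ A := by
    intro g h hgh
    have h1 : ∀ a : A, (c g a : G) = c h a := by
      intro a
      refine hext _ _ fun χ v hv => ?_
      rw [(hE _ _).1 hv, (hE _ _).1 hv]
      have h2 := congrFun (congrArg Subtype.val (congrFun hgh χ)) a
      have h3 : χ.1 (c g a) = χ.1 (c h a) := h2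
      rw [h3]
    refine hself _ fun a ha => ?_
    have h2 : g⁻¹ * a * g = h⁻¹ * a * h := h1 ⟨a, ha⟩
    calc h * g⁻¹ * a = h * (g⁻¹ * a * g) * g⁻¹ := by group
      _ = a * (h * g⁻¹) := by rw [h2]; group
  have hindex : Nat.card (G ⧸ A) ≤ finrank L V ^ finrank L V := by
    have h1 : Function.Injective fun q : G ⧸ A => Θ q.out := by
      intro q q' h
      have h2 := hΘ _ _ h
      have h3 : q.out⁻¹ * q'.out ∈ A := (hN.mem_comm_iff).1 h2
      rw [← QuotientGroup.eq, QuotientGroup.out_eq', QuotientGroup.out_eq'] at h3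
      exact h3
    refine (Nat.card_le_card_of_injective _ h1).trans ?_
    rw [Nat.card_fun]
    rcases Nat.eq_zero_or_pos (finrank L V) with h0 | h0
    · have : Nat.card W = 0 := by omega
      rw [this, h0]
    · exact (Nat.pow_le_pow_left hWc _).trans (Nat.pow_le_pow_right h0 hWc)
  -- characters
  have hchar : ∀ χ : W, χ.1 1 = 1 ∧ ∀ a b : A, χ.1 (a * b) = χ.1 a * χ.1 b := by
    intro χ
    obtain ⟨v, hv, hv0⟩ := (Submodule.ne_bot_iff _).1 χ.2
    rw [hE] at hv
    refine ⟨?_, fun a b => ?_⟩
    · have h1 := hv 1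
      rw [Subgroup.coe_one, map_one] at h1
      have h2 : (1 : L) • v = χ.1 1 • v := by rw [one_smul]; exact h1
      exact (smul_left_injective L hv0 h2).symm
    · have h1 := hv (a * b)
      rw [Subgroup.coe_mul, hmul, hv b, map_smul, hv a, smul_smul] at h1
      have h2 := smul_left_injective L hv0 h1
      rw [← h2, mul_comm]
  let e := Finite.equivFin W
  have hA : Cyc (Nat.card W) (fun x => x ∈ A) := by
    refine cyc_of_char (L := L) (Nat.card W) A
      (fun i x => if h : x ∈ A then (e.symm i).1 ⟨x, h⟩ else 1) ?_ ?_ ?_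
    · intro i
      rw [dif_pos A.one_mem]
      exact (hchar _).1
    · intro i x hx y hy
      rw [dif_pos hx, dif_pos hy, dif_pos (A.mul_mem hx hy)]
      exact (hchar _).2 ⟨x, hx⟩ ⟨y, hy⟩
    · intro x hx h
      refine hext _ _ fun χ v hv => ?_
      have h1 := h (e χ)
      rw [dif_pos hx, Equiv.symm_apply_apply] at h1
      have h2 := (hE _ _).1 hv ⟨x, hx⟩
      rw [h2, h1, one_smul, map_one]
      rfl
  obtain ⟨m, hm⟩ := IsPGroup.iff_card.1 (hl.to_subgroup A)
  obtain ⟨a, ha⟩ := IsPGroup.iff_card.1 (hl.to_quotient A)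
  have hG : Nat.card G = l ^ (m + a) := by
    rw [Subgroup.card_eq_card_quotient_mul_card_subgroup A, hm, ha, ← pow_add, add_comm]
  have hal : a ≤ finrank L V ^ finrank L V := by
    rw [ha] at hindex
    exact (Nat.lt_pow_self hlp.one_lt).le.trans hindex
  exact (Cyc.chain a A hm hG hA).mono (Nat.add_le_add hWc hal)

end Pool.Agent.H70G
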